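import Mathlib

/-!
# Clifford theory for a linear character of an abelian normal subgroup, over group rings

`X` is a group, `V` an abelian normal subgroup, `lam` a linear character of `V` with values in a
commutative ring `R`, whose stabiliser in `X` is `V ⋊ G`.
-/

set_option autoImplicit false
set_option linter.unusedSectionVars false

open scoped BigOperators Classical

noncomputable section

namespace Pool.Agent.H373.BU

/-- `i : V → X` and `j : G → X` are homomorphisms, the image of `V` is normal, `act x v` is the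
element of `V` which corresponds to `x v x⁻¹`, and the stabiliser in `X` of the linear character
`lam` of the abelian group `V` is `i(V) j(G)`, with `i(V) ∩ j(G) = 1`. -/
structure Ind (R X V G : Type) [CommRing R] [Group X] [CommGroup V] [Group G] where
  i : V →* X
  j : G →* X
  act : X →* MulAut V
  lam : V →* Rˣ
  act_spec : ∀ x v, i (act x v) = x * i v * x⁻¹
  inj : ∀ v g, i v * j g = 1 → v = 1 ∧ g = 1
  stab : ∀ x, (∀ v, lam (act x v) = lam v) ↔ ∃ v g, i v * j g = x

variable {R X V G : Type} [CommRing R] [Group X] [CommGroup V] [Group G]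

section el

variable {R X : Type} [CommRing R] [Group X]

/-- the group element `x` -/
abbrev el (R : Type) {X : Type} [CommRing R] [Group X] (x : X) : MonoidAlgebra R X :=
  MonoidAlgebra.single x 1

theorem el_mul (x y : X) : el R x * el R y = el R (x * y) := by
  rw [MonoidAlgebra.single_mul_single, one_mul]

theorem el_one : el R (1 : X) = 1 := rfl

theorem el_inv_mul (x : X) : el R x⁻¹ * el R x = 1 := by rw [el_mul, inv_mul_cancel]; rfl

theorem el_mul_inv (x : X) : el R x * el R x⁻¹ = 1 := by rw [el_mul, mul_inv_cancel]; rfl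

theorem single_eq (x : X) (r : R) : (MonoidAlgebra.single x r : MonoidAlgebra R X) = r • el R x := by
  rw [MonoidAlgebra.smul_single, smul_eq_mul, mul_one]

end el

namespace Ind

variable (I : Ind R X V G)

theorem uniq {v v' : V} {g g' : G} (h : I.i v * I.j g = I.i v' * I.j g') : v = v' ∧ g = g' := by
  have h1 : I.i (v'⁻¹ * v) * I.j (g * g'⁻¹) = 1 := by
    rw [map_mul, map_mul, map_inv, map_inv]
    calc (I.i v')⁻¹ * I.i v * (I.j g * (I.j g')⁻¹)
        = (I.i v')⁻¹ * (I.i v * I.j g) * (I.j g')⁻¹ := by group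
      _ = 1 := by rw [h]; group
  obtain ⟨h2, h3⟩ := I.inj _ _ h1
  exact ⟨(inv_mul_eq_one.mp h2).symm, mul_inv_eq_one.mp h3⟩

theorem conj_i (x : X) (v : V) : x * I.i v = I.i (I.act x v) * x := by
  rw [I.act_spec]
  group

theorem lam_act {x : X} (h : ∃ v g, I.i v * I.j g = x) (v : V) :
    I.lam (I.act x v) = I.lam v := (I.stab x).mpr h v

theorem mul_form (v v' : V) (g g' : G) :
    I.i v * I.j g * (I.i v' * I.j g') = I.i (v * I.act (I.j g) v') * I.j (g * g') := by
  rw [map_mul, map_mul, I.act_spec]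
  group

/-- the stabiliser of the linear character -/
def Y : Subgroup X where
  carrier := {x | ∃ v g, I.i v * I.j g = x}
  one_mem' := ⟨1, 1, by simp⟩
  mul_mem' := by
    rintro _ _ ⟨v, g, rfl⟩ ⟨v', g', rfl⟩
    exact ⟨_, _, (I.mul_form v v' g g').symm⟩
  inv_mem' := by
    rintro _ ⟨v, g, rfl⟩
    refine ⟨I.act (I.j g⁻¹) v⁻¹, g⁻¹, ?_⟩
    rw [I.act_spec, map_inv, map_inv]
    group

theorem mem_Y {x : X} : x ∈ I.Y ↔ ∃ v g, I.i v * I.j g = x := Iff.rfl

theorem i_mem (v : V) : I.i v ∈ I.Y := ⟨v, 1, by simp⟩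

theorem j_mem (g : G) : I.j g ∈ I.Y := ⟨1, g, by simp⟩

theorem form_mem (v : V) (g : G) : I.i v * I.j g ∈ I.Y := ⟨v, g, rfl⟩

theorem mem_Y_iff {x : X} : x ∈ I.Y ↔ ∀ v, I.lam (I.act x v) = I.lam v := (I.stab x).symm

/-- the weight of an element: `lam v • g` for the elements `v g` of the stabiliser, and zero for the
others -/
def wt (x : X) : MonoidAlgebra R G :=
  if h : ∃ v g, I.i v * I.j g = x then
    MonoidAlgebra.single h.choose_spec.choose ((I.lam h.choose : Rˣ) : R) else 0

theorem wt_form (v : V) (g : G) :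
    I.wt (I.i v * I.j g) = MonoidAlgebra.single g ((I.lam v : Rˣ) : R) := by
  have h : ∃ v' g', I.i v' * I.j g' = I.i v * I.j g := ⟨v, g, rfl⟩
  unfold wt
  rw [dif_pos h]
  obtain ⟨h1, h2⟩ := I.uniq h.choose_spec.choose_spec
  congr 1
  rw [h1]

theorem wt_not {x : X} (h : x ∉ I.Y) : I.wt x = 0 := dif_neg h

theorem wt_mul_left {y : X} (hy : y ∈ I.Y) (x : X) : I.wt (y * x) = I.wt y * I.wt x := by
  obtain ⟨v, g, rfl⟩ := hy
  by_cases hx : x ∈ I.Y
  · obtain ⟨v', g', rfl⟩ := hx
    rw [I.mul_form, wt_form, wt_form, wt_form, MonoidAlgebra.single_mul_single, map_mul,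
      I.lam_act ⟨1, g, by simp⟩, Units.val_mul]
  · rw [I.wt_not hx, mul_zero, I.wt_not]
    intro h
    exact hx ((I.Y.mul_mem_cancel_left (I.form_mem v g)).mp h)

theorem wt_mul_right (x : X) {y : X} (hy : y ∈ I.Y) : I.wt (x * y) = I.wt x * I.wt y := by
  by_cases hx : x ∈ I.Y
  · exact I.wt_mul_left hx y
  · rw [I.wt_not hx, zero_mul, I.wt_not]
    intro h
    exact hx ((I.Y.mul_mem_cancel_right hy).mp h)

theorem wt_one : I.wt 1 = 1 := by
  have := I.wt_form 1 1
  rw [map_one, map_one, mul_one, map_one] at this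
  rw [this]
  rfl

theorem wt_i (v : V) : I.wt (I.i v) = MonoidAlgebra.single 1 ((I.lam v : Rˣ) : R) := by
  have := I.wt_form v 1
  rwa [map_one, mul_one] at this

theorem wt_j (g : G) : I.wt (I.j g) = MonoidAlgebra.single g 1 := by
  have := I.wt_form 1 g
  rwa [map_one, one_mul, map_one] at this

variable [Fintype X]

/-- the linear map from `RX` to `RG` given by the weights -/
def sg : MonoidAlgebra R X →ₗ[R] MonoidAlgebra R G where
  toFun a := ∑ x, a.coeff x • I.wt x
  map_add' a b := by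
    rw [← Finset.sum_add_distrib]
    refine Finset.sum_congr rfl fun x _ => ?_
    rw [← add_smul]
    rfl
  map_smul' r a := by
    rw [Finset.smul_sum]
    refine Finset.sum_congr rfl fun x _ => ?_
    rw [← mul_smul]
    rfl

theorem sg_single (x : X) (r : R) : I.sg (MonoidAlgebra.single x r) = r • I.wt x := by
  change ∑ y, (MonoidAlgebra.single x r).coeff y • I.wt y = _
  rw [Finset.sum_eq_single x]
  · rw [MonoidAlgebra.coeff_single, Finsupp.single_eq_same]
  · intro y _ hy
    rw [MonoidAlgebra.coeff_single, Finsupp.single_apply, if_neg (Ne.symm hy), zero_smul]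
  · intro h
    exact absurd (Finset.mem_univ _) h

theorem sg_el (x : X) : I.sg (el R x) = I.wt x := by rw [sg_single, one_smul]

theorem sg_el_mul {y : X} (hy : y ∈ I.Y) (a : MonoidAlgebra R X) :
    I.sg (el R y * a) = I.wt y * I.sg a := by
  induction a using MonoidAlgebra.induction_linear with
  | zero => simp
  | add a b ha hb => rw [mul_add, map_add, ha, hb, map_add, mul_add]
  | single x r =>
    rw [single_eq, mul_smul_comm, map_smul, map_smul, el_mul, sg_el, sg_el, I.wt_mul_left hy,
      mul_smul_comm]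

theorem sg_mul_el (a : MonoidAlgebra R X) {y : X} (hy : y ∈ I.Y) :
    I.sg (a * el R y) = I.sg a * I.wt y := by
  induction a using MonoidAlgebra.induction_linear with
  | zero => simp
  | add a b ha hb => rw [add_mul, map_add, ha, hb, map_add, add_mul]
  | single x r =>
    rw [single_eq, smul_mul_assoc, map_smul, map_smul, el_mul, sg_el, sg_el, I.wt_mul_right _ hy,
      smul_mul_assoc]

/-- the embedding of `RG` -/
def io : MonoidAlgebra R G →ₐ[R] MonoidAlgebra R X := MonoidAlgebra.mapDomainAlgHom R R I.j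

theorem io_single (g : G) (r : R) :
    I.io (MonoidAlgebra.single g r) = MonoidAlgebra.single (I.j g) r := by
  unfold io
  simp [MonoidAlgebra.mapDomainAlgHom]

theorem sg_io_mul (b : MonoidAlgebra R G) (a : MonoidAlgebra R X) :
    I.sg (I.io b * a) = b * I.sg a := by
  induction b using MonoidAlgebra.induction_linear with
  | zero => simp
  | add b c hb hc => rw [map_add, add_mul, map_add, hb, hc, add_mul]
  | single g r =>
    rw [io_single, single_eq, smul_mul_assoc, map_smul, I.sg_el_mul (I.j_mem g), wt_j,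
      single_eq g r, smul_mul_assoc]

theorem sg_mul_io (b : MonoidAlgebra R G) (a : MonoidAlgebra R X) :
    I.sg (a * I.io b) = I.sg a * b := by
  induction b using MonoidAlgebra.induction_linear with
  | zero => simp
  | add b c hb hc => rw [map_add, mul_add, map_add, hb, hc, mul_add]
  | single g r =>
    rw [io_single, single_eq, mul_smul_comm, map_smul, I.sg_mul_el _ (I.j_mem g), wt_j,
      single_eq g r, mul_smul_comm]

variable [Fintype V]

/-- the idempotent of the linear character; `u` is the inverse of `|V|` -/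
def ep (u : R) : MonoidAlgebra R X :=
  ∑ v : V, MonoidAlgebra.single (I.i v) (u * ((I.lam v⁻¹ : Rˣ) : R))

theorem ep_eq (u : R) : I.ep u = ∑ v : V, (u * ((I.lam v⁻¹ : Rˣ) : R)) • el R (I.i v) := by
  unfold ep
  exact Finset.sum_congr rfl fun v _ => single_eq _ _

theorem i_ep (u : R) (w : V) : el R (I.i w) * I.ep u = ((I.lam w : Rˣ) : R) • I.ep u := by
  rw [ep_eq, Finset.mul_sum, Finset.smul_sum]
  refine Fintype.sum_equiv (Equiv.mulLeft w) _ _ fun v => ?_
  rw [mul_smul_comm, el_mul, ← map_mul, smul_smul]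
  congr 1
  rw [Equiv.coe_mulLeft, mul_inv_rev, map_mul, Units.val_mul, map_inv I.lam w, mul_comm
    (((I.lam v⁻¹ : Rˣ) : R)), mul_left_comm u, ← mul_assoc ((I.lam w : Rˣ) : R),
    Units.mul_inv, one_mul]

theorem ep_comm (u : R) {y : X} (hy : y ∈ I.Y) : el R y * I.ep u = I.ep u * el R y := by
  rw [ep_eq, Finset.mul_sum, Finset.sum_mul]
  refine Fintype.sum_equiv (I.act y).toEquiv _ _ fun v => ?_
  rw [mul_smul_comm, smul_mul_assoc, el_mul, el_mul, I.conj_i]
  congr 2
  change ((I.lam v⁻¹ : Rˣ) : R) = ((I.lam (I.act y v)⁻¹ : Rˣ) : R)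
  rw [← map_inv, I.lam_act hy]

theorem ep_i (u : R) (w : V) : I.ep u * el R (I.i w) = ((I.lam w : Rˣ) : R) • I.ep u := by
  rw [← I.ep_comm u (I.i_mem w), i_ep]

theorem io_ep (u : R) (b : MonoidAlgebra R G) : I.io b * I.ep u = I.ep u * I.io b := by
  induction b using MonoidAlgebra.induction_linear with
  | zero => simp
  | add b c hb hc => rw [map_add, add_mul, mul_add, hb, hc]
  | single g r =>
    rw [io_single, single_eq, smul_mul_assoc, mul_smul_comm, I.ep_comm u (I.j_mem g)]

theorem ep_wt (u : R) {y : X} (hy : y ∈ I.Y) : I.ep u * I.io (I.wt y) = I.ep u * el R y := by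
  obtain ⟨v, g, rfl⟩ := hy
  rw [wt_form, io_single, ← el_mul, ← mul_assoc, ep_i, smul_mul_assoc, single_eq, mul_smul_comm]

variable {u : R} (hu : u * (Fintype.card V : R) = 1)

include hu in
theorem ep_idem : I.ep u * I.ep u = I.ep u := by
  have h : ∀ v ∈ (Finset.univ : Finset V),
      (u * ((I.lam v⁻¹ : Rˣ) : R)) • el R (I.i v) * I.ep u = u • I.ep u := by
    intro v _
    rw [smul_mul_assoc, i_ep, smul_smul, mul_assoc, ← Units.val_mul, ← map_mul,
      inv_mul_cancel, map_one, Units.val_one, mul_one]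
  calc I.ep u * I.ep u = ∑ v : V, (u * ((I.lam v⁻¹ : Rˣ) : R)) • el R (I.i v) * I.ep u := by
        rw [← Finset.sum_mul, ← I.ep_eq]
    _ = I.ep u := by
        rw [Finset.sum_congr rfl h, Finset.sum_const, Finset.card_univ,
          ← Nat.cast_smul_eq_nsmul R, smul_smul, mul_comm, hu, one_smul]

variable [IsDomain R]

/-- orthogonality -/
theorem orth {x : X} (hx : x ∉ I.Y) :
    ∑ v : V, ((I.lam v⁻¹ : Rˣ) : R) * ((I.lam (I.act x v) : Rˣ) : R) = 0 := by
  rw [I.mem_Y_iff, not_forall] at hx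
  obtain ⟨w, hw⟩ := hx
  let c : R := ((I.lam w⁻¹ : Rˣ) : R) * ((I.lam (I.act x w) : Rˣ) : R)
  have hc : c ≠ 1 := by
    intro h
    apply hw
    apply Units.ext
    have h2 : ((I.lam w : Rˣ) : R) * c = ((I.lam (I.act x w) : Rˣ) : R) := by
      change ((I.lam w : Rˣ) : R) * (((I.lam w⁻¹ : Rˣ) : R) * _) = _
      rw [← mul_assoc, ← Units.val_mul, ← map_mul, mul_inv_cancel, map_one, Units.val_one, one_mul]
    rw [← h2, h, mul_one]
  have h1 : c * ∑ v : V, ((I.lam v⁻¹ : Rˣ) : R) * ((I.lam (I.act x v) : Rˣ) : R) =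
      ∑ v : V, ((I.lam v⁻¹ : Rˣ) : R) * ((I.lam (I.act x v) : Rˣ) : R) := by
    rw [Finset.mul_sum]
    refine Fintype.sum_equiv (Equiv.mulLeft w) _ _ fun v => ?_
    change ((I.lam w⁻¹ : Rˣ) : R) * ((I.lam (I.act x w) : Rˣ) : R) *
      (((I.lam v⁻¹ : Rˣ) : R) * ((I.lam (I.act x v) : Rˣ) : R)) =
      ((I.lam (w * v)⁻¹ : Rˣ) : R) * ((I.lam (I.act x (w * v)) : Rˣ) : R)
    rw [map_mul (I.act x), map_mul I.lam, mul_inv_rev, map_mul I.lam v⁻¹]
    push_cast
    ring
  have h2 : (c - 1) * ∑ v : V, ((I.lam v⁻¹ : Rˣ) : R) * ((I.lam (I.act x v) : Rˣ) : R) = 0 := by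
    rw [sub_mul, h1, one_mul, sub_self]
  exact (mul_eq_zero.mp h2).resolve_left (sub_ne_zero.mpr hc)

include hu in
/-- the fundamental formula -/
theorem sg_ep (x : X) (a : MonoidAlgebra R X) :
    I.sg (el R x * I.ep u * a) = I.wt x * I.sg a := by
  have h1 : ∀ v : V, I.sg (el R (I.i v) * a) = ((I.lam v : Rˣ) : R) • I.sg a := by
    intro v
    rw [I.sg_el_mul (I.i_mem v), wt_i, single_eq, smul_mul_assoc]
    congr 1
    exact one_mul _
  by_cases hx : x ∈ I.Y
  · rw [mul_assoc, I.sg_el_mul hx, ep_eq, Finset.sum_mul, map_sum]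
    congr 1
    have h : ∀ v ∈ (Finset.univ : Finset V),
        I.sg ((u * ((I.lam v⁻¹ : Rˣ) : R)) • el R (I.i v) * a) = u • I.sg a := by
      intro v _
      rw [smul_mul_assoc, map_smul, h1, smul_smul, mul_assoc, ← Units.val_mul, ← map_mul,
        inv_mul_cancel, map_one, Units.val_one, mul_one]
    rw [Finset.sum_congr rfl h, Finset.sum_const, Finset.card_univ, ← Nat.cast_smul_eq_nsmul R,
      smul_smul, mul_comm, hu, one_smul]
  · rw [I.wt_not hx, zero_mul, ep_eq, Finset.mul_sum, Finset.sum_mul, map_sum]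
    have h : ∀ v ∈ (Finset.univ : Finset V),
        I.sg (el R x * (u * ((I.lam v⁻¹ : Rˣ) : R)) • el R (I.i v) * a) =
          (u * (((I.lam v⁻¹ : Rˣ) : R) * ((I.lam (I.act x v) : Rˣ) : R))) •
            I.sg (el R x * a) := by
      intro v _
      rw [mul_smul_comm, smul_mul_assoc, map_smul, el_mul, I.conj_i, ← el_mul, mul_assoc,
        I.sg_el_mul (I.i_mem _), wt_i, single_eq, smul_mul_assoc, smul_smul]
      congr 1
      · ring
      · exact one_mul _
    rw [Finset.sum_congr rfl h, ← Finset.sum_smul, ← Finset.mul_sum, I.orth hx, mul_zero,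
      zero_smul]

end Ind

end Pool.Agent.H373.BU
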