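import Pool.Agent.H373.BU.A1

/-!
# The block of `RX` over the orbit of the linear character is a matrix ring over `RG`
-/

set_option autoImplicit false
set_option linter.unusedSectionVars false
set_option linter.style.haveILetI false

open scoped BigOperators Classical

noncomputable section

namespace Pool.Agent.H373.BU

open MonoidAlgebra

namespace Ind

variable {R X V G : Type} [CommRing R] [Group X] [CommGroup V] [Group G]
variable (I : Ind R X V G)

/-- the cosets -/
abbrev Q : Type := X ⧸ I.Y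

theorem mem_iff (x : X) (p q : I.Q) :
    p.out⁻¹ * x * q.out ∈ I.Y ↔ p = QuotientGroup.mk (x * q.out) := by
  rw [mul_assoc, ← QuotientGroup.eq]
  rw [QuotientGroup.out_eq']

theorem mem_iff' (x : X) (p q : I.Q) :
    p.out⁻¹ * x * q.out ∈ I.Y ↔ q = QuotientGroup.mk (x⁻¹ * p.out) := by
  rw [← inv_mem_iff, mul_inv_rev, mul_inv_rev, inv_inv, ← mul_assoc, mem_iff]

variable [Fintype X]

/-- the matrices of the group elements -/
def M : X →* Matrix I.Q I.Q (MonoidAlgebra R G) where
  toFun x := Matrix.of fun p q => I.wt (p.out⁻¹ * x * q.out)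
  map_one' := by
    ext1 p q
    change I.wt (p.out⁻¹ * 1 * q.out) = (1 : Matrix I.Q I.Q (MonoidAlgebra R G)) p q
    by_cases h : p = q
    · subst h
      rw [Matrix.one_apply_eq, mul_one, inv_mul_cancel, wt_one]
    · rw [Matrix.one_apply_ne h, I.wt_not]
      rw [mem_iff, one_mul, QuotientGroup.out_eq']
      exact h
  map_mul' x y := by
    ext1 p r
    rw [Matrix.mul_apply]
    change I.wt (p.out⁻¹ * (x * y) * r.out) =
      ∑ q : I.Q, I.wt (p.out⁻¹ * x * q.out) * I.wt (q.out⁻¹ * y * r.out)
    rw [Finset.sum_eq_single (QuotientGroup.mk (x⁻¹ * p.out) : I.Q)]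
    · rw [← I.wt_mul_left ((I.mem_iff' _ _ _).mpr rfl)]
      congr 1
      group
    · intro q _ hq
      rw [I.wt_not, zero_mul]
      rwa [mem_iff']
    · intro h
      exact absurd (Finset.mem_univ _) h

theorem M_apply (x : X) (p q : I.Q) : I.M x p q = I.wt (p.out⁻¹ * x * q.out) := rfl

/-- the representation of `RX` by matrices over `RG` -/
def Pi : MonoidAlgebra R X →ₐ[R] Matrix I.Q I.Q (MonoidAlgebra R G) :=
  MonoidAlgebra.lift R (Matrix I.Q I.Q (MonoidAlgebra R G)) X I.M

theorem Pi_el (x : X) : I.Pi (el R x) = I.M x := by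
  unfold Pi el
  rw [MonoidAlgebra.lift_single, one_smul]

theorem Pi_apply (a : MonoidAlgebra R X) (p q : I.Q) :
    I.Pi a p q = I.sg (el R p.out⁻¹ * a * el R q.out) := by
  induction a using MonoidAlgebra.induction_linear with
  | zero => simp
  | add a b ha hb => rw [map_add, Matrix.add_apply, ha, hb, mul_add, add_mul, map_add]
  | single x r =>
    rw [single_eq, map_smul, Matrix.smul_apply, Pi_el, M_apply, mul_smul_comm, smul_mul_assoc,
      map_smul, el_mul, el_mul, sg_el]

variable [Fintype V] (u : R)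

/-- the inverse map -/
def Psi : Matrix I.Q I.Q (MonoidAlgebra R G) →ₗ[R] MonoidAlgebra R X where
  toFun m := ∑ p : I.Q, ∑ q : I.Q, el R p.out * I.ep u * I.io (m p q) * el R q.out⁻¹
  map_add' a b := by
    simp_rw [Matrix.add_apply, map_add, mul_add, add_mul, Finset.sum_add_distrib]
  map_smul' r a := by
    simp_rw [Matrix.smul_apply, map_smul, mul_smul_comm, smul_mul_assoc, ← Finset.smul_sum,
      RingHom.id_apply]

theorem Psi_apply (m : Matrix I.Q I.Q (MonoidAlgebra R G)) :
    I.Psi u m = ∑ p : I.Q, ∑ q : I.Q, el R p.out * I.ep u * I.io (m p q) * el R q.out⁻¹ := rfl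

/-- the central idempotent of the orbit of the linear character -/
def El : MonoidAlgebra R X := ∑ p : I.Q, el R p.out * I.ep u * el R p.out⁻¹

theorem Psi_M_left (x : X) : I.Psi u (I.M x) = I.El u * el R x := by
  rw [Psi_apply, El, Finset.sum_mul]
  refine Finset.sum_congr rfl fun p _ => ?_
  rw [Finset.sum_eq_single (QuotientGroup.mk (x⁻¹ * p.out) : I.Q)]
  · have hy := (I.mem_iff' x p (QuotientGroup.mk (x⁻¹ * p.out) : I.Q)).mpr rfl
    rw [M_apply, mul_assoc (el R p.out), I.ep_wt u hy]
    simp only [mul_assoc, el_mul]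
    congr 3
    group
  · intro q _ hq
    rw [M_apply, I.wt_not (by rwa [mem_iff']), map_zero, mul_zero, zero_mul]
  · intro h
    exact absurd (Finset.mem_univ _) h

theorem Psi_M_right (x : X) : I.Psi u (I.M x) = el R x * I.El u := by
  rw [Psi_apply, El, Finset.mul_sum, Finset.sum_comm]
  refine Finset.sum_congr rfl fun q _ => ?_
  rw [Finset.sum_eq_single (QuotientGroup.mk (x * q.out) : I.Q)]
  · have hy := (I.mem_iff x (QuotientGroup.mk (x * q.out) : I.Q) q).mpr rfl
    rw [M_apply, mul_assoc (el R _), I.ep_wt u hy, ← I.ep_comm u hy, ← mul_assoc, el_mul]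
    simp only [← mul_assoc, el_mul]
    congr 4
    group
  · intro p _ hp
    rw [M_apply, I.wt_not (by rwa [mem_iff]), map_zero, mul_zero, zero_mul]
  · intro h
    exact absurd (Finset.mem_univ _) h

theorem Psi_Pi_left (a : MonoidAlgebra R X) : I.Psi u (I.Pi a) = I.El u * a := by
  induction a using MonoidAlgebra.induction_linear with
  | zero => simp
  | add a b ha hb => rw [map_add, map_add, ha, hb, mul_add]
  | single x r => rw [single_eq, map_smul, map_smul, Pi_el, Psi_M_left, mul_smul_comm]

theorem Psi_Pi_right (a : MonoidAlgebra R X) : I.Psi u (I.Pi a) = a * I.El u := by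
  induction a using MonoidAlgebra.induction_linear with
  | zero => simp
  | add a b ha hb => rw [map_add, map_add, ha, hb, add_mul]
  | single x r => rw [single_eq, map_smul, map_smul, Pi_el, Psi_M_right, smul_mul_assoc]

theorem El_comm (a : MonoidAlgebra R X) : I.El u * a = a * I.El u := by
  rw [← Psi_Pi_left, Psi_Pi_right]

variable {u} (hu : u * (Fintype.card V : R) = 1) [IsDomain R]

include hu in
theorem sg_term (p q : I.Q) (x y : X) (b : MonoidAlgebra R G) :
    I.sg (el R x * (el R p.out * I.ep u * I.io b * el R q.out⁻¹) * el R y) =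
      I.wt (x * p.out) * b * I.wt (q.out⁻¹ * y) := by
  have h : el R x * (el R p.out * I.ep u * I.io b * el R q.out⁻¹) * el R y =
      el R (x * p.out) * I.ep u * (I.io b * el R (q.out⁻¹ * y)) := by
    rw [← el_mul, ← el_mul]
    simp only [mul_assoc]
  rw [h, I.sg_ep hu, sg_io_mul, sg_el, mul_assoc]

include hu in
theorem Pi_Psi (m : Matrix I.Q I.Q (MonoidAlgebra R G)) : I.Pi (I.Psi u m) = m := by
  ext1 c d
  rw [Pi_apply, Psi_apply, Finset.mul_sum, Finset.sum_mul, map_sum, Finset.sum_eq_single c]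
  · rw [Finset.mul_sum, Finset.sum_mul, map_sum, Finset.sum_eq_single d]
    · rw [I.sg_term hu, inv_mul_cancel, inv_mul_cancel, wt_one, one_mul, mul_one]
    · intro q _ hq
      rw [I.sg_term hu, I.wt_not (x := q.out⁻¹ * d.out), mul_zero]
      intro h
      apply hq
      have := (I.mem_iff 1 q d).mp (by rwa [mul_one])
      rwa [one_mul, QuotientGroup.out_eq'] at this
    · intro h
      exact absurd (Finset.mem_univ _) h
  · intro p _ hp
    rw [Finset.mul_sum, Finset.sum_mul, map_sum]
    refine Finset.sum_eq_zero fun q _ => ?_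
    rw [I.sg_term hu, I.wt_not (x := c.out⁻¹ * p.out), zero_mul, zero_mul]
    intro h
    apply hp
    have := (I.mem_iff 1 c p).mp (by rwa [mul_one])
    rw [one_mul, QuotientGroup.out_eq'] at this
    exact this.symm
  · intro h
    exact absurd (Finset.mem_univ _) h

include hu in
theorem El_Psi (m : Matrix I.Q I.Q (MonoidAlgebra R G)) : I.El u * I.Psi u m = I.Psi u m := by
  rw [← Psi_Pi_left, I.Pi_Psi hu]

include hu in
theorem Psi_mul (m n : Matrix I.Q I.Q (MonoidAlgebra R G)) :
    I.Psi u (m * n) = I.Psi u m * I.Psi u n := by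
  have h : m * n = I.Pi (I.Psi u m * I.Psi u n) := by
    rw [map_mul, I.Pi_Psi hu, I.Pi_Psi hu]
  rw [h, Psi_Pi_left, ← mul_assoc, I.El_Psi hu]

theorem Psi_one : I.Psi u 1 = I.El u := by
  rw [← map_one I.M, Psi_M_left]
  exact mul_one _

include hu in
theorem Pi_El : I.Pi (I.El u) = 1 := by
  rw [← Psi_one, I.Pi_Psi hu]

include hu in
theorem Psi_inj {m n : Matrix I.Q I.Q (MonoidAlgebra R G)} (h : I.Psi u m = I.Psi u n) :
    m = n := by
  rw [← I.Pi_Psi hu m, h, I.Pi_Psi hu]

/-- the central element of `RX` which corresponds to a central element of `RG` -/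
def cen (u : R) (z : MonoidAlgebra R G) : MonoidAlgebra R X :=
  I.Psi u (Matrix.scalar I.Q z)

theorem cen_eq (z : MonoidAlgebra R G) :
    I.cen u z = ∑ p : I.Q, el R p.out * I.ep u * I.io z * el R p.out⁻¹ := by
  rw [cen, Psi_apply]
  refine Finset.sum_congr rfl fun p _ => ?_
  rw [Finset.sum_eq_single p]
  · rw [Matrix.scalar_apply, Matrix.diagonal_apply_eq]
  · intro q _ hq
    rw [Matrix.scalar_apply, Matrix.diagonal_apply_ne _ (Ne.symm hq), map_zero, mul_zero, zero_mul]
  · intro h
    exact absurd (Finset.mem_univ _) h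

include hu in
theorem Pi_cen (z : MonoidAlgebra R G) : I.Pi (I.cen u z) = Matrix.scalar I.Q z :=
  I.Pi_Psi hu _

include hu in
theorem cen_mul (z w : MonoidAlgebra R G) : I.cen u (z * w) = I.cen u z * I.cen u w := by
  rw [cen, map_mul, I.Psi_mul hu]
  rfl

theorem cen_add (z w : MonoidAlgebra R G) : I.cen u (z + w) = I.cen u z + I.cen u w := by
  rw [cen, map_add, map_add]
  rfl

theorem cen_smul (r : R) (z : MonoidAlgebra R G) : I.cen u (r • z) = r • I.cen u z := by
  rw [cen_eq, cen_eq, Finset.smul_sum]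
  refine Finset.sum_congr rfl fun p _ => ?_
  rw [map_smul, mul_smul_comm, smul_mul_assoc]

theorem cen_zero : I.cen u 0 = 0 := by
  rw [cen, map_zero, map_zero]

include hu in
theorem cen_inj {z w : MonoidAlgebra R G} (h : I.cen u z = I.cen u w) : z = w := by
  have h1 := I.Psi_inj hu h
  haveI : Nonempty I.Q := ⟨QuotientGroup.mk 1⟩
  exact Matrix.scalar_inj.mp h1

include hu in
theorem El_cen (z : MonoidAlgebra R G) : I.El u * I.cen u z = I.cen u z := I.El_Psi hu _

include hu in
theorem cen_comm {z : MonoidAlgebra R G} (hz : ∀ a, z * a = a * z) (a : MonoidAlgebra R X) :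
    I.cen u z * a = a * I.cen u z := by
  have h1 : Matrix.scalar I.Q z * I.Pi a = I.Pi a * Matrix.scalar I.Q z := by
    ext1 p q
    rw [Matrix.scalar_apply, Matrix.diagonal_mul, Matrix.mul_diagonal, hz]
  calc I.cen u z * a = I.El u * (I.cen u z * a) := by rw [← mul_assoc, I.El_cen hu]
    _ = I.Psi u (I.Pi (I.cen u z * a)) := (I.Psi_Pi_left u _).symm
    _ = I.Psi u (I.Pi (a * I.cen u z)) := by
      rw [map_mul I.Pi, map_mul I.Pi, I.Pi_cen hu, h1]
    _ = a * I.cen u z * I.El u := I.Psi_Pi_right u _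
    _ = a * I.cen u z := by rw [mul_assoc, ← I.El_comm, I.El_cen hu]

include hu in
/-- central elements of the block are of this form -/
theorem exists_cen {c : MonoidAlgebra R X} (hc : ∀ a, c * a = a * c) (hcE : I.El u * c = c) :
    ∃ z : MonoidAlgebra R G, (∀ a, z * a = a * z) ∧ I.cen u z = c := by
  haveI : Nonempty I.Q := ⟨QuotientGroup.mk 1⟩
  have h1 : ∀ m, I.Pi c * m = m * I.Pi c := by
    intro m
    rw [← I.Pi_Psi hu m, ← map_mul, ← map_mul, hc]
  obtain ⟨z, hz⟩ : ∃ z, I.Pi c = Matrix.scalar I.Q z := by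
    have h2 : I.Pi c ∈ Set.range (Matrix.scalar I.Q : MonoidAlgebra R G →+* _) := by
      apply Matrix.mem_range_scalar_of_commute_single
      intro i j _
      exact (h1 _).symm
    obtain ⟨z, hz⟩ := h2
    exact ⟨z, hz.symm⟩
  refine ⟨z, fun a => ?_, ?_⟩
  · have h3 := h1 (Matrix.scalar I.Q a)
    rw [hz, ← map_mul, ← map_mul] at h3
    exact Matrix.scalar_inj.mp h3
  · rw [cen, ← hz, Psi_Pi_left, hcE]

end Ind

end Pool.Agent.H373.BU
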