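import Pool.Agent.H373.BU.A2

/-!
# Blocks and relative traces
-/

set_option autoImplicit false
set_option linter.unusedSectionVars false
set_option linter.style.haveILetI false

open scoped BigOperators Classical

noncomputable section

namespace Pool.Agent.H373.BU

open MonoidAlgebra

/-- `e` is a block idempotent of the group algebra `RG`: a primitive idempotent of the centre. -/
structure IsBlock {R G : Type} [CommRing R] [Group G] (e : MonoidAlgebra R G) : Prop where
  idem : e * e = e
  central : ∀ a, e * a = a * e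
  ne_zero : e ≠ 0
  primitive : ∀ f, f * f = f → (∀ a, f * a = a * f) → f * e = 0 ∨ f * e = e

/-- `e` is a relative trace from `D`: `e = ∑ x a x⁻¹`, the sum over representatives `x` of the cosets
`x D`, for an element `a` which commutes with the elements of `D`. -/
def IsTr {R G : Type} [CommRing R] [Group G] (D : Subgroup G) (e : MonoidAlgebra R G) : Prop :=
  ∃ a : MonoidAlgebra R G, (∀ q ∈ D, MonoidAlgebra.of R G q * a = a * MonoidAlgebra.of R G q) ∧
    e = ∑ᶠ x : G ⧸ D, MonoidAlgebra.of R G (Quotient.out x) * a *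
      MonoidAlgebra.of R G (Quotient.out x)⁻¹

/-- `D` is a subgroup of minimal order such that `e` is a relative trace from `D`. -/
def IsMinTr {R G : Type} [CommRing R] [Group G] (D : Subgroup G) (e : MonoidAlgebra R G) : Prop :=
  IsTr D e ∧ ∀ Q : Subgroup G, IsTr Q e → Nat.card D ≤ Nat.card Q

section cj

variable {R G : Type} [CommRing R] [Group G]

/-- conjugation -/
def cj (x : G) (a : MonoidAlgebra R G) : MonoidAlgebra R G := el R x * a * el R x⁻¹

theorem cj_mul (x y : G) (a : MonoidAlgebra R G) : cj (x * y) a = cj x (cj y a) := by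
  unfold cj
  rw [mul_inv_rev, ← el_mul, ← el_mul]
  simp only [mul_assoc]

theorem cj_one (a : MonoidAlgebra R G) : cj 1 a = a := by
  unfold cj
  rw [inv_one, el_one, one_mul, mul_one]

theorem cj_mul' (x : G) (a b : MonoidAlgebra R G) : cj x (a * b) = cj x a * cj x b := by
  unfold cj
  calc el R x * (a * b) * el R x⁻¹ = el R x * a * 1 * b * el R x⁻¹ := by
        rw [mul_one]; simp only [mul_assoc]
    _ = _ := by rw [← el_inv_mul x]; simp only [mul_assoc]

theorem cj_sum {ι : Type} (s : Finset ι) (x : G) (f : ι → MonoidAlgebra R G) :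
    cj x (∑ i ∈ s, f i) = ∑ i ∈ s, cj x (f i) := by
  unfold cj
  rw [Finset.mul_sum, Finset.sum_mul]

theorem cj_smul (x : G) (r : R) (a : MonoidAlgebra R G) : cj x (r • a) = r • cj x a := by
  unfold cj
  rw [mul_smul_comm, smul_mul_assoc]

theorem cj_eq_iff (x : G) (a : MonoidAlgebra R G) : cj x a = a ↔ el R x * a = a * el R x := by
  unfold cj
  constructor
  · intro h
    calc el R x * a = el R x * a * (el R x⁻¹ * el R x) := by rw [el_inv_mul, mul_one]
      _ = el R x * a * el R x⁻¹ * el R x := by simp only [mul_assoc]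
      _ = _ := by rw [h]
  · intro h
    rw [h, mul_assoc, el_mul_inv, mul_one]

theorem cj_central (x : G) {a : MonoidAlgebra R G} (ha : ∀ b, a * b = b * a) : cj x a = a :=
  (cj_eq_iff x a).mpr (ha _).symm

theorem central_iff (a : MonoidAlgebra R G) : (∀ b, a * b = b * a) ↔ ∀ x, cj x a = a := by
  constructor
  · exact fun h x => cj_central x h
  · intro h b
    induction b using MonoidAlgebra.induction_linear with
    | zero => simp
    | add b c hb hc => rw [mul_add, add_mul, hb, hc]
    | single x r =>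
      rw [single_eq, mul_smul_comm, smul_mul_assoc, (cj_eq_iff x a).mp (h x)]

variable [Finite G]

theorem isTr_iff (D : Subgroup G) (e : MonoidAlgebra R G) : IsTr D e ↔
    ∃ a, (∀ q ∈ D, cj q a = a) ∧ ∀ [Fintype (G ⧸ D)], e = ∑ x : G ⧸ D, cj x.out a := by
  unfold IsTr
  constructor
  · rintro ⟨a, h1, h2⟩
    refine ⟨a, fun q hq => (cj_eq_iff q a).mpr (h1 q hq), ?_⟩
    intro _
    rw [h2, finsum_eq_sum_of_fintype]
    rfl
  · rintro ⟨a, h1, h2⟩
    haveI := Fintype.ofFinite (G ⧸ D)
    refine ⟨a, fun q hq => (cj_eq_iff q a).mp (h1 q hq), ?_⟩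
    rw [h2, finsum_eq_sum_of_fintype]
    rfl

end cj

namespace Ind

variable {R X V G : Type} [CommRing R] [Group X] [CommGroup V] [Group G] [Fintype X] [Fintype V]
  [IsDomain R] (I : Ind R X V G) {u : R} (hu : u * (Fintype.card V : R) = 1)

include hu in
theorem cen_isBlock {e : MonoidAlgebra R G} (he : IsBlock e) : IsBlock (I.cen u e) where
  idem := by rw [← I.cen_mul hu, he.idem]
  central := I.cen_comm hu he.central
  ne_zero h := he.ne_zero (I.cen_inj hu (h.trans I.cen_zero.symm))
  primitive f hf hfc := by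
    have hcc : ∀ a, f * I.cen u e * a = a * (f * I.cen u e) := by
      intro a
      rw [mul_assoc, I.cen_comm hu he.central, ← mul_assoc, hfc, mul_assoc]
    have hE : I.El u * (f * I.cen u e) = f * I.cen u e := by
      rw [← mul_assoc, ← hfc, mul_assoc, I.El_cen hu]
    obtain ⟨z, hz, hz'⟩ := I.exists_cen hu hcc hE
    have h1 : z * z = z := by
      apply I.cen_inj hu
      rw [I.cen_mul hu, hz']
      calc f * I.cen u e * (f * I.cen u e) = f * (I.cen u e * f) * I.cen u e := by
            simp only [mul_assoc]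
        _ = f * f * (I.cen u e * I.cen u e) := by
            rw [← hfc]
            simp only [mul_assoc]
        _ = _ := by rw [hf, ← I.cen_mul hu, he.idem]
    have h2 : z * e = z := by
      apply I.cen_inj hu
      rw [I.cen_mul hu, hz', mul_assoc, ← I.cen_mul hu, he.idem]
    rcases he.primitive z h1 hz with h3 | h3
    · left
      rw [← hz', ← h2, h3, cen_zero]
    · right
      rw [← hz', ← h2, h3]

/-- the representation of the block -/
def rep {B : Type} [Ring B] [Algebra R B] (π : MonoidAlgebra R G →ₐ[R] B) :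
    MonoidAlgebra R X →ₐ[R] Matrix I.Q I.Q B := π.mapMatrix.comp I.Pi

include hu in
theorem rep_surj {B : Type} [Ring B] [Algebra R B] (π : MonoidAlgebra R G →ₐ[R] B)
    (h : Function.Surjective π) : Function.Surjective (I.rep π) := by
  intro m
  choose f hf using h
  refine ⟨I.Psi u (Matrix.of fun p q => f (m p q)), ?_⟩
  change π.mapMatrix (I.Pi _) = m
  rw [I.Pi_Psi hu]
  ext1 p q
  exact hf _

include hu in
theorem rep_ker {B : Type} [Ring B] [Algebra R B] (π : MonoidAlgebra R G →ₐ[R] B)
    (e : MonoidAlgebra R G) (he : ∀ a, π a = 0 ↔ a * e = 0) (a : MonoidAlgebra R X) :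
    I.rep π a = 0 ↔ a * I.cen u e = 0 := by
  have h1 : I.rep π a = 0 ↔ I.Pi a * Matrix.scalar I.Q e = 0 := by
    rw [← Matrix.ext_iff, ← Matrix.ext_iff]
    refine forall_congr' fun p => forall_congr' fun q => ?_
    rw [Matrix.scalar_apply, Matrix.mul_diagonal]
    exact he _
  rw [h1]
  constructor
  · intro h
    calc a * I.cen u e = a * (I.cen u e * I.El u) := by rw [← I.El_comm, I.El_cen hu]
      _ = a * I.cen u e * I.El u := by rw [mul_assoc]
      _ = I.Psi u (I.Pi (a * I.cen u e)) := (I.Psi_Pi_right u _).symm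
      _ = 0 := by rw [map_mul, I.Pi_cen hu, h, map_zero]
  · intro h
    rw [← I.Pi_cen hu, ← map_mul, h, map_zero]

include hu in
/-- conjugates of the elements of the subgroup -/
theorem cj_base (v : V) (g : G) (a : MonoidAlgebra R G) :
    cj (I.i v * I.j g) (I.ep u * I.io a) = I.ep u * I.io (cj g a) := by
  have h1 : ∀ b : MonoidAlgebra R G, cj (I.i v) (I.ep u * I.io b) = I.ep u * I.io b := by
    intro b
    unfold cj
    rw [← mul_assoc, I.i_ep, ← I.io_ep, ← map_inv I.i, smul_mul_assoc, smul_mul_assoc,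
      ← I.io_ep, mul_assoc, I.ep_i, mul_smul_comm, smul_smul, ← Units.val_mul, ← map_mul,
      mul_inv_cancel, map_one, Units.val_one, one_smul]
  have h2 : cj (I.j g) (I.ep u * I.io a) = I.ep u * I.io (cj g a) := by
    have h3 : ∀ g : G, el R (I.j g) = I.io (el R g) := fun g => (I.io_single g 1).symm
    unfold cj
    rw [← mul_assoc, I.ep_comm u (I.j_mem g), ← map_inv I.j, h3, h3, map_mul, map_mul]
    simp only [mul_assoc]
  rw [cj_mul, h2, h1]

/-- the cosets of a subgroup of `G` in `X` -/
def cosetEquiv (D : Subgroup G) : I.Q × V × (G ⧸ D) ≃ X ⧸ D.map I.j :=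
  Equiv.ofBijective (fun t => QuotientGroup.mk (t.1.out * (I.i t.2.1 * I.j t.2.2.out))) (by
    constructor
    · rintro ⟨p, v, c⟩ ⟨p', v', c'⟩ h
      have h1 := QuotientGroup.eq.mp h
      obtain ⟨d, hd, hd'⟩ := h1
      change I.j d = (p.out * (I.i v * I.j c.out))⁻¹ * (p'.out * (I.i v' * I.j c'.out)) at hd'
      have h2 : p'.out = p.out * (I.i v * I.j c.out) * I.j d * (I.i v' * I.j c'.out)⁻¹ := by
        rw [hd']
        group
      have h3 : p = p' := by
        rw [← QuotientGroup.out_eq' p, ← QuotientGroup.out_eq' p', QuotientGroup.eq, h2]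
        have h4 : p.out⁻¹ * (p.out * (I.i v * I.j c.out) * I.j d * (I.i v' * I.j c'.out)⁻¹) =
            (I.i v * I.j c.out) * I.j d * (I.i v' * I.j c'.out)⁻¹ := by group
        rw [h4]
        exact I.Y.mul_mem (I.Y.mul_mem (I.form_mem _ _) (I.j_mem _))
          (I.Y.inv_mem (I.form_mem _ _))
      subst h3
      have h5 : I.i v' * I.j c'.out = I.i v * I.j (c.out * d) := by
        have h6 : I.i v' * I.j c'.out = (I.i v * I.j c.out) * I.j d := by
          rw [hd']
          group
        rw [h6, map_mul, mul_assoc]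
      obtain ⟨h7, h8⟩ := I.uniq h5
      subst h7
      have h9 : c = c' := by
        rw [← QuotientGroup.out_eq' c, ← QuotientGroup.out_eq' c', QuotientGroup.eq, h8,
          inv_mul_cancel_left]
        exact hd
      subst h9
      rfl
    · intro x
      induction x using QuotientGroup.induction_on with
      | H x =>
        have h1 := (I.mem_iff' (x⁻¹) (QuotientGroup.mk x : I.Q) (QuotientGroup.mk 1 : I.Q))
        have h2 : (QuotientGroup.mk x : I.Q).out⁻¹ * x ∈ I.Y := by
          rw [← QuotientGroup.eq, QuotientGroup.out_eq']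
        obtain ⟨v, g, hvg⟩ := h2
        refine ⟨(QuotientGroup.mk x, v, QuotientGroup.mk g), ?_⟩
        rw [QuotientGroup.eq]
        refine ⟨(QuotientGroup.mk g : G ⧸ D).out⁻¹ * g, ?_, ?_⟩
        · have : (QuotientGroup.mk g : G ⧸ D).out⁻¹ * g ∈ D := by
            rw [← QuotientGroup.eq, QuotientGroup.out_eq']
          exact this
        · have h3 : x = (QuotientGroup.mk x : I.Q).out * (I.i v * I.j g) := by
            rw [hvg]
            group
          conv_rhs => rw [h3]
          rw [map_mul, map_inv]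
          have h4 : (QuotientGroup.mk ((QuotientGroup.mk x : I.Q).out * (I.i v * I.j g)) : I.Q) =
              QuotientGroup.mk x := by rw [← h3]
          rw [h4]
          group)

theorem cosetEquiv_apply (D : Subgroup G) (t : I.Q × V × (G ⧸ D)) :
    I.cosetEquiv D t = QuotientGroup.mk (t.1.out * (I.i t.2.1 * I.j t.2.2.out)) := rfl

end Ind

theorem cj_out {R G : Type} [CommRing R] [Group G] {D : Subgroup G} {a : MonoidAlgebra R G}
    (ha : ∀ q ∈ D, cj q a = a) (x : G) : cj (QuotientGroup.mk x : G ⧸ D).out a = cj x a := by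
  have h1 : x⁻¹ * (QuotientGroup.mk x : G ⧸ D).out ∈ D := by
    rw [← QuotientGroup.eq, QuotientGroup.out_eq']
  have h2 : (QuotientGroup.mk x : G ⧸ D).out = x * (x⁻¹ * (QuotientGroup.mk x : G ⧸ D).out) := by
    group
  rw [h2, cj_mul, ha _ h1]

namespace Ind

variable {R X V G : Type} [CommRing R] [Group X] [CommGroup V] [Group G] [Fintype X] [Fintype V]
  [Finite G] [IsDomain R] (I : Ind R X V G) {u : R} (hu : u * (Fintype.card V : R) = 1)

include hu in
theorem cen_isTr {e : MonoidAlgebra R G} {D : Subgroup G} (h : IsTr D e) :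
    IsTr (D.map I.j) (I.cen u e) := by
  rw [isTr_iff] at h ⊢
  obtain ⟨a, ha, he⟩ := h
  have hb : ∀ q ∈ D.map I.j, cj q (u • (I.ep u * I.io a)) = u • (I.ep u * I.io a) := by
    rintro _ ⟨d, hd, rfl⟩
    rw [cj_smul]
    have := I.cj_base hu 1 d a
    rw [map_one, one_mul] at this
    change u • cj (I.j d) _ = _
    rw [this, ha d hd]
  refine ⟨u • (I.ep u * I.io a), hb, ?_⟩
  intro hF
  haveI := Fintype.ofFinite (G ⧸ D)
  have h1 : ∑ x : X ⧸ D.map I.j, cj x.out (u • (I.ep u * I.io a)) =
      ∑ t : I.Q × V × (G ⧸ D), cj t.1.out (u • (I.ep u * I.io (cj t.2.2.out a))) := by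
    refine (Fintype.sum_equiv (I.cosetEquiv D) _ _ fun t => ?_).symm
    rw [cosetEquiv_apply, cj_out hb, cj_mul, cj_smul, cj_smul, cj_smul, I.cj_base hu]
  rw [h1, Fintype.sum_prod_type, I.cen_eq]
  refine Finset.sum_congr rfl fun p _ => ?_
  rw [Fintype.sum_prod_type]
  have h2 : ∀ v ∈ (Finset.univ : Finset V),
      ∑ y : G ⧸ D, cj p.out (u • (I.ep u * I.io (cj y.out a))) =
        u • cj p.out (I.ep u * I.io e) := by
    intro v _
    rw [← cj_sum, ← Finset.smul_sum, ← Finset.mul_sum, ← map_sum, ← he, cj_smul]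
  rw [Finset.sum_congr rfl h2, Finset.sum_const, Finset.card_univ, ← Nat.cast_smul_eq_nsmul R,
    smul_smul, mul_comm, hu, one_smul]
  unfold cj
  rw [← mul_assoc]

end Ind

end Pool.Agent.H373.BU
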