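import Pool.Agent.H373.BU.A3

/-!
# The order of the defect groups
-/

set_option autoImplicit false
set_option linter.unusedSectionVars false
set_option linter.style.haveILetI false

open scoped BigOperators Classical

noncomputable section

namespace Pool.Agent.H373.BU

open MonoidAlgebra

/-- If a block idempotent is a sum of central elements, it is a multiple of one of them. -/
theorem rosenberg {k G : Type} [Field k] [Group G] [Finite G] {e : MonoidAlgebra k G}
    (he : IsBlock e) {ι : Type} [Fintype ι] (z : ι → MonoidAlgebra k G)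
    (hz : ∀ i a, z i * a = a * z i) (hs : e = ∑ i, z i) :
    ∃ i, ∃ w : MonoidAlgebra k G, (∀ a, w * a = a * w) ∧ e = z i * w := by
  let A := Subalgebra.center k (MonoidAlgebra k G)
  haveI : FiniteDimensional k (MonoidAlgebra k G) := by
    haveI := Fintype.ofFinite G
    exact inferInstance
  haveI : FiniteDimensional k A := inferInstance
  haveI : IsArtinian k A := inferInstance
  haveI : IsArtinianRing A := isArtinian_of_tower k inferInstance
  let e' : A := ⟨e, Subalgebra.mem_center_iff.mpr fun a => (he.central a).symm⟩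
  let z' : ι → A := fun i => ⟨z i, Subalgebra.mem_center_iff.mpr fun a => (hz i a).symm⟩
  have hc : ∀ (w : A) a, (w : MonoidAlgebra k G) * a = a * w := fun w a =>
    (Subalgebra.mem_center_iff.mp w.2 a).symm
  have he' : e' * e' = e' := Subtype.ext he.idem
  by_contra hcon
  push Not at hcon
  have hn : ∀ i, IsNilpotent (z' i * e') := by
    intro i
    obtain ⟨n, y, hy⟩ := IsArtinian.exists_pow_succ_smul_dvd (z' i) (1 : A)
    simp only [smul_eq_mul, mul_one] at hy
    -- `r ^ (n+1) y = r ^ n`
    have h1 : ∀ m, z' i ^ (n + m) * y ^ m = z' i ^ n := by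
      intro m
      induction m with
      | zero => simp
      | succ m ih =>
        calc z' i ^ (n + (m + 1)) * y ^ (m + 1) = z' i ^ m * (z' i ^ n.succ * y) * y ^ m := by
              rw [pow_succ y, Nat.succ_eq_add_one, ← add_assoc, pow_succ, pow_succ, pow_add]
              ring
          _ = z' i ^ (n + m) * y ^ m := by
              rw [hy, pow_add]
              ring
          _ = _ := ih
    let N := n + 1
    have h2 : z' i ^ (N + N) * y ^ N = z' i ^ N := by
      have := h1 N
      calc z' i ^ (N + N) * y ^ N = z' i * (z' i ^ (n + N) * y ^ N) := by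
            change z' i ^ (n + 1 + N) * y ^ N = _
            rw [show n + 1 + N = n + N + 1 from by omega, pow_succ]
            ring
        _ = _ := by
            rw [this]
            change z' i * z' i ^ n = z' i ^ (n + 1)
            rw [pow_succ]
            ring
    let w : A := z' i ^ N * y ^ N
    have hw : w * w = w := by
      change z' i ^ N * y ^ N * (z' i ^ N * y ^ N) = z' i ^ N * y ^ N
      calc z' i ^ N * y ^ N * (z' i ^ N * y ^ N) = z' i ^ (N + N) * y ^ N * y ^ N := by
            rw [pow_add]; ring
        _ = _ := by rw [h2]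
    rcases he.primitive w (congrArg Subtype.val hw) (hc w) with h3 | h3
    · refine ⟨N, ?_⟩
      have h4 : w * e' = 0 := Subtype.ext h3
      have h5 : e' ^ N = e' := by
        have : ∀ m, e' ^ (m + 1) = e' := by
          intro m
          induction m with
          | zero => simp
          | succ m ih => rw [pow_succ, ih, he']
        exact this n
      rw [mul_pow, h5, ← h2, pow_add]
      calc z' i ^ N * z' i ^ N * y ^ N * e' = z' i ^ N * (w * e') := by
            change _ = z' i ^ N * (z' i ^ N * y ^ N * e')
            ring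
        _ = 0 := by rw [h4, mul_zero]
    · exfalso
      refine hcon i ((z' i ^ n * y ^ N * e' : A) : MonoidAlgebra k G) (hc _) ?_
      have h4 : w * e' = e' := Subtype.ext h3
      have h5 : e' = z' i * (z' i ^ n * y ^ N * e') := by
        conv_lhs => rw [← h4]
        change z' i ^ (n + 1) * y ^ N * e' = _
        rw [pow_succ]
        ring
      exact congrArg Subtype.val h5
  have h6 : e' = ∑ i, z' i * e' := by
    rw [← Finset.sum_mul]
    have : e' = ∑ i, z' i := by
      apply Subtype.ext
      rw [AddSubmonoidClass.coe_finsetSum]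
      exact hs
    rw [← this, he']
  have h7 : IsNilpotent e' := by
    rw [h6]
    exact isNilpotent_sum fun i _ => hn i
  obtain ⟨m, hm⟩ := h7
  apply he.ne_zero
  have h8 : e' = 0 := by
    have : ∀ m, e' ^ (m + 1) = e' := by
      intro m
      induction m with
      | zero => simp
      | succ m ih => rw [pow_succ, ih, he']
    rw [← this m, pow_succ, hm, zero_mul]
  exact congrArg Subtype.val h8

namespace Ind

variable {R X V G : Type} [CommRing R] [Group X] [CommGroup V] [Group G] [Fintype X] [Fintype V]
  [IsDomain R] (I : Ind R X V G) {u : R} (hu : u * (Fintype.card V : R) = 1)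

include hu in
theorem sg_cen {e : MonoidAlgebra R G} (he : ∀ a, e * a = a * e) : I.sg (I.cen u e) = e := by
  rw [I.cen_eq, map_sum, Finset.sum_eq_single (QuotientGroup.mk 1 : I.Q)]
  · have h1 := I.sg_term hu (QuotientGroup.mk 1 : I.Q) (QuotientGroup.mk 1 : I.Q) 1 1 e
    rw [el_one, one_mul, mul_one, one_mul, mul_one] at h1
    have h2 : (QuotientGroup.mk 1 : I.Q).out ∈ I.Y := by
      have : (1 : X)⁻¹ * (QuotientGroup.mk 1 : I.Q).out ∈ I.Y := by
        rw [← QuotientGroup.eq, QuotientGroup.out_eq']
      rwa [inv_one, one_mul] at this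
    rw [h1, ← he, mul_assoc, ← I.wt_mul_left h2, mul_inv_cancel, wt_one, mul_one]
  · intro p _ hp
    have h1 := I.sg_term hu p p 1 1 e
    rw [el_one, one_mul, mul_one, one_mul, mul_one] at h1
    rw [h1, I.wt_not (x := p.out), zero_mul, zero_mul]
    intro h
    apply hp
    rw [← QuotientGroup.out_eq' p, QuotientGroup.eq, mul_one]
    exact I.Y.inv_mem h
  · intro h
    exact absurd (Finset.mem_univ _) h

theorem sg_cj (g : G) (a : MonoidAlgebra R X) : I.sg (cj (I.j g) a) = cj g (I.sg a) := by
  unfold cj
  rw [← map_inv, I.sg_mul_el _ (I.j_mem _), I.sg_el_mul (I.j_mem _), wt_j, wt_j]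

end Ind

section

variable {k X V G : Type} [Field k] [Group X] [CommGroup V] [Group G] [Fintype X] [Fintype V]
  [Finite G] (I : Ind k X V G) {u : k} (hu : u * (Fintype.card V : k) = 1)

include hu in
/-- if the block of `X` is a relative trace from `Q`, the block of `G` is a relative trace from a
subgroup which is isomorphic to a subgroup of a conjugate of `Q` -/
theorem Ind.isTr_of_cen {e : MonoidAlgebra k G} (he : IsBlock e) {Q : Subgroup X}
    (h : IsTr Q (I.cen u e)) :
    ∃ (P : Subgroup G) (x : X), (∀ g ∈ P, x⁻¹ * I.j g * x ∈ Q) ∧ IsTr P e := by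
  rw [isTr_iff] at h
  obtain ⟨a, ha, hae⟩ := h
  haveI := Fintype.ofFinite (X ⧸ Q)
  letI : MulAction G (X ⧸ Q) := MulAction.compHom (X ⧸ Q) I.j
  have hsm : ∀ (g : G) (c : X ⧸ Q), g • c = I.j g • c := fun _ _ => rfl
  let F : X ⧸ Q → MonoidAlgebra k G := fun c => I.sg (cj c.out a)
  have hF : ∀ (g : G) (c : X ⧸ Q), F (g • c) = cj g (F c) := by
    intro g c
    have h1 : g • c = QuotientGroup.mk (I.j g * c.out) := by
      rw [hsm]
      conv_lhs => rw [← QuotientGroup.out_eq' c]
      rfl
    change I.sg (cj (g • c).out a) = cj g (I.sg (cj c.out a))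
    rw [h1, cj_out ha, cj_mul, I.sg_cj]
  have hsum : e = ∑ c, F c := by
    rw [← I.sg_cen hu he.central, hae, map_sum]
  haveI : Finite (MulAction.orbitRel.Quotient G (X ⧸ Q)) := Quotient.finite _
  haveI := Fintype.ofFinite (MulAction.orbitRel.Quotient G (X ⧸ Q))
  let O := MulAction.orbitRel.Quotient G (X ⧸ Q)
  letI hFt : ∀ c : X ⧸ Q, Fintype (G ⧸ MulAction.stabilizer G c) := fun c => Fintype.ofFinite _
  let z : O → MonoidAlgebra k G := fun w =>
    ∑ t : G ⧸ MulAction.stabilizer G w.out, cj t.out (F w.out)
  have hinv : ∀ c : X ⧸ Q, ∀ q ∈ MulAction.stabilizer G c, cj q (F c) = F c := by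
    intro c q hq
    rw [← hF, MulAction.mem_stabilizer_iff.mp hq]
  have hz : ∀ w a, z w * a = a * z w := by
    intro w
    rw [central_iff]
    intro x
    change cj x (∑ t : G ⧸ MulAction.stabilizer G w.out, cj t.out (F w.out)) =
      ∑ t : G ⧸ MulAction.stabilizer G w.out, cj t.out (F w.out)
    rw [cj_sum]
    refine Fintype.sum_equiv (MulAction.toPerm x) _ _ fun t => ?_
    have h1 : (MulAction.toPerm x t : G ⧸ MulAction.stabilizer G w.out) =
        QuotientGroup.mk (x * t.out) := by
      change x • t = _
      conv_lhs => rw [← QuotientGroup.out_eq' t]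
      rfl
    rw [h1, cj_out (hinv _), cj_mul]
  have hs : e = ∑ w, z w := by
    rw [hsum, ← (MulAction.selfEquivSigmaOrbitsQuotientStabilizer G (X ⧸ Q)).symm.sum_comp F,
      Fintype.sum_sigma]
    refine Finset.sum_congr rfl fun w _ => ?_
    refine Finset.sum_congr rfl fun t _ => ?_
    rw [← hF]
    congr 1
    conv_lhs => rw [← QuotientGroup.out_eq' t]
    rfl
  obtain ⟨w, y, hy, hey⟩ := rosenberg he z hz hs
  refine ⟨MulAction.stabilizer G w.out, w.out.out, ?_, ?_⟩
  · intro g hg
    have h1 := MulAction.mem_stabilizer_iff.mp hg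
    rw [hsm] at h1
    have h2 : (QuotientGroup.mk (I.j g * w.out.out) : X ⧸ Q) = QuotientGroup.mk w.out.out := by
      rw [QuotientGroup.out_eq']
      conv_rhs => rw [← h1]
      conv_rhs => rw [← QuotientGroup.out_eq' w.out]
      rfl
    have h3 := QuotientGroup.eq.mp h2.symm
    rwa [← mul_assoc] at h3
  · rw [isTr_iff]
    refine ⟨F w.out * y, fun q hq => ?_, ?_⟩
    · rw [cj_mul', hinv _ q hq, cj_central q hy]
    · intro hfin
      obtain rfl : hfin = hFt w.out := Subsingleton.elim _ _
      rw [hey]
      change (∑ t : G ⧸ MulAction.stabilizer G w.out, cj t.out (F w.out)) * y = _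
      rw [Finset.sum_mul]
      refine Fintype.sum_congr _ _ fun t => ?_
      rw [cj_mul', cj_central _ hy]

include hu in
/-- the defect groups -/
theorem Ind.cen_isMinTr {e : MonoidAlgebra k G} (he : IsBlock e) {D : Subgroup G}
    (h : IsMinTr D e) : IsMinTr (D.map I.j) (I.cen u e) := by
  have hj : Function.Injective I.j := by
    rw [injective_iff_map_eq_one]
    intro g hg
    exact (I.inj 1 g (by rw [map_one, one_mul, hg])).2
  refine ⟨I.cen_isTr hu h.1, fun Q hQ => ?_⟩
  obtain ⟨P, x, hP, hP'⟩ := I.isTr_of_cen hu he hQ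
  have h1 : Nat.card (D.map I.j) = Nat.card D :=
    (Nat.card_congr (D.equivMapOfInjective I.j hj).toEquiv).symm
  rw [h1]
  refine (h.2 P hP').trans ?_
  haveI : Finite Q := inferInstance
  refine Nat.card_le_card_of_injective (fun g : P => (⟨x⁻¹ * I.j g * x, hP g g.2⟩ : Q)) ?_
  intro g g' hgg
  have h2 := congrArg Subtype.val hgg
  change x⁻¹ * I.j g * x = x⁻¹ * I.j g' * x at h2
  have h3 : I.j (g : G) = I.j (g' : G) := mul_left_cancel (mul_right_cancel h2)
  exact Subtype.ext (hj h3)

end

end Pool.Agent.H373.BU
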