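import Pool.Agent.H373.BU.A4

/-!
# Fixed points, coefficients
-/

set_option autoImplicit false
set_option linter.unusedSectionVars false
set_option linter.style.haveILetI false

open scoped BigOperators Classical

noncomputable section

namespace Pool.Agent.H373.BU

open MonoidAlgebra

/-- In characteristic `p`, a sum of an invariant function over a set with an action of a `p`-group
is the sum over the fixed points. -/
theorem sum_fixed {p : ℕ} [hp : Fact p.Prime] {k P α : Type} [Field k] [CharP k p] [Group P]
    [Finite P] (hP : IsPGroup p P) [Fintype α] [MulAction P α] (F : α → k)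
    (hF : ∀ (d : P) a, F (d • a) = F a) :
    ∑ a, F a = ∑ a ∈ Finset.univ.filter (fun a => ∀ d : P, d • a = a), F a := by
  rw [← Finset.sum_filter_add_sum_filter_not Finset.univ (fun a : α => ∀ d : P, d • a = a)]
  rw [add_eq_left]
  rw [Finset.sum_comp (fun t : k => t) F]
  refine Finset.sum_eq_zero fun t _ => ?_
  suffices h : (p : ℕ) ∣ (Finset.filter (fun a => F a = t)
      (Finset.univ.filter fun a : α => ¬ ∀ d : P, d • a = a)).card by
    obtain ⟨m, hm⟩ := h
    rw [hm, ← Nat.cast_smul_eq_nsmul k, Nat.cast_mul, CharP.cast_eq_zero, zero_mul, zero_smul]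
  let S : SubMulAction P α :=
    { carrier := {a | F a = t ∧ ¬ ∀ d : P, d • a = a}
      smul_mem' := by
        rintro d a ⟨h1, h2⟩
        refine ⟨(hF d a).trans h1, fun h3 => h2 fun d' => ?_⟩
        have h4 : a = d • a := by
          have := h3 d⁻¹
          rwa [inv_smul_smul] at this
        rw [h4]
        exact h3 d' }
  have h1 : Nat.card S ≡ Nat.card (MulAction.fixedPoints P S) [MOD p] :=
    hP.card_modEq_card_fixedPoints S
  have h2 : Nat.card (MulAction.fixedPoints P S) = 0 := by
    haveI : IsEmpty (MulAction.fixedPoints P S) := by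
      refine ⟨fun a => ?_⟩
      obtain ⟨⟨a, ha1, ha2⟩, ha⟩ := a
      exact ha2 fun d => congrArg Subtype.val (ha d)
    exact Nat.card_of_isEmpty
  rw [h2] at h1
  have h3 : Nat.card S = (Finset.filter (fun a => F a = t)
      (Finset.univ.filter fun a : α => ¬ ∀ d : P, d • a = a)).card := by
    rw [Nat.card_eq_fintype_card]
    refine Fintype.card_of_subtype _ fun a => ?_
    rw [Finset.mem_filter, Finset.mem_filter]
    change _ ↔ (F a = t ∧ ¬ ∀ d : P, d • a = a)
    constructor
    · rintro ⟨⟨-, h5⟩, h4⟩
      exact ⟨h4, h5⟩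
    · rintro ⟨h4, h5⟩
      exact ⟨⟨Finset.mem_univ _, h5⟩, h4⟩
  rw [← h3]
  exact (Nat.modEq_zero_iff_dvd).mp h1

section tr

variable {p : ℕ} [hp : Fact p.Prime] {k G : Type} [Field k] [CharP k p] [Group G] [Finite G]

theorem cj_coeff {R G : Type} [CommRing R] [Group G] (x : G) (a : MonoidAlgebra R G) (g : G) :
    (cj x a).coeff g = a.coeff (x⁻¹ * g * x) := by
  unfold cj
  rw [coeff_mul_single_apply, mul_one, coeff_single_mul_apply, one_mul, inv_inv, mul_assoc]

theorem coeff_sum {R G ι : Type} [CommRing R] [Group G] (s : Finset ι)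
    (f : ι → MonoidAlgebra R G) (g : G) :
    (∑ i ∈ s, f i).coeff g = ∑ i ∈ s, (f i).coeff g := by
  induction s using Finset.induction_on with
  | empty => simp
  | insert a s ha ih =>
    rw [Finset.sum_insert ha, Finset.sum_insert ha, ← ih]
    rfl

/-- If `e` is a relative trace from `D`, and an element which is centralised by a `p`-subgroup `Q`
has a nonzero coefficient in `e`, then `Q` is contained in a conjugate of `D`. -/
theorem le_of_coeff {D Q : Subgroup G} {e : MonoidAlgebra k G} (he : IsTr D e)
    (hQ : IsPGroup p Q) {g : G} (hg : ∀ q ∈ Q, q * g = g * q) (h : e.coeff g ≠ 0) :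
    ∃ x : G, ∀ q ∈ Q, x⁻¹ * q * x ∈ D := by
  rw [isTr_iff] at he
  obtain ⟨a, ha, hae⟩ := he
  haveI := Fintype.ofFinite (G ⧸ D)
  have h1 : e.coeff g = ∑ c : G ⧸ D, a.coeff (c.out⁻¹ * g * c.out) := by
    rw [hae, coeff_sum]
    exact Finset.sum_congr rfl fun c _ => cj_coeff _ _ _
  have h2 := sum_fixed (p := p) (k := k) (P := Q) (α := G ⧸ D) hQ
    (fun c => a.coeff (c.out⁻¹ * g * c.out)) (by
      intro q c
      rw [← cj_coeff, ← cj_coeff]
      have h3 : (q • c : G ⧸ D) = QuotientGroup.mk ((q : G) * c.out) := by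
        conv_lhs => rw [← QuotientGroup.out_eq' c]
        rfl
      rw [h3, cj_out ha, cj_mul, cj_coeff]
      congr 1
      rw [mul_assoc, ← hg q q.2, inv_mul_cancel_left])
  rw [h1, h2] at h
  obtain ⟨c, hc, -⟩ := Finset.exists_ne_zero_of_sum_ne_zero h
  rw [Finset.mem_filter] at hc
  refine ⟨c.out, fun q hq => ?_⟩
  have h4 := hc.2 ⟨q, hq⟩
  have h5 : ((⟨q, hq⟩ : Q) • c : G ⧸ D) = QuotientGroup.mk (q * c.out) := by
    conv_lhs => rw [← QuotientGroup.out_eq' c]
    rfl
  rw [h5] at h4
  have h6 : (QuotientGroup.mk c.out : G ⧸ D) = QuotientGroup.mk (q * c.out) := by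
    rw [QuotientGroup.out_eq', h4]
  rw [mul_assoc]
  exact QuotientGroup.eq.mp h6

end tr

namespace Ind

variable {R X V G : Type} [CommRing R] [Group X] [CommGroup V] [Group G] [Fintype X] [Fintype V]
  [IsDomain R] (I : Ind R X V G) {u : R}

theorem coeff_form (b : MonoidAlgebra R G) (v : V) (g : G) :
    (I.ep u * I.io b).coeff (I.i v * I.j g) = u * ((I.lam v⁻¹ : Rˣ) : R) * b.coeff g := by
  induction b using MonoidAlgebra.induction_linear with
  | zero => simp
  | add b c hb hc =>
    rw [map_add, mul_add, coeff_add, Finsupp.add_apply, hb, hc, coeff_add, Finsupp.add_apply,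
      mul_add]
  | single g' r =>
    rw [io_single, coeff_mul_single_apply, coeff_single, Finsupp.single_apply]
    unfold ep
    rw [coeff_sum]
    by_cases h : g' = g
    · subst h
      rw [if_pos rfl, Finset.sum_eq_single v]
      · rw [mul_inv_cancel_right, coeff_single, Finsupp.single_eq_same]
      · intro w _ hw
        rw [mul_inv_cancel_right, coeff_single, Finsupp.single_apply, if_neg]
        intro h1
        apply hw
        have := I.uniq (v := w) (v' := v) (g := 1) (g' := 1) (by rw [h1])
        exact this.1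
      · intro h
        exact absurd (Finset.mem_univ _) h
    · rw [if_neg h, mul_zero, Finset.sum_eq_zero, zero_mul]
      intro w _
      rw [coeff_single, Finsupp.single_apply, if_neg]
      intro h1
      apply h
      have h2 : I.i w * I.j g' = I.i v * I.j g := by
        rw [h1]
        group
      exact (I.uniq h2).2

theorem coeff_not (b : MonoidAlgebra R G) {x : X} (hx : x ∉ I.Y) :
    (I.ep u * I.io b).coeff x = 0 := by
  induction b using MonoidAlgebra.induction_linear with
  | zero => simp
  | add b c hb hc =>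
    rw [map_add, mul_add, coeff_add, Finsupp.add_apply, hb, hc, add_zero]
  | single g' r =>
    rw [io_single, coeff_mul_single_apply]
    unfold ep
    rw [coeff_sum, Finset.sum_eq_zero, zero_mul]
    intro w _
    rw [coeff_single, Finsupp.single_apply, if_neg]
    intro h1
    apply hx
    refine ⟨w, g', ?_⟩
    rw [h1]
    group

theorem cen_coeff (b : MonoidAlgebra R G) (x : X) :
    (I.cen u b).coeff x = ∑ p : I.Q, (I.ep u * I.io b).coeff (p.out⁻¹ * x * p.out) := by
  rw [I.cen_eq, coeff_sum]
  refine Finset.sum_congr rfl fun p _ => ?_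
  rw [← cj_coeff]
  unfold cj
  rw [← mul_assoc]

/-- the function is invariant under conjugation -/
theorem cj_ep (hu : u * (Fintype.card V : R) = 1) {b : MonoidAlgebra R G}
    (hb : ∀ a, b * a = a * b) {y : X} (hy : y ∈ I.Y) :
    cj y (I.ep u * I.io b) = I.ep u * I.io b := by
  obtain ⟨v, g, rfl⟩ := hy
  rw [I.cj_base hu, cj_central g hb]

theorem coeff_out (hu : u * (Fintype.card V : R) = 1) {b : MonoidAlgebra R G}
    (hb : ∀ a, b * a = a * b) (y x : X) :
    (I.ep u * I.io b).coeff ((QuotientGroup.mk y : I.Q).out⁻¹ * x *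
      (QuotientGroup.mk y : I.Q).out) = (I.ep u * I.io b).coeff (y⁻¹ * x * y) := by
  rw [← cj_coeff, ← cj_coeff, cj_out (fun q hq => I.cj_ep hu hb hq)]

end Ind

end Pool.Agent.H373.BU
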