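import Pool.Agent.H373.BU.A5

/-!
# The normaliser of a `p`-subgroup
-/

set_option autoImplicit false
set_option linter.unusedSectionVars false
set_option linter.style.haveILetI false

open scoped BigOperators Classical

noncomputable section

namespace Pool.Agent.H373.BU

open MonoidAlgebra

namespace Ind

variable {R X V G : Type} [CommRing R] [Group X] [CommGroup V] [Group G]
  (I : Ind R X V G) (D : Subgroup G)

/-- the elements of `V` which are centralised by `D` -/
def V0 : Subgroup V where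
  carrier := {v | ∀ d ∈ D, I.act (I.j d) v = v}
  one_mem' := fun d _ => map_one _
  mul_mem' := fun {a b} ha hb d hd => by rw [map_mul, ha d hd, hb d hd]
  inv_mem' := fun {a} ha d hd => by rw [map_inv, ha d hd]

theorem mem_V0 {v : V} : v ∈ I.V0 D ↔ ∀ d ∈ D, I.act (I.j d) v = v := Iff.rfl

/-- the normaliser in `X` of the image of `D` -/
abbrev N : Subgroup X := Subgroup.normalizer ((D.map I.j : Subgroup X) : Set X)

/-- the normaliser of `D` -/
abbrev G0 : Subgroup G := Subgroup.normalizer (D : Set G)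

theorem j_inj : Function.Injective I.j := by
  rw [injective_iff_map_eq_one]
  intro g hg
  exact (I.inj 1 g (by rw [map_one, one_mul, hg])).2

theorem i_inj : Function.Injective I.i := by
  rw [injective_iff_map_eq_one]
  intro v hv
  exact (I.inj v 1 (by rw [map_one, mul_one, hv])).1

theorem conj_form (v : V) (g h : G) :
    (I.i v * I.j g) * I.j h * (I.i v * I.j g)⁻¹ =
      I.i (v * I.act (I.j (g * h * g⁻¹)) v⁻¹) * I.j (g * h * g⁻¹) := by
  rw [map_mul I.i, I.act_spec]
  simp only [map_mul, map_inv]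
  group

theorem form_mem_N {v : V} {g : G} (hv : v ∈ I.V0 D) (hg : g ∈ G0 D) :
    I.i v * I.j g ∈ I.N D := by
  rw [Subgroup.mem_normalizer_iff] at hg ⊢
  have key : ∀ (v : V) (g : G), v ∈ I.V0 D → (∀ h, h ∈ D ↔ g * h * g⁻¹ ∈ D) →
      ∀ x ∈ D.map I.j, (I.i v * I.j g) * x * (I.i v * I.j g)⁻¹ ∈ D.map I.j := by
    rintro v g hv hg _ ⟨d, hd, rfl⟩
    rw [I.conj_form, map_inv, hv _ ((hg d).mp hd), mul_inv_cancel, map_one, one_mul]
    exact ⟨_, (hg d).mp hd, rfl⟩
  intro x
  constructor
  · exact key v g hv hg x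
  · intro h
    have hg' : ∀ h, h ∈ D ↔ g⁻¹ * h * g⁻¹⁻¹ ∈ D := by
      intro h
      rw [hg (g⁻¹ * h * g⁻¹⁻¹)]
      have : g * (g⁻¹ * h * g⁻¹⁻¹) * g⁻¹ = h := by group
      rw [this]
    have hv' : I.act (I.j g⁻¹) v⁻¹ ∈ I.V0 D := by
      intro d hd
      have h1 : I.j d * I.j g⁻¹ = I.j g⁻¹ * I.j (g * d * g⁻¹) := by
        rw [← map_mul, ← map_mul]
        congr 1
        group
      rw [← MulAut.mul_apply, ← map_mul, h1, map_mul, MulAut.mul_apply,
        map_inv (I.act (I.j (g * d * g⁻¹))) v, hv _ ((hg d).mp hd)]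
    have h2 := key _ _ hv' hg' _ h
    have h3 : I.i (I.act (I.j g⁻¹) v⁻¹) * I.j g⁻¹ = (I.i v * I.j g)⁻¹ := by
      rw [I.act_spec, map_inv, map_inv]
      group
    rw [h3] at h2
    have h4 : (I.i v * I.j g)⁻¹ * (I.i v * I.j g * x * (I.i v * I.j g)⁻¹) *
        (I.i v * I.j g)⁻¹⁻¹ = x := by group
    rwa [h4] at h2

/-- an element `v g` which normalises the image of `D` -/
theorem of_form_mem_N {v : V} {g : G} (h : I.i v * I.j g ∈ I.N D) :
    v ∈ I.V0 D ∧ g ∈ G0 D := by
  rw [Subgroup.mem_normalizer_iff] at h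
  have h1 : ∀ d ∈ D, g * d * g⁻¹ ∈ D ∧ I.act (I.j (g * d * g⁻¹)) v = v := by
    intro d hd
    have h2 := (h (I.j d)).mp ⟨d, hd, rfl⟩
    obtain ⟨d', hd', h3⟩ := h2
    change I.j d' = _ at h3
    rw [I.conj_form] at h3
    have h4 := I.uniq (v := 1) (g := d') (v' := v * I.act (I.j (g * d * g⁻¹)) v⁻¹)
      (g' := g * d * g⁻¹) (by rw [map_one, one_mul]; exact h3)
    refine ⟨h4.2 ▸ hd', ?_⟩
    have h5 := h4.1
    rw [map_inv, eq_mul_inv_iff_mul_eq, one_mul] at h5
    exact h5
  have h6 : ∀ d, g * d * g⁻¹ ∈ D → d ∈ D := by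
    intro d hd
    have h7 : I.j (g * d * g⁻¹) ∈ D.map I.j := ⟨_, hd, rfl⟩
    -- conjugate back
    have h8 := (h ((I.i v * I.j g)⁻¹ * I.j (g * d * g⁻¹) * (I.i v * I.j g))).mpr (by
      have : I.i v * I.j g * ((I.i v * I.j g)⁻¹ * I.j (g * d * g⁻¹) * (I.i v * I.j g)) *
        (I.i v * I.j g)⁻¹ = I.j (g * d * g⁻¹) := by group
      rw [this]
      exact h7)
    obtain ⟨d', hd', h9⟩ := h8
    change I.j d' = _ at h9
    have h10 : I.j (g * d * g⁻¹) = (I.i v * I.j g) * I.j d' * (I.i v * I.j g)⁻¹ := by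
      rw [h9]
      group
    rw [I.conj_form] at h10
    have h11 := I.uniq (v := 1) (g := g * d * g⁻¹) (v' := v * I.act (I.j (g * d' * g⁻¹)) v⁻¹)
      (g' := g * d' * g⁻¹) (by rw [map_one, one_mul]; exact h10)
    have h12 : d = d' := by
      have := h11.2
      exact mul_left_cancel (mul_right_cancel this)
    exact h12 ▸ hd'
  have hg : g ∈ G0 D := by
    rw [Subgroup.mem_normalizer_iff]
    exact fun d => ⟨fun hd => (h1 d hd).1, h6 d⟩
  refine ⟨fun d hd => ?_, hg⟩
  have h13 : g⁻¹ * d * g ∈ D := by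
    apply h6
    have : g * (g⁻¹ * d * g) * g⁻¹ = d := by group
    rwa [this]
  have h14 := (h1 _ h13).2
  have h15 : g * (g⁻¹ * d * g) * g⁻¹ = d := by group
  rwa [h15] at h14

theorem act_mem_V0 {x : X} (hx : x ∈ I.N D) {v : V} (hv : v ∈ I.V0 D) : I.act x v ∈ I.V0 D := by
  intro d hd
  have h1 : x⁻¹ * I.j d * x⁻¹⁻¹ ∈ D.map I.j :=
    (Subgroup.mem_normalizer_iff.mp (Subgroup.inv_mem _ hx) _).mp ⟨d, hd, rfl⟩
  obtain ⟨d', hd', h2⟩ := h1
  change I.j d' = _ at h2
  have h3 : I.j d * x = x * I.j d' := by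
    rw [h2]
    group
  rw [← MulAut.mul_apply, ← map_mul, h3, map_mul, MulAut.mul_apply, hv d' hd']

/-- the action of the normaliser -/
def act0 : I.N D →* MulAut (I.V0 D) where
  toFun x :=
    { toFun := fun v => ⟨I.act (x : X) v, I.act_mem_V0 D x.2 v.2⟩
      invFun := fun v => ⟨I.act ((x⁻¹ : I.N D) : X) v, I.act_mem_V0 D (x⁻¹).2 v.2⟩
      left_inv := fun v => by
        apply Subtype.ext
        change I.act ((x⁻¹ : I.N D) : X) (I.act (x : X) v) = v
        rw [← MulAut.mul_apply, ← map_mul]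
        change I.act ((x : X)⁻¹ * x) v = v
        rw [inv_mul_cancel, map_one]
        rfl
      right_inv := fun v => by
        apply Subtype.ext
        change I.act (x : X) (I.act ((x⁻¹ : I.N D) : X) v) = v
        rw [← MulAut.mul_apply, ← map_mul]
        change I.act ((x : X) * (x : X)⁻¹) v = v
        rw [mul_inv_cancel, map_one]
        rfl
      map_mul' := fun v w => by
        apply Subtype.ext
        exact map_mul (I.act (x : X)) _ _ }
  map_one' := by
    ext v
    change I.act ((1 : I.N D) : X) v = v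
    rw [OneMemClass.coe_one, map_one]
    rfl
  map_mul' x y := by
    ext v
    change I.act ((x * y : I.N D) : X) v = I.act (x : X) (I.act (y : X) v)
    rw [Subgroup.coe_mul, map_mul]
    rfl

variable [Finite V] [Finite G]

/-- an invariant character of `V` which is trivial on the fixed points of `D` is trivial -/
theorem char_trivial {p : ℕ} [hp : Fact p.Prime] (hD : IsPGroup p D) (hV : ¬ p ∣ Nat.card V)
    (μ : V →* Rˣ) (h1 : ∀ d ∈ D, ∀ v, μ (I.act (I.j d) v) = μ v)
    (h2 : ∀ v ∈ I.V0 D, μ v = 1) (v : V) : μ v = 1 := by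
  haveI := Fintype.ofFinite D
  have h3 : ∏ d : D, I.act (I.j d) v ∈ I.V0 D := by
    intro d hd
    rw [map_prod]
    refine Fintype.prod_equiv (Equiv.mulLeft (⟨d, hd⟩ : D)) _ _ fun x => ?_
    rw [← MulAut.mul_apply, ← map_mul, ← map_mul]
    rfl
  have h4 := h2 _ h3
  have h4' : ∏ d : D, μ (I.act (I.j (d : G)) v) = ∏ _d : D, μ v :=
    Finset.prod_congr rfl fun d _ => h1 (d : G) d.2 v
  rw [map_prod, h4', Finset.prod_const, Finset.card_univ] at h4
  have h5 : μ v ^ Nat.card V = 1 := by rw [← map_pow, pow_card_eq_one', map_one]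
  obtain ⟨n, hn⟩ := IsPGroup.iff_card.mp hD
  have h6 : Nat.Coprime (Nat.card D) (Nat.card V) := by
    rw [hn]
    exact Nat.Coprime.pow_left n ((Nat.Prime.coprime_iff_not_dvd hp.out).mpr hV)
  rw [← Nat.card_eq_fintype_card] at h4
  have h7 := orderOf_dvd_of_pow_eq_one h4
  have h8 := orderOf_dvd_of_pow_eq_one h5
  have h9 := Nat.dvd_gcd h7 h8
  rw [h6] at h9
  exact orderOf_eq_one_iff.mp (Nat.dvd_one.mp h9)

/-- the data for the normaliser -/
def nor {p : ℕ} [hp : Fact p.Prime] (hD : IsPGroup p D) (hV : ¬ p ∣ Nat.card V) :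
    Ind R (I.N D) (I.V0 D) (G0 D) where
  i :=
    { toFun := fun v => ⟨I.i v, by
        have := I.form_mem_N D v.2 (G0 D).one_mem
        rwa [map_one, mul_one] at this⟩
      map_one' := Subtype.ext (by simp)
      map_mul' := fun v w => Subtype.ext (by simp) }
  j :=
    { toFun := fun g => ⟨I.j g, by
        have := I.form_mem_N D (I.V0 D).one_mem g.2
        rwa [map_one, one_mul] at this⟩
      map_one' := Subtype.ext (by simp)
      map_mul' := fun v w => Subtype.ext (by simp) }
  act := I.act0 D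
  lam := I.lam.comp (I.V0 D).subtype
  act_spec x v := Subtype.ext (I.act_spec (x : X) (v : V))
  inj v g h := by
    obtain ⟨h1, h2⟩ := I.inj v g (congrArg Subtype.val h)
    exact ⟨Subtype.ext h1, Subtype.ext h2⟩
  stab x := by
    constructor
    · intro h
      have hx : (x : X) ∈ I.Y := by
        rw [I.mem_Y_iff]
        intro v
        let μ : V →* Rˣ := (I.lam.comp (I.act (x : X)).toMonoidHom) / I.lam
        have hμ : ∀ v, μ v = I.lam (I.act (x : X) v) / I.lam v := fun v => rfl
        have h1 : μ v = 1 := by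
          refine I.char_trivial D hD hV μ ?_ ?_ v
          · intro d hd v
            have h2 : (x : X) * I.j d * (x : X)⁻¹ ∈ D.map I.j :=
              (Subgroup.mem_normalizer_iff.mp x.2 _).mp ⟨d, hd, rfl⟩
            obtain ⟨d', hd', h3⟩ := h2
            change I.j d' = _ at h3
            have h4 : (x : X) * I.j d = I.j d' * x := by
              rw [h3]
              group
            have h6 : I.act (x : X) (I.act (I.j d) v) = I.act (I.j d') (I.act (x : X) v) := by
              rw [← MulAut.mul_apply, ← map_mul, h4, map_mul, MulAut.mul_apply]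
            rw [hμ, hμ, h6, I.lam_act (I.j_mem d'), I.lam_act (I.j_mem d)]
          · intro v hv
            rw [hμ, div_eq_one]
            exact h ⟨v, hv⟩
        rw [hμ, div_eq_one] at h1
        exact h1
      obtain ⟨v, g, hvg⟩ := hx
      have h5 := I.of_form_mem_N D (by rw [hvg]; exact x.2)
      exact ⟨⟨v, h5.1⟩, ⟨g, h5.2⟩, Subtype.ext hvg⟩
    · rintro ⟨v, g, h⟩ w
      exact I.lam_act ⟨v, g, congrArg Subtype.val h⟩ (w : V)

end Ind

end Pool.Agent.H373.BU
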