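import Pool.Agent.H373.BU.A6

/-!
# Brauer correspondents
-/

set_option autoImplicit false
set_option linter.unusedSectionVars false
set_option linter.style.haveILetI false

open scoped BigOperators Classical

noncomputable section

namespace Pool.Agent.H373.BU

open MonoidAlgebra

/-- The element `c` of the group algebra of `N_G(D)` is the image `Br_D(e)` of `e` under the Brauer
homomorphism: the coefficients of `c` at the elements of `C_G(D)` are those of `e`, and the
coefficients of `c` at the other elements are zero. -/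
def IsBr {k G : Type} [CommRing k] [Group G] (e : MonoidAlgebra k G) (D : Subgroup G)
    (c : MonoidAlgebra k (Subgroup.normalizer (D : Set G))) : Prop :=
  ∀ n : Subgroup.normalizer (D : Set G),
    ((n : G) ∈ Subgroup.centralizer (D : Set G) → c.coeff n = e.coeff (n : G)) ∧
      ((n : G) ∉ Subgroup.centralizer (D : Set G) → c.coeff n = 0)

namespace Ind

section conj

variable {R X V G : Type} [CommRing R] [Group X] [CommGroup V] [Group G]
  (I : Ind R X V G) (D : Subgroup G) [Finite V] [Finite G]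

/-- a `p`-subgroup of the stabiliser is conjugate by an element of `V` to a subgroup of `G` -/
theorem exists_conj {p : ℕ} [hp : Fact p.Prime] (hD : IsPGroup p D) (hV : ¬ p ∣ Nat.card V)
    {y : X} (hy : ∀ d ∈ D, y⁻¹ * I.j d * y ∈ I.Y) :
    ∃ v : V, ∀ d ∈ D, ∃ g, I.j g = (y * I.i v)⁻¹ * I.j d * (y * I.i v) := by
  letI : MulAction D (X ⧸ I.j.range) := MulAction.compHom _ (I.j.comp D.subtype)
  have hsm : ∀ (d : D) (x : X), d • (QuotientGroup.mk x : X ⧸ I.j.range) =
      QuotientGroup.mk (I.j d * x) := fun _ _ => rfl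
  have key : ∀ (d : D) (v : V), ∃ v' : V, (QuotientGroup.mk (I.j d * (y * I.i v)) :
      X ⧸ I.j.range) = QuotientGroup.mk (y * I.i v') := by
    intro d v
    obtain ⟨a, b, hab⟩ := hy d d.2
    refine ⟨a * I.act (I.j b) v, ?_⟩
    rw [QuotientGroup.eq]
    refine ⟨b⁻¹, ?_⟩
    have h1 : I.j d * (y * I.i v) = y * (I.i a * I.j b) * I.i v := by
      rw [hab]
      group
    rw [h1, map_inv, map_mul, I.act_spec]
    group
  let S : SubMulAction D (X ⧸ I.j.range) :=
    { carrier := {c | ∃ v : V, c = QuotientGroup.mk (y * I.i v)}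
      smul_mem' := by
        rintro d _ ⟨v, rfl⟩
        obtain ⟨v', h⟩ := key d v
        exact ⟨v', by rw [hsm, h]⟩ }
  have hcard : Nat.card V = Nat.card S := by
    refine Nat.card_congr (Equiv.ofBijective
      (fun v => (⟨QuotientGroup.mk (y * I.i v), v, rfl⟩ : S)) ⟨?_, ?_⟩)
    · intro v w h
      have h1 := QuotientGroup.eq.mp (congrArg Subtype.val h)
      obtain ⟨g, hg⟩ := h1
      have h2 : I.i w * I.j 1 = I.i v * I.j g := by
        rw [hg, map_one]
        group
      exact (I.uniq h2).1.symm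
    · rintro ⟨_, v, rfl⟩
      exact ⟨v, rfl⟩
  haveI : Finite S := Nat.finite_of_card_ne_zero (by rw [← hcard]; exact Nat.card_pos.ne')
  obtain ⟨⟨c, v, hv⟩, hc⟩ := hD.nonempty_fixed_point_of_prime_not_dvd_card S (by rwa [← hcard])
  refine ⟨v, fun d hd => ?_⟩
  have h1 : ((⟨d, hd⟩ : D) • c) = c := congrArg Subtype.val (hc ⟨d, hd⟩)
  rw [hv, hsm] at h1
  have h2 := QuotientGroup.eq.mp h1.symm
  obtain ⟨g, hg⟩ := h2
  refine ⟨g, ?_⟩
  rw [hg]
  group

end conj

section main

variable {p : ℕ} [hp : Fact p.Prime] {k X V G : Type} [Field k] [CharP k p] [Group X]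
  [CommGroup V] [Group G] [Fintype X] [Fintype V] [Finite G] (I : Ind k X V G) (D : Subgroup G)
  (hD : IsPGroup p D) (hV : ¬ p ∣ Nat.card V)

/-- the element commutes with the image of `D` -/
def Cn (x : X) : Prop := ∀ d ∈ D, x * I.j d = I.j d * x

theorem cn_iff (x : X) : x ∈ Subgroup.centralizer ((D.map I.j : Subgroup X) : Set X) ↔
    I.Cn D x := by
  rw [Subgroup.mem_centralizer_iff]
  constructor
  · intro h d hd
    exact (h (I.j d) ⟨d, hd, rfl⟩).symm
  · rintro h _ ⟨d, hd, rfl⟩
    exact (h d hd).symm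

theorem cn_conj {x y : X} (hy : y ∈ I.N D) (h : I.Cn D x) : I.Cn D (y⁻¹ * x * y) := by
  intro d hd
  have h1 : y * I.j d * y⁻¹ ∈ D.map I.j := (Subgroup.mem_normalizer_iff.mp hy _).mp ⟨d, hd, rfl⟩
  obtain ⟨d', hd', h2⟩ := h1
  change I.j d' = _ at h2
  have h3 := h d' hd'
  rw [h2] at h3
  calc y⁻¹ * x * y * I.j d = y⁻¹ * (x * (y * I.j d * y⁻¹)) * y := by group
    _ = y⁻¹ * (y * I.j d * y⁻¹ * x) * y := by rw [h3]
    _ = I.j d * (y⁻¹ * x * y) := by group

theorem cn_form {v : V} {g : G} (h : I.Cn D (I.i v * I.j g)) : ∀ d ∈ D, g * d = d * g := by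
  intro d hd
  have h1 := h d hd
  have h2 : I.i v * I.j (g * d) = I.i (I.act (I.j d) v) * I.j (d * g) := by
    rw [map_mul, ← mul_assoc, h1, map_mul, ← mul_assoc, ← mul_assoc, ← I.conj_i]
  exact (I.uniq h2).2

theorem form_cn {v : V} {g : G} (hv : v ∈ I.V0 D) (hg : ∀ d ∈ D, g * d = d * g) :
    I.Cn D (I.i v * I.j g) := by
  intro d hd
  rw [mul_assoc, ← map_mul, hg d hd, map_mul, ← mul_assoc, ← mul_assoc, I.conj_i, hv d hd]

/-- the elements of the normaliser in the stabiliser -/
theorem mem_nor_Y (n : I.N D) : n ∈ (I.nor D hD hV).Y ↔ (n : X) ∈ I.Y := by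
  constructor
  · rintro ⟨v, g, h⟩
    exact ⟨v, g, congrArg Subtype.val h⟩
  · rintro ⟨v, g, h⟩
    have h1 := I.of_form_mem_N D (by rw [h]; exact n.2)
    exact ⟨⟨v, h1.1⟩, ⟨g, h1.2⟩, Subtype.ext h⟩

include hD hV in
theorem card_V0 : (Fintype.card V : k) = (Nat.card (I.V0 D) : k) := by
  letI : MulAction D V := MulAction.compHom V (I.act.comp (I.j.comp D.subtype))
  have hsm : ∀ (d : D) (v : V), d • v = I.act (I.j d) v := fun _ _ => rfl
  have h1 : Nat.card V ≡ Nat.card (MulAction.fixedPoints D V) [MOD p] :=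
    hD.card_modEq_card_fixedPoints V
  have h2 : Nat.card (MulAction.fixedPoints D V) = Nat.card (I.V0 D) := by
    refine Nat.card_congr (Equiv.subtypeEquivRight fun v => ?_)
    constructor
    · intro h d hd
      exact h ⟨d, hd⟩
    · intro h d
      exact h d d.2
  rw [h2] at h1
  rw [← Nat.card_eq_fintype_card]
  exact (CharP.natCast_eq_natCast k p).mpr h1

variable {u : k} (hu : u * (Fintype.card V : k) = 1) {e : MonoidAlgebra k G}
  {c : MonoidAlgebra k (Subgroup.normalizer (D : Set G))}

theorem coeff_eq (hbr : IsBr e D c) (n : I.N D) :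
    (I.Cn D n → ((I.nor D hD hV).ep u * (I.nor D hD hV).io c).coeff n =
      (I.ep u * I.io e).coeff (n : X)) ∧
    (¬ I.Cn D n → ((I.nor D hD hV).ep u * (I.nor D hD hV).io c).coeff n = 0) := by
  by_cases hY : (n : X) ∈ I.Y
  · obtain ⟨v, g, hn⟩ := hY
    have h1 := I.of_form_mem_N D (by rw [hn]; exact n.2)
    have h2 : (I.nor D hD hV).i ⟨v, h1.1⟩ * (I.nor D hD hV).j ⟨g, h1.2⟩ = n := Subtype.ext hn
    have h3 : ((I.nor D hD hV).ep u * (I.nor D hD hV).io c).coeff n =
        u * ((I.lam v⁻¹ : kˣ) : k) * c.coeff ⟨g, h1.2⟩ := by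
      rw [← h2, (I.nor D hD hV).coeff_form]
      rfl
    constructor
    · intro h
      have h4 : g ∈ Subgroup.centralizer (D : Set G) := by
        rw [Subgroup.mem_centralizer_iff]
        intro d hd
        rw [← hn] at h
        exact (I.cn_form D h d hd).symm
      rw [h3, (hbr ⟨g, h1.2⟩).1 h4, ← hn, I.coeff_form]
    · intro h
      have h4 : g ∉ Subgroup.centralizer (D : Set G) := by
        intro h5
        apply h
        rw [← hn]
        refine I.form_cn D h1.1 fun d hd => ?_
        exact (Subgroup.mem_centralizer_iff.mp h5 d hd).symm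
      rw [h3, (hbr ⟨g, h1.2⟩).2 h4, mul_zero]
  · have h1 : n ∉ (I.nor D hD hV).Y := by
      rwa [I.mem_nor_Y D hD hV]
    rw [(I.nor D hD hV).coeff_not _ h1, I.coeff_not _ hY]
    exact ⟨fun _ => rfl, fun _ => rfl⟩

include hu in
/-- **Brauer correspondents correspond to each other.** -/
theorem cen_isBr (he : ∀ a, e * a = a * e) (hTr : IsTr D e)
    (hc : ∀ a, c * a = a * c) (hbr : IsBr e D c) :
    IsBr (I.cen u e) (D.map I.j) ((I.nor D hD hV).cen u c) := by
  intro n
  rw [I.cn_iff D]
  have hu0 : u * (Fintype.card (I.V0 D) : k) = 1 := by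
    rw [← Nat.card_eq_fintype_card, ← I.card_V0 D hD hV, hu]
  constructor
  · intro hn
    rw [(I.nor D hD hV).cen_coeff, I.cen_coeff]
    letI : MulAction D I.Q := MulAction.compHom _ (I.j.comp D.subtype)
    have hsm : ∀ (d : D) (x : X), d • (QuotientGroup.mk x : I.Q) =
      QuotientGroup.mk (I.j d * x) := fun _ _ => rfl
    have hout : ∀ (d : D) (q : I.Q), d • q = QuotientGroup.mk (I.j d * q.out) := by
      intro d q
      conv_lhs => rw [← QuotientGroup.out_eq' q]
      rfl
    rw [sum_fixed (p := p) (P := D) (α := I.Q) hD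
      (fun q => (I.ep u * I.io e).coeff (q.out⁻¹ * n * q.out)) (by
        intro d q
        rw [hout, I.coeff_out hu he]
        congr 1
        have h1 := hn d d.2
        calc (I.j d * q.out)⁻¹ * n * (I.j d * q.out) =
            q.out⁻¹ * ((I.j d)⁻¹ * (n * I.j d)) * q.out := by group
          _ = q.out⁻¹ * ((I.j d)⁻¹ * (I.j d * n)) * q.out := by rw [h1]
          _ = q.out⁻¹ * n * q.out := by group)]
    let τ : (I.nor D hD hV).Q → I.Q := fun q => QuotientGroup.mk (q.out : X)
    have h1 : ∀ q : (I.nor D hD hV).Q,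
        ((I.nor D hD hV).ep u * (I.nor D hD hV).io c).coeff (q.out⁻¹ * n * q.out) =
          (I.ep u * I.io e).coeff ((τ q).out⁻¹ * n * (τ q).out) := by
      intro q
      rw [I.coeff_out hu he, (I.coeff_eq D hD hV hbr _).1]
      · rfl
      · exact I.cn_conj D q.out.2 hn
    rw [Finset.sum_congr rfl fun q _ => h1 q]
    have hτ : Function.Injective τ := by
      intro q q' h
      have h2 := QuotientGroup.eq.mp h
      have h3 : q.out⁻¹ * q'.out ∈ (I.nor D hD hV).Y := (I.mem_nor_Y D hD hV _).mpr h2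
      rw [← QuotientGroup.out_eq' q, ← QuotientGroup.out_eq' q', QuotientGroup.eq]
      exact h3
    rw [← Finset.sum_image (g := τ) (f := fun q : I.Q => (I.ep u * I.io e).coeff
      (q.out⁻¹ * n * q.out)) (fun a _ b _ h => hτ h)]
    refine Finset.sum_subset ?_ ?_
    · intro q hq
      rw [Finset.mem_image] at hq
      obtain ⟨r, -, rfl⟩ := hq
      rw [Finset.mem_filter]
      refine ⟨Finset.mem_univ _, fun d => ?_⟩
      change d • (QuotientGroup.mk (r.out : X) : I.Q) = QuotientGroup.mk (r.out : X)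
      rw [hsm, QuotientGroup.eq]
      have h2 : (r.out : X)⁻¹ * I.j (d : G)⁻¹ * (r.out : X)⁻¹⁻¹ ∈ D.map I.j :=
        (Subgroup.mem_normalizer_iff.mp (Subgroup.inv_mem _ r.out.2) _).mp
          ⟨_, D.inv_mem d.2, rfl⟩
      obtain ⟨d', -, h3⟩ := h2
      refine ⟨1, d', ?_⟩
      rw [map_one, one_mul]
      change I.j d' = _ at h3
      rw [h3, map_inv]
      group
    · intro q hq hq'
      by_contra hne
      apply hq'
      rw [Finset.mem_filter] at hq
      have h2 : ∀ d ∈ D, q.out⁻¹ * I.j d * q.out ∈ I.Y := by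
        intro d hd
        have h3 := hq.2 ⟨d, hd⟩
        rw [hout] at h3
        have h4 : (QuotientGroup.mk q.out : I.Q) = QuotientGroup.mk (I.j d * q.out) := by
          rw [QuotientGroup.out_eq']
          exact h3.symm
        have h5 := QuotientGroup.eq.mp h4
        rwa [← mul_assoc] at h5
      obtain ⟨v, hv⟩ := I.exists_conj D hD hV h2
      set y := q.out * I.i v with hy
      have hqy : q = QuotientGroup.mk y := by
        conv_lhs => rw [← QuotientGroup.out_eq' q]
        rw [QuotientGroup.eq, hy, inv_mul_cancel_left]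
        exact I.i_mem v
      have h6 : (I.ep u * I.io e).coeff (y⁻¹ * n * y) ≠ 0 := by
        rw [hqy, I.coeff_out hu he] at hne
        exact hne
      have h7 : y⁻¹ * n * y ∈ I.Y := by
        by_contra h8
        exact h6 (I.coeff_not _ h8)
      obtain ⟨w, g, hwg⟩ := h7
      have h8 : e.coeff g ≠ 0 := by
        intro h9
        apply h6
        rw [← hwg, I.coeff_form, h9, mul_zero]
      let D1 : Subgroup G := (D.map I.j).comap ((MulAut.conj y).toMonoidHom.comp I.j)
      have hD1 : IsPGroup p D1 := by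
        refine IsPGroup.comap_of_injective (hD.map I.j) _ ?_
        exact (MulAut.conj y).injective.comp I.j_inj
      have h9 : ∀ d ∈ D1, d * g = g * d := by
        intro d hd
        obtain ⟨d', hd', h10⟩ := hd
        change I.j d' = y * I.j d * y⁻¹ at h10
        have h11 := hn d' hd'
        rw [h10] at h11
        have h12 : I.i w * I.j g * I.j d = I.j d * (I.i w * I.j g) := by
          rw [hwg]
          calc y⁻¹ * n * y * I.j d = y⁻¹ * (n * (y * I.j d * y⁻¹)) * y := by group
            _ = y⁻¹ * (y * I.j d * y⁻¹ * n) * y := by rw [h11]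
            _ = _ := by group
        have h13 : I.i w * I.j (g * d) = I.i (I.act (I.j d) w) * I.j (d * g) := by
          rw [map_mul, ← mul_assoc, h12, map_mul, ← mul_assoc, ← mul_assoc, ← I.conj_i]
        exact (I.uniq h13).2.symm
      obtain ⟨h, hh⟩ := le_of_coeff (p := p) hTr hD1 h9 h8
      have h10 : ∀ x ∈ D.map I.j, (y * I.j h)⁻¹ * x * (y * I.j h) ∈ D.map I.j := by
        rintro _ ⟨d, hd, rfl⟩
        obtain ⟨d1, hd1⟩ := hv d hd
        have h11 : d1 ∈ D1 := by
          refine ⟨d, hd, ?_⟩
          change I.j d = y * I.j d1 * y⁻¹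
          rw [hd1]
          group
        refine ⟨h⁻¹ * d1 * h, hh d1 h11, ?_⟩
        rw [map_mul, map_mul, map_inv, hd1]
        change _ = (y * I.j h)⁻¹ * I.j d * (y * I.j h)
        group
      have h11 : y * I.j h ∈ I.N D := by
        have h12 : (y * I.j h)⁻¹ ∈ I.N D := by
          rw [Subgroup.mem_normalizer_iff]
          intro x
          constructor
          · intro hx
            have := h10 x hx
            rwa [inv_inv]
          · intro hx
            rw [inv_inv] at hx
            let f : D.map I.j → D.map I.j := fun x => ⟨(y * I.j h)⁻¹ * x * (y * I.j h), h10 x x.2⟩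
            have hf : Function.Injective f := by
              intro a b hab
              have h13 := congrArg Subtype.val hab
              exact Subtype.ext (mul_left_cancel (mul_right_cancel h13))
            haveI : Finite (D.map I.j) := inferInstance
            obtain ⟨x', hx'⟩ := (Finite.injective_iff_surjective.mp hf) ⟨_, hx⟩
            have h13 := congrArg Subtype.val hx'
            have h14 : (x' : X) = x := mul_left_cancel (mul_right_cancel h13)
            rw [← h14]
            exact x'.2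
        have := Subgroup.inv_mem _ h12
        rwa [inv_inv] at this
      rw [Finset.mem_image]
      refine ⟨QuotientGroup.mk ⟨y * I.j h, h11⟩, Finset.mem_univ _, ?_⟩
      change (QuotientGroup.mk (((QuotientGroup.mk ⟨y * I.j h, h11⟩ : (I.nor D hD hV).Q).out :
        I.N D) : X) : I.Q) = q
      have h15 : (⟨y * I.j h, h11⟩ : I.N D)⁻¹ * (QuotientGroup.mk ⟨y * I.j h, h11⟩ :
          (I.nor D hD hV).Q).out ∈ (I.nor D hD hV).Y := by
        rw [← QuotientGroup.eq, QuotientGroup.out_eq']
      have h16 := (I.mem_nor_Y D hD hV _).mp h15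
      rw [hqy, eq_comm, QuotientGroup.eq]
      have h17 : y⁻¹ * (((QuotientGroup.mk ⟨y * I.j h, h11⟩ : (I.nor D hD hV).Q).out :
        I.N D) : X) = I.j h * (((⟨y * I.j h, h11⟩ : I.N D)⁻¹ * (QuotientGroup.mk
          ⟨y * I.j h, h11⟩ : (I.nor D hD hV).Q).out : I.N D) : X) := by
        rw [Subgroup.coe_mul, Subgroup.coe_inv]
        group
      rw [h17]
      exact I.Y.mul_mem (I.j_mem h) h16
  · intro hn
    rw [(I.nor D hD hV).cen_coeff]
    refine Finset.sum_eq_zero fun q _ => ?_
    refine (I.coeff_eq D hD hV hbr _).2 fun h => hn ?_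
    have h1 := I.cn_conj D (Subgroup.inv_mem _ q.out.2) h
    have h2 : ((q.out : I.N D) : X)⁻¹⁻¹ * ((q.out⁻¹ * n * q.out : I.N D) : X) *
        ((q.out : I.N D) : X)⁻¹ = n := by
      rw [Subgroup.coe_mul, Subgroup.coe_mul, Subgroup.coe_inv]
      group
    rwa [h2] at h1

end main

end Ind

end Pool.Agent.H373.BU
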