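import Pool.Agent.H373.BU.A7
import Pool.Agent.H373.BU.Rel

/-!
# The groups `M_n(Z/q) ⋊ A_n`
-/

set_option autoImplicit false
set_option linter.unusedSectionVars false
set_option linter.style.haveILetI false

open scoped BigOperators Classical

noncomputable section

namespace Pool.Agent.H373.BU

/-- The additive group of the `n × n` matrices over `Z/q`, written multiplicatively. -/
abbrev Mt (n q : ℕ) : Type := Multiplicative (Matrix (Fin n) (Fin n) (ZMod q))

/-- The permutations act on the matrices by permuting the rows and the columns simultaneously,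
i.e. by conjugation with permutation matrices. -/
def pm (n q : ℕ) : Equiv.Perm (Fin n) →* MulAut (Mt n q) where
  toFun σ :=
    { toFun := fun M => Multiplicative.ofAdd (M.toAdd.submatrix (σ⁻¹ : Equiv.Perm (Fin n))
        (σ⁻¹ : Equiv.Perm (Fin n)))
      invFun := fun M => Multiplicative.ofAdd (M.toAdd.submatrix σ σ)
      left_inv := fun M => by
        apply Multiplicative.toAdd.injective
        ext i j
        simp
      right_inv := fun M => by
        apply Multiplicative.toAdd.injective
        ext i j
        simp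
      map_mul' := fun M N => rfl }
  map_one' := by
    ext M
    rfl
  map_mul' σ τ := by
    ext M
    rfl

theorem pm_apply {n q : ℕ} (σ : Equiv.Perm (Fin n)) (M : Mt n q) (i j : Fin n) :
    (pm n q σ M).toAdd i j = M.toAdd (σ⁻¹ i) (σ⁻¹ j) := rfl

/-- The action of the alternating group. -/
abbrev am (n q : ℕ) : alternatingGroup (Fin n) →* MulAut (Mt n q) :=
  (pm n q).comp (alternatingGroup (Fin n)).subtype

/-- The group `M_n(Z/q) ⋊ A_n`; the alternating group acts on the additive group of the matrices by
conjugation with permutation matrices. -/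
abbrev UG (n q : ℕ) : Type := Mt n q ⋊[am n q] alternatingGroup (Fin n)

section

variable {n q : ℕ} (S : Fin n → Fin n → Prop)

/-- the sum of the entries at the places which satisfy `S` -/
def es : Mt n q →* Multiplicative (ZMod q) where
  toFun M := Multiplicative.ofAdd (∑ i, ∑ j, if S i j then M.toAdd i j else 0)
  map_one' := by
    apply Multiplicative.toAdd.injective
    change ∑ i, ∑ j, (if S i j then (0 : Matrix (Fin n) (Fin n) (ZMod q)) i j else 0) = 0
    simp
  map_mul' M N := by
    apply Multiplicative.toAdd.injective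
    change ∑ i, ∑ j, (if S i j then (M.toAdd + N.toAdd) i j else 0) =
      ∑ i, ∑ j, (if S i j then M.toAdd i j else 0) + ∑ i, ∑ j, (if S i j then N.toAdd i j else 0)
    rw [← Finset.sum_add_distrib]
    refine Finset.sum_congr rfl fun i _ => ?_
    rw [← Finset.sum_add_distrib]
    refine Finset.sum_congr rfl fun j _ => ?_
    split_ifs
    · rfl
    · rw [add_zero]

theorem es_apply (M : Mt n q) :
    (es S M).toAdd = ∑ i, ∑ j, if S i j then M.toAdd i j else 0 := rfl

theorem es_single (a b : Fin n) :
    (es S (Multiplicative.ofAdd (Matrix.single a b (1 : ZMod q)))).toAdd =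
      if S a b then 1 else 0 := by
  rw [es_apply]
  rw [Finset.sum_eq_single a]
  · rw [Finset.sum_eq_single b]
    · by_cases h : S a b
      · rw [if_pos h, if_pos h]
        exact Matrix.single_apply_same a b 1
      · rw [if_neg h, if_neg h]
    · intro j _ hj
      split_ifs
      · exact Matrix.single_apply_of_ne _ _ _ _ _ (fun h => hj h.2.symm)
      · rfl
    · intro h
      exact absurd (Finset.mem_univ _) h
  · intro i _ hi
    refine Finset.sum_eq_zero fun j _ => ?_
    split_ifs
    · exact Matrix.single_apply_of_ne _ _ _ _ _ (fun h => hi h.1.symm)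
    · rfl
  · intro h
    exact absurd (Finset.mem_univ _) h

theorem es_perm (σ : Equiv.Perm (Fin n)) (M : Mt n q) :
    (es S (pm n q σ M)).toAdd = ∑ i, ∑ j, if S (σ i) (σ j) then M.toAdd i j else 0 := by
  rw [es_apply]
  refine (Fintype.sum_equiv σ _ _ fun i => ?_).symm
  refine Fintype.sum_equiv σ _ _ fun j => ?_
  have h : ∀ i, (σ⁻¹ : Equiv.Perm (Fin n)) (σ i) = i := fun i => σ.symm_apply_apply i
  rw [pm_apply, h, h]

theorem es_stab (hq : 1 < q) (σ : Equiv.Perm (Fin n)) :
    (∀ M : Mt n q, es S (pm n q σ M) = es S M) ↔ ∀ i j, S (σ i) (σ j) ↔ S i j := by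
  haveI : Fact (1 < q) := ⟨hq⟩
  constructor
  · intro h i j
    have h1 := congrArg Multiplicative.toAdd (h (Multiplicative.ofAdd
      (Matrix.single i j (1 : ZMod q))))
    have h2 := es_single (q := q) (fun i j => S (σ i) (σ j)) i j
    rw [es_apply] at h2
    rw [es_single, es_perm, h2] at h1
    have h3 : (1 : ZMod q) ≠ 0 := one_ne_zero
    by_cases h4 : S (σ i) (σ j) <;> by_cases h5 : S i j
    · exact iff_of_true h4 h5
    · rw [if_pos h4, if_neg h5] at h1
      exact absurd h1 h3
    · rw [if_neg h4, if_pos h5] at h1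
      exact absurd h1.symm h3
    · exact iff_of_false h4 h5
  · intro h M
    apply Multiplicative.toAdd.injective
    rw [es_perm, es_apply]
    simp_rw [h]

end

section root

variable {R : Type} [CommRing R] {q : ℕ}

/-- the homomorphism `a ↦ ζ ^ a` -/
def zp (ζ : Rˣ) (h : ζ ^ q = 1) : Multiplicative (ZMod q) →* Rˣ :=
  (ZMod.lift q (A := Additive Rˣ) ⟨zmultiplesHom (Additive Rˣ) (Additive.ofMul ζ), by
    change (((q : ℕ) : ℤ) • Additive.ofMul ζ : Additive Rˣ) = 0
    rw [natCast_zsmul]
    change Additive.ofMul (ζ ^ q) = 0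
    rw [h]
    rfl⟩).toMultiplicativeLeft

theorem zp_inj {ζ : Rˣ} (h : IsPrimitiveRoot ζ q) : Function.Injective (zp ζ h.pow_eq_one) := by
  have h1 : Function.Injective (ZMod.lift q (A := Additive Rˣ)
      ⟨zmultiplesHom (Additive Rˣ) (Additive.ofMul ζ), by
        change (((q : ℕ) : ℤ) • Additive.ofMul ζ : Additive Rˣ) = 0
        rw [natCast_zsmul]
        change Additive.ofMul (ζ ^ q) = 0
        rw [h.pow_eq_one]
        rfl⟩) := by
    rw [ZMod.lift_injective]
    intro m hm
    change (m • Additive.ofMul ζ : Additive Rˣ) = 0 at hm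
    have h2 : ζ ^ m = 1 := Additive.ofMul.injective hm
    rw [ZMod.intCast_zmod_eq_zero_iff_dvd]
    exact (h.zpow_eq_one_iff_dvd m).mp h2
  intro a b hab
  exact h1 hab

theorem zp_map {R' : Type} [CommRing R'] (r : R →+* R') (ζ : Rˣ) (h : ζ ^ q = 1)
    (h' : (Units.map (r : R →* R') ζ) ^ q = 1) (a : Multiplicative (ZMod q)) :
    Units.map (r : R →* R') (zp ζ h a) = zp (Units.map (r : R →* R') ζ) h' a := by
  obtain ⟨m, hm⟩ := ZMod.intCast_surjective (Multiplicative.toAdd a)
  have h1 : a = Multiplicative.ofAdd ((m : ℤ) : ZMod q) := by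
    rw [hm]
    rfl
  have h2 : zp ζ h a = ζ ^ m := by
    rw [h1]
    change (ZMod.lift q _ ((m : ℤ) : ZMod q) : Additive Rˣ).toMul = ζ ^ m
    rw [ZMod.lift_coe]
    rfl
  have h3 : zp (Units.map (r : R →* R') ζ) h' a = (Units.map (r : R →* R') ζ) ^ m := by
    rw [h1]
    change (ZMod.lift q _ ((m : ℤ) : ZMod q) : Additive R'ˣ).toMul = _
    rw [ZMod.lift_coe]
    rfl
  rw [h2, h3, map_zpow]

end root

/-- The data for the group `M_n(Z/q) ⋊ A_n`. -/
def uInd {R : Type} [CommRing R] {n q : ℕ} (hq : 1 < q) {ζ : Rˣ} (hζ : IsPrimitiveRoot ζ q)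
    {G : Type} [Group G] (S : Fin n → Fin n → Prop) (ι : G →* Equiv.Perm (Fin n))
    (hι : Function.Injective ι) (hs : ∀ g, Equiv.Perm.sign (ι g) = 1)
    (hS : ∀ σ : Equiv.Perm (Fin n), (∀ i j, S (σ i) (σ j) ↔ S i j) ↔ ∃ g, ι g = σ) :
    Ind R (UG n q) (Mt n q) G where
  i := SemidirectProduct.inl
  j := SemidirectProduct.inr.comp (ι.codRestrict (alternatingGroup (Fin n)) fun g =>
    Equiv.Perm.mem_alternatingGroup.mpr (hs g))
  act := (am n q).comp SemidirectProduct.rightHom
  lam := (zp ζ hζ.pow_eq_one).comp (es S)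
  act_spec x v := by
    change SemidirectProduct.inl (am n q x.right v) = _
    have h1 : x = SemidirectProduct.inl x.left * SemidirectProduct.inr x.right :=
      (SemidirectProduct.inl_left_mul_inr_right x).symm
    conv_rhs => rw [h1]
    rw [mul_inv_rev, mul_assoc, mul_assoc, ← mul_assoc (SemidirectProduct.inl v),
      ← mul_assoc (SemidirectProduct.inr x.right), ← mul_assoc (SemidirectProduct.inr x.right),
      ← map_inv SemidirectProduct.inr, ← SemidirectProduct.inl_aut, ← map_inv, ← map_mul,
      ← map_mul]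
    congr 1
    rw [mul_comm, mul_assoc, inv_mul_cancel, mul_one]
  inj v g h := by
    have h1 := congrArg SemidirectProduct.left h
    have h2 := congrArg SemidirectProduct.right h
    simp only [MonoidHom.comp_apply, SemidirectProduct.mul_left, SemidirectProduct.left_inl,
      SemidirectProduct.right_inl, SemidirectProduct.left_inr, map_one, mul_one,
      SemidirectProduct.one_left] at h1
    simp only [MonoidHom.comp_apply, SemidirectProduct.mul_right, SemidirectProduct.right_inl,
      SemidirectProduct.right_inr, one_mul, SemidirectProduct.one_right] at h2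
    refine ⟨h1, hι ?_⟩
    rw [map_one]
    exact congrArg Subtype.val h2
  stab x := by
    have h1 : (∀ v, (zp ζ hζ.pow_eq_one).comp (es S) ((am n q).comp
        SemidirectProduct.rightHom x v) = (zp ζ hζ.pow_eq_one).comp (es S) v) ↔
        ∀ v, es S (pm n q (x.right : Equiv.Perm (Fin n)) v) = es S v :=
      forall_congr' fun v => ⟨fun h => zp_inj hζ h, fun h => congrArg (zp ζ hζ.pow_eq_one) h⟩
    rw [h1, es_stab S hq, hS]
    constructor
    · rintro ⟨g, hg⟩
      refine ⟨x.left, g, ?_⟩
      have h2 : (ι.codRestrict (alternatingGroup (Fin n)) fun g =>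
          Equiv.Perm.mem_alternatingGroup.mpr (hs g)) g = x.right := Subtype.ext hg
      rw [MonoidHom.comp_apply, h2, SemidirectProduct.inl_left_mul_inr_right]
    · rintro ⟨v, g, rfl⟩
      refine ⟨g, ?_⟩
      rw [SemidirectProduct.mul_right, SemidirectProduct.right_inl, one_mul]
      rfl

instance finite_UG (n q : ℕ) [NeZero q] : Finite (UG n q) := by
  haveI : Finite (Mt n q) := inferInstanceAs (Finite (Matrix (Fin n) (Fin n) (ZMod q)))
  exact Finite.of_equiv _ SemidirectProduct.equivProd.symm

theorem card_Mt (n q : ℕ) : Nat.card (Mt n q) = q ^ (n * n) := by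
  change Nat.card (Matrix (Fin n) (Fin n) (ZMod q)) = _
  change Nat.card (Fin n → Fin n → ZMod q) = _
  rw [Nat.card_fun, Nat.card_fun, Nat.card_zmod, Nat.card_eq_fintype_card, Fintype.card_fin,
    ← pow_mul]

end Pool.Agent.H373.BU
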