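import Pool.Agent.H373.BU.B1

/-!
# The dimension of the centre of a block
-/

set_option autoImplicit false
set_option linter.unusedSectionVars false
set_option linter.style.haveILetI false

open scoped BigOperators Classical

noncomputable section

namespace Pool.Agent.H373.BU

open MonoidAlgebra

/-- The number `k(B)` of irreducible ordinary characters of the block `B = k G e`, i.e. the dimension
of the centre `Z(kG) e` of `B`. -/
def kB {k G : Type} [Field k] [Group G] (e : MonoidAlgebra k G) : ℕ :=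
  Module.finrank k (Submodule.map (LinearMap.mulRight k e)
    (Subalgebra.toSubmodule (Subalgebra.center k (MonoidAlgebra k G))))

namespace Ind

variable {k X V G : Type} [Field k] [Group X] [CommGroup V] [Group G] [Fintype X] [Fintype V]
  (I : Ind k X V G) {u : k} (hu : u * (Fintype.card V : k) = 1)

/-- the linear map `cen` -/
def cenL (u : k) : MonoidAlgebra k G →ₗ[k] MonoidAlgebra k X where
  toFun := I.cen u
  map_add' := I.cen_add
  map_smul' := I.cen_smul

include hu in
theorem kB_cen {e : MonoidAlgebra k G} (he : e * e = e) (hc : ∀ a, e * a = a * e) :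
    kB (I.cen u e) = kB e := by
  have hinj : Function.Injective (I.cenL u) := fun a b h => I.cen_inj hu h
  unfold kB
  have h1 : Submodule.map (LinearMap.mulRight k (I.cen u e))
      (Subalgebra.toSubmodule (Subalgebra.center k (MonoidAlgebra k X))) =
      Submodule.map (I.cenL u) (Submodule.map (LinearMap.mulRight k e)
        (Subalgebra.toSubmodule (Subalgebra.center k (MonoidAlgebra k G)))) := by
    apply le_antisymm
    · rintro _ ⟨w, hw, rfl⟩
      have hw' : ∀ a, w * a = a * w := fun a =>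
        ((Subalgebra.mem_center_iff (R := k)).mp hw a).symm
      have hcc : ∀ a, w * I.cen u e * a = a * (w * I.cen u e) := by
        intro a
        rw [mul_assoc, I.cen_comm hu hc, ← mul_assoc, hw', mul_assoc]
      have hE : I.El u * (w * I.cen u e) = w * I.cen u e := by
        rw [← mul_assoc, ← hw', mul_assoc, I.El_cen hu]
      obtain ⟨z, hz, hz'⟩ := I.exists_cen hu hcc hE
      refine ⟨z * e, ⟨z, (Subalgebra.mem_center_iff (R := k)).mpr fun a => (hz a).symm, rfl⟩, ?_⟩
      change I.cen u (z * e) = w * I.cen u e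
      rw [I.cen_mul hu, hz', mul_assoc, ← I.cen_mul hu, he]
    · rintro _ ⟨_, ⟨z, hz, rfl⟩, rfl⟩
      have hz' : ∀ a, z * a = a * z := fun a =>
        ((Subalgebra.mem_center_iff (R := k)).mp hz a).symm
      refine ⟨I.cen u z, (Subalgebra.mem_center_iff (R := k)).mpr fun a => (I.cen_comm hu hz' a).symm, ?_⟩
      change I.cen u z * I.cen u e = I.cen u (z * e)
      rw [I.cen_mul hu]
  rw [h1]
  exact (LinearEquiv.finrank_eq (Submodule.equivMapOfInjective (I.cenL u) hinj _)).symm

end Ind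

/-- There are a block `B = k G e` of `kG` with a defect group which is isomorphic to `P`, such that
`k(B) = m`. -/
def Att (k P : Type) [Field k] [Group P] (m : ℕ) (G : Type) [Group G] : Prop :=
  ∃ (e : MonoidAlgebra k G) (D : Subgroup G), IsBlock e ∧ IsMinTr D e ∧ Nonempty (D ≃* P) ∧
    kB e = m

/-- The `k(B)` conjecture for the blocks of `kG`. -/
def KB (k G : Type) [Field k] [Group G] : Prop :=
  ∀ e : MonoidAlgebra k G, IsBlock e → ∀ D : Subgroup G, IsMinTr D e → kB e ≤ Nat.card D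

theorem exists_root {p q : ℕ} (k : Type) [Field k] [IsAlgClosed k] [CharP k p]
    (hpq : ¬ (q : k) = 0) : ∃ ζ : kˣ, IsPrimitiveRoot ζ q := by
  haveI : NeZero (q : k) := ⟨hpq⟩
  haveI : NeZero q := ⟨by rintro rfl; exact hpq Nat.cast_zero⟩
  obtain ⟨ζ, hζ⟩ := HasEnoughRootsOfUnity.exists_primitiveRoot k q
  exact ⟨(hζ.isUnit (NeZero.ne q)).unit, IsPrimitiveRoot.coe_units_iff.mp (by
    rwa [IsUnit.unit_spec])⟩

theorem att_universal {p : ℕ} [hp : Fact p.Prime] {k : Type} [Field k] [IsAlgClosed k] [CharP k p]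
    {q : ℕ} (hq : 1 < q) (hpq : ¬ p ∣ q) {P : Type} [Group P] {m : ℕ} {G : Type} [Group G]
    [Finite G] (h : Att k P m G) {n : ℕ} (hn : Nat.card G ^ 2 + 3 * Nat.card G ≤ n) :
    Att k P m (UG n q) := by
  haveI : NeZero q := ⟨by omega⟩
  haveI := Fintype.ofFinite G
  haveI := Fintype.ofFinite (UG n q)
  haveI : Finite (Mt n q) := inferInstanceAs (Finite (Matrix (Fin n) (Fin n) (ZMod q)))
  haveI := Fintype.ofFinite (Mt n q)
  have hqk : ¬ (q : k) = 0 := by rwa [CharP.cast_eq_zero_iff k p]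
  obtain ⟨ζ, hζ⟩ := exists_root (p := p) k hqk
  obtain ⟨S, ι, hι, hs, hS⟩ := UM.exists_rel (H := G) (n := n) (by
    rwa [← Nat.card_eq_fintype_card])
  let I := uInd hq hζ S ι hι hs hS
  have hV : (Fintype.card (Mt n q) : k) ≠ 0 := by
    rw [← Nat.card_eq_fintype_card, card_Mt, Nat.cast_pow]
    exact pow_ne_zero _ hqk
  have hu : ((Fintype.card (Mt n q) : k)⁻¹) * (Fintype.card (Mt n q) : k) = 1 :=
    inv_mul_cancel₀ hV
  obtain ⟨e, D, he, hD, ⟨f⟩, hm⟩ := h
  refine ⟨I.cen _ e, D.map I.j, I.cen_isBlock hu he, I.cen_isMinTr hu he hD,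
    ⟨(D.equivMapOfInjective I.j I.j_inj).symm.trans f⟩, ?_⟩
  rw [I.kB_cen hu he.idem he.central, hm]

/-- The theorem. -/
theorem kB_main (p : ℕ) [hp : Fact p.Prime] (k : Type) [Field k] [IsAlgClosed k] [CharP k p]
    (q : ℕ) (hq : 1 < q) (hpq : q.Coprime p) :
    (∀ (P : Type) [Group P] (m : ℕ) (G : Type) [Group G] [Finite G], Att k P m G →
      ∀ n, Nat.card G ^ 2 + 3 * Nat.card G ≤ n → Att k P m (UG n q)) ∧
    ∀ S : Set ℕ, S.Infinite →
      ((∀ (G : Type) [Group G] [Finite G], KB k G) ↔ ∀ n ∈ S, KB k (UG n q)) := by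
  have hpq' : ¬ p ∣ q := fun h => hp.out.one_lt.ne' (by
    have := Nat.dvd_gcd h (dvd_refl p)
    rw [hpq] at this
    exact Nat.dvd_one.mp this)
  haveI : NeZero q := ⟨by omega⟩
  refine ⟨fun P _ m G _ _ h n hn => att_universal (p := p) hq hpq' h hn, fun S hS => ⟨?_, ?_⟩⟩
  · exact fun h n _ => h (UG n q)
  · intro h G _ _ e he D hD
    obtain ⟨n, hnS, hn⟩ := hS.exists_gt (Nat.card G ^ 2 + 3 * Nat.card G)
    obtain ⟨e', D', he', hD', ⟨f⟩, hm⟩ := att_universal (p := p) hq hpq'
      (⟨e, D, he, hD, ⟨MulEquiv.refl _⟩, rfl⟩ : Att k D (kB e) G) hn.le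
    rw [← hm, ← Nat.card_congr f.toEquiv]
    exact h n hnS e' he' D' hD'

end Pool.Agent.H373.BU
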