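import Mathlib

/-!
# Equivalent abelian categories have equivalent bounded derived categories
-/

set_option autoImplicit false
set_option linter.unusedSectionVars false
set_option linter.style.haveILetI false

open CategoryTheory Limits Category

noncomputable section

namespace Pool.Agent.H373.BU

universe v₁ v₂ v₃ u₁ u₂ u₃ w₁ w₂ w₃

section

variable {C : Type u₁} [Category.{v₁} C] [Abelian C]
  {D : Type u₂} [Category.{v₂} D] [Abelian D]

/-- the natural transformation induced on complexes -/
def mapUnit (F : C ⥤ D) (G : D ⥤ C) [F.PreservesZeroMorphisms] [G.PreservesZeroMorphisms]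
    (α : 𝟭 C ⟶ F ⋙ G) (c : ComplexShape ℤ) :
    𝟭 (HomologicalComplex C c) ⟶ F.mapHomologicalComplex c ⋙ G.mapHomologicalComplex c where
  app K :=
    { f := fun i => α.app (K.X i)
      comm' := fun i j _ => by
        have := α.naturality (K.d i j)
        exact this.symm }
  naturality K L f := by
    ext i
    exact α.naturality (f.f i)

theorem isIso_mapUnit (F : C ⥤ D) (G : D ⥤ C) [F.PreservesZeroMorphisms]
    [G.PreservesZeroMorphisms] (α : 𝟭 C ⟶ F ⋙ G) (c : ComplexShape ℤ) [IsIso α]
    (K : HomologicalComplex C c) : IsIso ((mapUnit F G α c).app K) := by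
  haveI : ∀ i, IsIso (((mapUnit F G α c).app K).f i) := fun i =>
    inferInstanceAs (IsIso (α.app (K.X i)))
  exact HomologicalComplex.Hom.isIso_of_components _

theorem quasiIso_mapUnit (F : C ⥤ D) (G : D ⥤ C) [F.PreservesZeroMorphisms]
    [G.PreservesZeroMorphisms] (α : 𝟭 C ⟶ F ⋙ G) (c : ComplexShape ℤ) [IsIso α]
    (K : HomologicalComplex C c) :
    HomologicalComplex.quasiIso C c ((mapUnit F G α c).app K) := by
  haveI := isIso_mapUnit F G α c K
  exact MorphismProperty.of_isIso _ _

variable [HasDerivedCategory.{w₁} C] [HasDerivedCategory.{w₂} D]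

theorem isEquivalence_mapDerived (F : C ⥤ D) [F.IsEquivalence] [F.Additive]
    [PreservesFiniteLimits F] [PreservesFiniteColimits F] :
    F.mapDerivedCategory.IsEquivalence := by
  let G := F.inv
  haveI : G.Additive := Functor.additive_of_preserves_binary_products G
  let α : 𝟭 C ⟶ F ⋙ G := F.asEquivalence.unit
  let β : 𝟭 D ⟶ G ⋙ F := F.asEquivalence.counitInv
  haveI : IsIso α := inferInstanceAs (IsIso F.asEquivalence.unit)
  haveI : IsIso β := inferInstanceAs (IsIso F.asEquivalence.counitInv)
  let Φ := F.mapHomologicalComplexUpToQuasiIsoLocalizerMorphism (ComplexShape.up ℤ)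
  let Ψ := G.mapHomologicalComplexUpToQuasiIsoLocalizerMorphism (ComplexShape.up ℤ)
  haveI : Φ.IsLocalizedEquivalence := by
    refine Φ.isLocalizedEquivalence_of_unit_of_unit Ψ (mapUnit F G α (ComplexShape.up ℤ))
      (mapUnit G F β (ComplexShape.up ℤ)) ?_ ?_
    · exact fun K => quasiIso_mapUnit F G α (ComplexShape.up ℤ) K
    · exact fun K => quasiIso_mapUnit G F β (ComplexShape.up ℤ) K
  exact Φ.localizedFunctor_isEquivalence HomologicalComplexUpToQuasiIso.Q
    HomologicalComplexUpToQuasiIso.Q

open DerivedCategory DerivedCategory.TStructure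

theorem exactAt_map_iff (F : C ⥤ D) [F.Additive] [PreservesFiniteLimits F]
    [PreservesFiniteColimits F] [F.Faithful] (K : CochainComplex C ℤ) (i : ℤ) :
    ((F.mapHomologicalComplex (ComplexShape.up ℤ)).obj K).ExactAt i ↔ K.ExactAt i :=
  (K.sc i).exact_map_iff_of_faithful F

theorem isGE_map_iff (F : C ⥤ D) [F.Additive] [PreservesFiniteLimits F]
    [PreservesFiniteColimits F] [F.Faithful] (X : DerivedCategory C) (n : ℤ) :
    (F.mapDerivedCategory.obj X).IsGE n ↔ X.IsGE n := by
  let K := Q.objPreimage X
  let e : Q.obj K ≅ X := Q.objObjPreimageIso X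
  let e' : Q.obj ((F.mapHomologicalComplex (ComplexShape.up ℤ)).obj K) ≅
      F.mapDerivedCategory.obj X :=
    (F.mapDerivedCategoryFactors.app K).symm ≪≫ F.mapDerivedCategory.mapIso e
  have h1 : (Q.obj K).IsGE n ↔ X.IsGE n :=
    ⟨fun _ => TStructure.t.isGE_of_iso e n, fun _ => TStructure.t.isGE_of_iso e.symm n⟩
  have h2 : (Q.obj ((F.mapHomologicalComplex (ComplexShape.up ℤ)).obj K)).IsGE n ↔
      (F.mapDerivedCategory.obj X).IsGE n :=
    ⟨fun _ => TStructure.t.isGE_of_iso e' n, fun _ => TStructure.t.isGE_of_iso e'.symm n⟩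
  rw [← h1, ← h2, isGE_Q_obj_iff, isGE_Q_obj_iff, CochainComplex.isGE_iff,
    CochainComplex.isGE_iff]
  exact forall_congr' fun i => forall_congr' fun _ => exactAt_map_iff F K i

theorem isLE_map_iff (F : C ⥤ D) [F.Additive] [PreservesFiniteLimits F]
    [PreservesFiniteColimits F] [F.Faithful] (X : DerivedCategory C) (n : ℤ) :
    (F.mapDerivedCategory.obj X).IsLE n ↔ X.IsLE n := by
  let K := Q.objPreimage X
  let e : Q.obj K ≅ X := Q.objObjPreimageIso X
  let e' : Q.obj ((F.mapHomologicalComplex (ComplexShape.up ℤ)).obj K) ≅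
      F.mapDerivedCategory.obj X :=
    (F.mapDerivedCategoryFactors.app K).symm ≪≫ F.mapDerivedCategory.mapIso e
  have h1 : (Q.obj K).IsLE n ↔ X.IsLE n :=
    ⟨fun _ => TStructure.t.isLE_of_iso e n, fun _ => TStructure.t.isLE_of_iso e.symm n⟩
  have h2 : (Q.obj ((F.mapHomologicalComplex (ComplexShape.up ℤ)).obj K)).IsLE n ↔
      (F.mapDerivedCategory.obj X).IsLE n :=
    ⟨fun _ => TStructure.t.isLE_of_iso e' n, fun _ => TStructure.t.isLE_of_iso e'.symm n⟩
  rw [← h1, ← h2, isLE_Q_obj_iff, isLE_Q_obj_iff, CochainComplex.isLE_iff,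
    CochainComplex.isLE_iff]
  exact forall_congr' fun i => forall_congr' fun _ => exactAt_map_iff F K i

theorem bounded_map_iff (F : C ⥤ D) [F.Additive] [PreservesFiniteLimits F]
    [PreservesFiniteColimits F] [F.Faithful] (X : DerivedCategory C) :
    (t : Triangulated.TStructure (DerivedCategory D)).bounded (F.mapDerivedCategory.obj X) ↔
      (t : Triangulated.TStructure (DerivedCategory C)).bounded X :=
  and_congr (exists_congr fun n => isGE_map_iff F X n) (exists_congr fun n => isLE_map_iff F X n)

/-- equivalent abelian categories have equivalent bounded derived categories -/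
theorem exists_bounded (F : C ⥤ D) [F.IsEquivalence] :
    ∃ (H : DerivedCategory.Bounded C ⥤ DerivedCategory.Bounded D) (_ : H.CommShift ℤ),
      H.IsEquivalence ∧ H.IsTriangulated := by
  haveI : F.Additive := Functor.additive_of_preserves_binary_products F
  haveI := isEquivalence_mapDerived F
  have hF : ∀ X : DerivedCategory.Bounded C,
      (t : Triangulated.TStructure (DerivedCategory D)).bounded
        ((Bounded.ι ⋙ F.mapDerivedCategory).obj X) :=
    fun X => (bounded_map_iff F X.obj).mpr X.property
  let H : DerivedCategory.Bounded C ⥤ DerivedCategory.Bounded D :=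
    (t : Triangulated.TStructure (DerivedCategory D)).bounded.lift
      (Bounded.ι ⋙ F.mapDerivedCategory) hF
  refine ⟨H, inferInstance, ?_, inferInstance⟩
  haveI : H.Faithful := inferInstance
  haveI : H.Full := inferInstance
  haveI : H.EssSurj := by
    refine ⟨fun Y => ?_⟩
    let X := F.mapDerivedCategory.objPreimage Y.obj
    let e : F.mapDerivedCategory.obj X ≅ Y.obj := F.mapDerivedCategory.objObjPreimageIso Y.obj
    have hX : (t : Triangulated.TStructure (DerivedCategory C)).bounded X := by
      rw [← bounded_map_iff F X]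
      exact ObjectProperty.prop_of_iso _ e.symm Y.property
    exact ⟨⟨X, hX⟩, ⟨ObjectProperty.isoMk _ e⟩⟩
  exact {}

end

end Pool.Agent.H373.BU
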