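import Pool.Agent.H373.BU.C1
import Pool.Agent.H373.BU.B1

/-!
# Derived equivalences and block algebras
-/

set_option autoImplicit false
set_option linter.unusedSectionVars false
set_option linter.style.haveILetI false

open CategoryTheory Limits Category

noncomputable section

namespace Pool.Agent.H373.BU

section Db

universe v u

variable (C : Type u) [Category.{v} C] [Abelian C]

/-- The bounded derived category of an abelian category (Mathlib's `DerivedCategory.Bounded`). -/
def Dbc : Type (max u v) :=
  letI := HasDerivedCategory.standard C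
  DerivedCategory.Bounded C

instance : Category.{max u v} (Dbc C) :=
  letI := HasDerivedCategory.standard C
  (inferInstance : Category (DerivedCategory.Bounded C))

instance : HasShift (Dbc C) ℤ :=
  letI := HasDerivedCategory.standard C
  (inferInstance : HasShift (DerivedCategory.Bounded C) ℤ)

instance : HasZeroObject (Dbc C) :=
  letI := HasDerivedCategory.standard C
  (inferInstance : HasZeroObject (DerivedCategory.Bounded C))

instance : Preadditive (Dbc C) :=
  letI := HasDerivedCategory.standard C
  (inferInstance : Preadditive (DerivedCategory.Bounded C))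

instance (n : ℤ) : (shiftFunctor (Dbc C) n).Additive :=
  letI := HasDerivedCategory.standard C
  (inferInstance : (shiftFunctor (DerivedCategory.Bounded C) n).Additive)

instance : Pretriangulated (Dbc C) :=
  letI := HasDerivedCategory.standard C
  (inferInstance : Pretriangulated (DerivedCategory.Bounded C))

end Db

/-- `C` and `D` are equivalent as triangulated categories. -/
def TriEq (C D : Type 1) [Category.{1} C] [Category.{1} D] [HasShift C ℤ] [HasShift D ℤ]
    [HasZeroObject C] [HasZeroObject D] [Preadditive C] [Preadditive D]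
    [∀ n : ℤ, (shiftFunctor C n).Additive] [∀ n : ℤ, (shiftFunctor D n).Additive]
    [Pretriangulated C] [Pretriangulated D] : Prop :=
  ∃ (F : C ⥤ D) (_ : F.CommShift ℤ), F.IsEquivalence ∧ F.IsTriangulated

/-- `D^b(A-Mod)` and `D^b(B-Mod)` are equivalent as triangulated categories. -/
def DbEq (A B : Type) [Ring A] [Ring B] : Prop :=
  TriEq (Dbc (ModuleCat.{0} A)) (Dbc (ModuleCat.{0} B))

theorem DbEq.trans {A B C : Type} [Ring A] [Ring B] [Ring C] (h1 : DbEq A B) (h2 : DbEq B C) :
    DbEq A C := by
  obtain ⟨F, hF, h3, h4⟩ := h1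
  obtain ⟨G, hG, h5, h6⟩ := h2
  exact ⟨F ⋙ G, inferInstance, inferInstance, inferInstance⟩

theorem DbEq.of_functor {A B : Type} [Ring A] [Ring B] (F : ModuleCat.{0} A ⥤ ModuleCat.{0} B)
    [F.IsEquivalence] : DbEq A B := by
  letI := HasDerivedCategory.standard (ModuleCat.{0} A)
  letI := HasDerivedCategory.standard (ModuleCat.{0} B)
  exact exists_bounded F

theorem DbEq.of_equivalence {A B : Type} [Ring A] [Ring B] (E : ModuleCat.{0} A ≌ ModuleCat.{0} B) :
    DbEq A B ∧ DbEq B A :=
  ⟨DbEq.of_functor E.functor, DbEq.of_functor E.inverse⟩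

theorem DbEq.matrix (A ι : Type) [Ring A] [Fintype ι] [DecidableEq ι] [Nonempty ι] :
    DbEq A (Matrix ι ι A) ∧ DbEq (Matrix ι ι A) A :=
  DbEq.of_equivalence (ModuleCat.matrixEquivalence A (Classical.arbitrary ι))

theorem DbEq.ringEquiv {A B : Type} [Ring A] [Ring B] (e : A ≃+* B) : DbEq A B ∧ DbEq B A :=
  (DbEq.of_equivalence (ModuleCat.restrictScalarsEquivalenceOfRingEquiv e)).symm

/-- The block algebra `R G e`, the ring of all elements `e a e`, with identity `e`. -/
def BlockAlg {R G : Type} [CommRing R] [Group G] {e : MonoidAlgebra R G} (he : IsBlock e) :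
    Type :=
  IsIdempotentElem.Corner (show IsIdempotentElem e from he.idem)

instance {R G : Type} [CommRing R] [Group G] {e : MonoidAlgebra R G} (he : IsBlock e) :
    Ring (BlockAlg he) :=
  inferInstanceAs (Ring (IsIdempotentElem.Corner (show IsIdempotentElem e from he.idem)))

namespace Ind

open scoped Classical

variable {R X V G : Type} [CommRing R] [Group X] [CommGroup V] [Group G] [Fintype X] [Fintype V]
  [IsDomain R] (I : Ind R X V G) {u : R} (hu : u * (Fintype.card V : R) = 1)
  {e : MonoidAlgebra R G} (he : IsBlock e)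

/-- the inclusion of the block algebra -/
def vl {R G : Type} [CommRing R] [Group G] {e : MonoidAlgebra R G} (he : IsBlock e) :
    BlockAlg he →ₙ+* MonoidAlgebra R G where
  toFun := Subtype.val
  map_mul' _ _ := rfl
  map_zero' := rfl
  map_add' _ _ := rfl

theorem vl_inj {R G : Type} [CommRing R] [Group G] {e : MonoidAlgebra R G} (he : IsBlock e) :
    Function.Injective (vl he) := Subtype.val_injective

theorem vl_left {R G : Type} [CommRing R] [Group G] {e : MonoidAlgebra R G} (he : IsBlock e)
    (a : BlockAlg he) : e * vl he a = vl he a :=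
  ((Subsemigroup.mem_corner_iff (show IsIdempotentElem e from he.idem)).mp a.2).1

theorem vl_right {R G : Type} [CommRing R] [Group G] {e : MonoidAlgebra R G} (he : IsBlock e)
    (a : BlockAlg he) : vl he a * e = vl he a :=
  ((Subsemigroup.mem_corner_iff (show IsIdempotentElem e from he.idem)).mp a.2).2

theorem exists_vl {R G : Type} [CommRing R] [Group G] {e : MonoidAlgebra R G} (he : IsBlock e)
    {a : MonoidAlgebra R G} (h1 : e * a = a) (h2 : a * e = a) : ∃ b, vl he b = a :=
  ⟨⟨a, (Subsemigroup.mem_corner_iff (show IsIdempotentElem e from he.idem)).mpr ⟨h1, h2⟩⟩, rfl⟩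

/-- the underlying matrix over the group algebra -/
def vm (m : Matrix I.Q I.Q (BlockAlg he)) : Matrix I.Q I.Q (MonoidAlgebra R G) :=
  Matrix.of fun p q => vl he (m p q)

theorem vm_inj {m n : Matrix I.Q I.Q (BlockAlg he)} (h : I.vm he m = I.vm he n) : m = n := by
  ext1 p q
  exact vl_inj he (congrFun (congrFun h p) q)

theorem vm_mul (m n : Matrix I.Q I.Q (BlockAlg he)) :
    I.vm he (m * n) = I.vm he m * I.vm he n := by
  ext1 p q
  change vl he ((m * n) p q) = ∑ r, vl he (m p r) * vl he (n r q)
  rw [Matrix.mul_apply, map_sum]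
  exact Finset.sum_congr rfl fun r _ => map_mul _ _ _

theorem vm_add (m n : Matrix I.Q I.Q (BlockAlg he)) :
    I.vm he (m + n) = I.vm he m + I.vm he n := rfl

theorem vm_left (m : Matrix I.Q I.Q (BlockAlg he)) :
    Matrix.scalar I.Q e * I.vm he m = I.vm he m := by
  ext1 p q
  rw [Matrix.scalar_apply, Matrix.diagonal_mul]
  exact vl_left he _

theorem vm_right (m : Matrix I.Q I.Q (BlockAlg he)) :
    I.vm he m * Matrix.scalar I.Q e = I.vm he m := by
  ext1 p q
  rw [Matrix.scalar_apply, Matrix.mul_diagonal]
  exact vl_right he _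

theorem exists_vm {a : Matrix I.Q I.Q (MonoidAlgebra R G)} (h1 : Matrix.scalar I.Q e * a = a)
    (h2 : a * Matrix.scalar I.Q e = a) : ∃ m, I.vm he m = a := by
  have h : ∀ p q, ∃ b, vl he b = a p q := by
    intro p q
    refine exists_vl he ?_ ?_
    · have := congrFun (congrFun h1 p) q
      rwa [Matrix.scalar_apply, Matrix.diagonal_mul] at this
    · have := congrFun (congrFun h2 p) q
      rwa [Matrix.scalar_apply, Matrix.mul_diagonal] at this
  choose f hf using h
  refine ⟨Matrix.of f, ?_⟩
  ext1 p q
  exact hf p q

include hu in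
theorem exists_psi (m : Matrix I.Q I.Q (BlockAlg he)) :
    ∃ b, vl (I.cen_isBlock hu he) b = I.Psi u (I.vm he m) := by
  refine exists_vl _ ?_ ?_
  · rw [cen, ← I.Psi_mul hu, vm_left]
  · rw [cen, ← I.Psi_mul hu, vm_right]

/-- the isomorphism of the block algebras -/
def blockEquiv : Matrix I.Q I.Q (BlockAlg he) ≃+* BlockAlg (I.cen_isBlock hu he) :=
  RingEquiv.ofBijective
    ({ toFun := fun m => (I.exists_psi hu he m).choose
       map_one' := by
        apply vl_inj
        rw [(I.exists_psi hu he 1).choose_spec]
        change _ = I.cen u e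
        rw [cen]
        congr 1
        ext1 p q
        change vl he ((1 : Matrix I.Q I.Q (BlockAlg he)) p q) = _
        rw [Matrix.scalar_apply]
        by_cases h : p = q
        · subst h
          rw [Matrix.one_apply_eq, Matrix.diagonal_apply_eq]
          rfl
        · rw [Matrix.one_apply_ne h, Matrix.diagonal_apply_ne _ h, map_zero]
       map_mul' := fun m n => by
        apply vl_inj
        rw [(I.exists_psi hu he _).choose_spec, map_mul, (I.exists_psi hu he m).choose_spec,
          (I.exists_psi hu he n).choose_spec, vm_mul, I.Psi_mul hu]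
       map_zero' := by
        apply vl_inj
        rw [(I.exists_psi hu he _).choose_spec, map_zero]
        have : I.vm he 0 = 0 := rfl
        rw [this, map_zero]
       map_add' := fun m n => by
        apply vl_inj
        rw [(I.exists_psi hu he _).choose_spec, map_add, (I.exists_psi hu he m).choose_spec,
          (I.exists_psi hu he n).choose_spec, vm_add, map_add] } :
      Matrix I.Q I.Q (BlockAlg he) →+* BlockAlg (I.cen_isBlock hu he)) (by
    constructor
    · intro m n h
      have h1 := congrArg (vl (I.cen_isBlock hu he)) h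
      change vl (I.cen_isBlock hu he) (I.exists_psi hu he m).choose =
        vl (I.cen_isBlock hu he) (I.exists_psi hu he n).choose at h1
      rw [(I.exists_psi hu he m).choose_spec, (I.exists_psi hu he n).choose_spec] at h1
      exact I.vm_inj he (I.Psi_inj hu h1)
    · intro b
      have h1 := vl_left (I.cen_isBlock hu he) b
      have h2 := vl_right (I.cen_isBlock hu he) b
      obtain ⟨m, hm⟩ := I.exists_vm he (a := I.Pi (vl _ b))
        (by rw [← I.Pi_cen hu, ← map_mul, h1]) (by rw [← I.Pi_cen hu, ← map_mul, h2])
      refine ⟨m, ?_⟩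
      apply vl_inj
      change vl (I.cen_isBlock hu he) (I.exists_psi hu he m).choose = _
      rw [(I.exists_psi hu he m).choose_spec, hm, Psi_Pi_left]
      rw [← h1, ← mul_assoc, I.El_cen hu])

/-- the block algebras are derived equivalent -/
theorem dbEq_block : DbEq (BlockAlg he) (BlockAlg (I.cen_isBlock hu he)) ∧
    DbEq (BlockAlg (I.cen_isBlock hu he)) (BlockAlg he) := by
  haveI : Nonempty I.Q := ⟨QuotientGroup.mk 1⟩
  obtain ⟨h1, h2⟩ := DbEq.matrix (BlockAlg he) I.Q
  obtain ⟨h3, h4⟩ := DbEq.ringEquiv (I.blockEquiv hu he)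
  exact ⟨h1.trans h3, h4.trans h2⟩

end Ind

end Pool.Agent.H373.BU
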