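import Pool.Agent.H373.BU.A7

/-!
# Central idempotents over complete discrete valuation rings
-/

set_option autoImplicit false
set_option linter.unusedSectionVars false
set_option linter.style.haveILetI false

open scoped BigOperators Classical

noncomputable section

namespace Pool.Agent.H373.BU

open MonoidAlgebra

/-- reduction of the coefficients -/
abbrev red {R S : Type} [CommRing R] [CommRing S] (r : R →+* S) {G : Type} [Group G] :
    MonoidAlgebra R G →+* MonoidAlgebra S G := MonoidAlgebra.mapRingHom G r

section general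

variable {R S G : Type} [CommRing R] [CommRing S] [Group G] (r : R →+* S)

theorem red_coeff (a : MonoidAlgebra R G) (g : G) : (red r a).coeff g = r (a.coeff g) :=
  MonoidAlgebra.coeff_mapRingHom r a g

theorem ext_coeff {a b : MonoidAlgebra R G} (h : ∀ g, a.coeff g = b.coeff g) : a = b :=
  MonoidAlgebra.ext (Finsupp.ext h)

theorem central_iff_coeff [Finite G] (a : MonoidAlgebra R G) :
    (∀ b, a * b = b * a) ↔ ∀ x g : G, a.coeff (x⁻¹ * g * x) = a.coeff g := by
  rw [central_iff]
  refine forall_congr' fun x => ?_
  constructor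
  · intro h g
    rw [← cj_coeff, h]
  · intro h
    apply ext_coeff
    intro g
    rw [cj_coeff, h]

theorem red_central [Finite G] {a : MonoidAlgebra R G} (h : ∀ b, a * b = b * a) :
    ∀ b, red r a * b = b * red r a := by
  rw [central_iff_coeff] at h ⊢
  intro x g
  rw [red_coeff, red_coeff, h]

/-- an element with given coefficients -/
theorem exists_coeff [Finite G] (f : G → R) : ∃ a : MonoidAlgebra R G, ∀ g, a.coeff g = f g := by
  haveI := Fintype.ofFinite G
  refine ⟨∑ g, MonoidAlgebra.single g (f g), fun g => ?_⟩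
  rw [coeff_sum, Finset.sum_eq_single g]
  · rw [coeff_single, Finsupp.single_eq_same]
  · intro h _ hh
    rw [coeff_single, Finsupp.single_apply, if_neg hh]
  · intro h
    exact absurd (Finset.mem_univ _) h

end general

section complete

open IsLocalRing

variable {L G : Type} [CommRing L] [IsDomain L] [IsDiscreteValuationRing L]
  [IsAdicComplete (maximalIdeal L) L] [Group G] [Finite G]

/-- the centre of the group ring -/
def Z (L G : Type) [CommRing L] [Group G] : Type := Subalgebra.center L (MonoidAlgebra L G)

instance instCR (L G : Type) [CommRing L] [Group G] : CommRing (Z L G) :=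
  inferInstanceAs (CommRing (Subalgebra.center L (MonoidAlgebra L G)))

/-- the inclusion of the centre -/
def vz {L G : Type} [CommRing L] [Group G] : Z L G →+* MonoidAlgebra L G where
  toFun := Subtype.val
  map_one' := rfl
  map_mul' _ _ := rfl
  map_zero' := rfl
  map_add' _ _ := rfl

theorem vz_inj {L G : Type} [CommRing L] [Group G] : Function.Injective (vz (L := L) (G := G)) :=
  Subtype.val_injective

theorem vz_comm {L G : Type} [CommRing L] [Group G] (x : Z L G) (b : MonoidAlgebra L G) :
    vz x * b = b * vz x := ((Subalgebra.mem_center_iff (R := L)).mp x.2 b).symm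

theorem exists_vz {L G : Type} [CommRing L] [Group G] {a : MonoidAlgebra L G}
    (h : ∀ b, a * b = b * a) : ∃ x : Z L G, vz x = a :=
  ⟨⟨a, (Subalgebra.mem_center_iff (R := L)).mpr fun b => (h b).symm⟩, rfl⟩

instance (L G : Type) [CommRing L] [Nontrivial L] [Group G] : Nontrivial (Z L G) :=
  ⟨⟨1, 0, fun h => by
    have h1 := congrArg vz h
    rw [map_one, map_zero] at h1
    exact one_ne_zero h1⟩⟩

theorem exists_cst (c : L) : ∃ x : Z L G, vz x = MonoidAlgebra.single 1 c := by
  refine exists_vz fun b => ?_
  induction b using MonoidAlgebra.induction_linear with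
  | zero => simp
  | add a b ha hb => rw [mul_add, ha, hb, add_mul]
  | single x r =>
    rw [MonoidAlgebra.single_mul_single, MonoidAlgebra.single_mul_single, one_mul, mul_one,
      mul_comm]

/-- the constants -/
def cst (c : L) : Z L G := (exists_cst c).choose

theorem vz_cst (c : L) : vz (cst (G := G) c) = MonoidAlgebra.single 1 c :=
  (exists_cst (G := G) c).choose_spec

theorem cst_pow (c : L) (n : ℕ) : cst (G := G) c ^ n = cst (c ^ n) := by
  apply vz_inj
  rw [map_pow, vz_cst, vz_cst, MonoidAlgebra.single_pow, one_pow]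

theorem coeff_cst_mul (c : L) (y : Z L G) (g : G) :
    (vz (cst c * y)).coeff g = c * (vz y).coeff g := by
  rw [map_mul, vz_cst, coeff_single_mul_apply, inv_one, one_mul]

/-- the ideal of the centre generated by the uniformizer -/
def J (w : L) : Ideal (Z L G) := Ideal.span {cst w}

theorem mem_J_pow {w : L} (hw : w ≠ 0) (n : ℕ) (x : Z L G) :
    x ∈ (J (G := G) w) ^ n ↔ ∀ g, (vz x).coeff g ∈ Ideal.span {w} ^ n := by
  unfold J
  rw [Ideal.span_singleton_pow, Ideal.mem_span_singleton, cst_pow]
  constructor
  · rintro ⟨y, rfl⟩ g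
    rw [Ideal.span_singleton_pow, Ideal.mem_span_singleton, coeff_cst_mul]
    exact ⟨_, rfl⟩
  · intro h
    have h1 : ∀ g, ∃ c, (vz x).coeff g = w ^ n * c := by
      intro g
      have := h g
      rwa [Ideal.span_singleton_pow, Ideal.mem_span_singleton] at this
    choose f hf using h1
    obtain ⟨a, ha⟩ := exists_coeff f
    have hac : ∀ b, a * b = b * a := by
      rw [central_iff_coeff]
      intro x' g
      have hx := vz_comm x
      rw [central_iff_coeff] at hx
      have h2 := hx x' g
      rw [hf, hf] at h2
      rw [ha, ha]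
      exact mul_left_cancel₀ (pow_ne_zero n hw) h2
    obtain ⟨y, hy⟩ := exists_vz hac
    refine ⟨y, ?_⟩
    apply vz_inj
    apply ext_coeff
    intro g
    rw [coeff_cst_mul, hf, hy, ha]

theorem isAdicComplete_Z {w : L} (hw : w ≠ 0) (hm : maximalIdeal L = Ideal.span {w}) :
    IsAdicComplete (J (G := G) w) (Z L G) := by
  have hsm : ∀ (n : ℕ) (x y : Z L G), x ≡ y [SMOD ((J (G := G) w) ^ n • ⊤ : Submodule (Z L G) _)] ↔
      ∀ g, (vz x).coeff g ≡ (vz y).coeff g
        [SMOD ((maximalIdeal L) ^ n • ⊤ : Submodule L L)] := by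
    intro n x y
    rw [SModEq.sub_mem, Ideal.smul_eq_mul, Ideal.mul_top, mem_J_pow hw]
    refine forall_congr' fun g => ?_
    rw [SModEq.sub_mem, Ideal.smul_eq_mul, Ideal.mul_top, hm]
    rfl
  refine { haus' := ?_, prec' := ?_ }
  · intro x hx
    apply vz_inj
    apply ext_coeff
    intro g
    exact IsHausdorff.haus (inferInstance : IsHausdorff (maximalIdeal L) L) _ fun n =>
      (hsm n x 0).mp (hx n) g
  · intro f hf
    have h1 : ∀ g : G, ∃ l : L, ∀ n, (vz (f n)).coeff g ≡ l
        [SMOD ((maximalIdeal L) ^ n • ⊤ : Submodule L L)] := by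
      intro g
      exact IsPrecomplete.prec (inferInstance : IsPrecomplete (maximalIdeal L) L)
        (f := fun n => (vz (f n)).coeff g)
        (fun {m n} hmn => (hsm m _ _).mp (hf hmn) g)
    choose l hl using h1
    obtain ⟨a, ha⟩ := exists_coeff l
    have hac : ∀ b, a * b = b * a := by
      rw [central_iff_coeff]
      intro x g
      rw [ha, ha, ← sub_eq_zero]
      refine IsHausdorff.haus (inferInstance : IsHausdorff (maximalIdeal L) L) _ fun n => ?_
      have h2 := hl (x⁻¹ * g * x) n
      have h3 := hl g n
      have hx := vz_comm (f n)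
      rw [central_iff_coeff] at hx
      rw [hx] at h2
      have h4 := (h2.symm.trans h3)
      have h5 := h4.sub (SModEq.refl (l g))
      rwa [sub_self] at h5
    obtain ⟨y, hy⟩ := exists_vz hac
    refine ⟨y, fun n => ?_⟩
    rw [hsm]
    intro g
    rw [hy, ha]
    exact hl g n

/-- the residue map -/
abbrev rs (L : Type) [CommRing L] [IsLocalRing L] : L →+* ResidueField L := residue L

theorem exists_uniformizer : ∃ w : L, w ≠ 0 ∧ maximalIdeal L = Ideal.span {w} := by
  obtain ⟨w, hw⟩ := IsDiscreteValuationRing.exists_irreducible L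
  exact ⟨w, hw.ne_zero, hw.maximalIdeal_eq⟩

theorem mem_J_iff {w : L} (hw : w ≠ 0) (hm : maximalIdeal L = Ideal.span {w}) (x : Z L G) :
    x ∈ J (G := G) w ↔ red (rs L) (vz x) = 0 := by
  have h1 := mem_J_pow (G := G) hw 1 x
  rw [pow_one, pow_one] at h1
  rw [h1, ← hm]
  constructor
  · intro h
    apply ext_coeff
    intro g
    rw [red_coeff]
    exact (IsLocalRing.residue_eq_zero_iff _).mpr (h g)
  · intro h g
    rw [← IsLocalRing.residue_eq_zero_iff]
    have := congrArg (fun b => b.coeff g) h
    simp only [red_coeff] at this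
    exact this

/-- lifting of central idempotents -/
theorem exists_lift {f : MonoidAlgebra (ResidueField L) G} (hf : f * f = f)
    (hc : ∀ a, f * a = a * f) :
    ∃ e : MonoidAlgebra L G, e * e = e ∧ (∀ a, e * a = a * e) ∧ red (rs L) e = f := by
  obtain ⟨w, hw, hm⟩ := exists_uniformizer (L := L)
  haveI := isAdicComplete_Z (G := G) hw hm
  obtain ⟨s, hs⟩ := (IsLocalRing.residue_surjective (R := L)).hasRightInverse
  obtain ⟨a, ha⟩ := exists_coeff fun g : G => s (f.coeff g)
  have hac : ∀ b, a * b = b * a := by
    rw [central_iff_coeff] at hc ⊢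
    intro x g
    rw [ha, ha, hc]
  obtain ⟨a', ha'⟩ := exists_vz hac
  have hra : red (rs L) a = f := by
    apply ext_coeff
    intro g
    rw [red_coeff, ha]
    exact hs _
  have hJ : ∀ x : Z L G, x ∈ J (G := G) w ↔ red (rs L) (vz x) = 0 := mem_J_iff hw hm
  have h0 : a' * a' - a' ∈ J (G := G) w := by
    rw [hJ, map_sub, map_mul, ha', map_sub, map_mul, hra, hf, sub_self]
  obtain ⟨e, he, hea⟩ := HenselianRing.is_henselian (I := J (G := G) w)
    (Polynomial.X ^ 2 - Polynomial.X : Polynomial (Z L G)) (by
      refine Polynomial.monic_X_pow_sub ?_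
      rw [Polynomial.degree_X]
      norm_num) a' (by
      rw [Polynomial.eval_sub, Polynomial.eval_pow, Polynomial.eval_X, pow_two]
      exact h0) (by
      rw [isUnit_iff_exists_inv]
      refine ⟨Ideal.Quotient.mk _ (2 * a' - 1), ?_⟩
      rw [← map_mul, ← map_one (Ideal.Quotient.mk (J (G := G) w)), Ideal.Quotient.eq]
      have h1 : (Polynomial.eval a' (Polynomial.derivative
          (Polynomial.X ^ 2 - Polynomial.X : Polynomial (Z L G)))) * (2 * a' - 1) - 1 =
          4 * (a' * a' - a') := by
        rw [Polynomial.derivative_sub, Polynomial.derivative_X_pow, Polynomial.derivative_X]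
        simp only [Polynomial.eval_sub, Polynomial.eval_mul, Polynomial.eval_one,
          Polynomial.eval_X, Polynomial.eval_C, Polynomial.eval_pow]
        push_cast
        ring
      rw [h1]
      exact Ideal.mul_mem_left _ _ h0)
  refine ⟨vz e, ?_, vz_comm e, ?_⟩
  · rw [Polynomial.IsRoot.def, Polynomial.eval_sub, Polynomial.eval_pow, Polynomial.eval_X,
      sub_eq_zero, pow_two] at he
    rw [← map_mul, he]
  · rw [hJ, map_sub, map_sub, sub_eq_zero] at hea
    rw [hea, ha', hra]

/-- the reduction of a block idempotent is a block idempotent -/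
theorem red_isBlock {e : MonoidAlgebra L G} (he : IsBlock e) : IsBlock (red (rs L) e) where
  idem := by rw [← map_mul, he.idem]
  central := red_central _ he.central
  ne_zero h := by
    obtain ⟨w, hw, hm⟩ := exists_uniformizer (L := L)
    haveI := isAdicComplete_Z (G := G) hw hm
    obtain ⟨e', he'⟩ := exists_vz he.central
    have h1 : e' ∈ J (G := G) w := by
      rw [mem_J_iff hw hm, he', h]
    have h2 := HenselianRing.jac (I := J (G := G) w) h1
    rw [Ideal.mem_jacobson_bot] at h2
    have h3 := h2 (-1)
    rw [isUnit_iff_exists_inv] at h3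
    obtain ⟨b, hb⟩ := h3
    have h4 : e' * (e' * -1 + 1) = 0 := by
      have : e' * e' = e' := vz_inj (by rw [map_mul, he', he.idem])
      rw [mul_add, mul_one, mul_neg, mul_one, mul_neg, this, neg_add_cancel]
    have h5 : e' = 0 := by
      calc e' = e' * ((e' * -1 + 1) * b) := by rw [hb, mul_one]
        _ = 0 := by rw [← mul_assoc, h4, zero_mul]
    exact he.ne_zero (by rw [← he', h5, map_zero])
  primitive f hf hfc := by
    obtain ⟨e', h1, h2, h3⟩ := exists_lift hf hfc
    rcases he.primitive e' h1 h2 with h | h
    · left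
      rw [← h3, ← map_mul, h, map_zero]
    · right
      rw [← h3, ← map_mul, h]

end complete

end Pool.Agent.H373.BU
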