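import Pool.Agent.H373.BU.C2
import Pool.Agent.H373.BU.C3

/-!
# Broué's conjecture and the groups `M_n(Z/q) ⋊ A_n`
-/

set_option autoImplicit false
set_option linter.unusedSectionVars false
set_option linter.style.haveILetI false

open scoped BigOperators Classical

noncomputable section

namespace Pool.Agent.H373.BU

open MonoidAlgebra

namespace Ind

variable {R S X V G : Type} [CommRing R] [CommRing S] [Group X] [CommGroup V] [Group G]
  (I : Ind R X V G) (r : R →+* S) (h : ∀ v, r (I.lam v : R) = 1 → I.lam v = 1)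

/-- change of the ring -/
def map : Ind S X V G where
  i := I.i
  j := I.j
  act := I.act
  lam := (Units.map (r : R →* S)).comp I.lam
  act_spec := I.act_spec
  inj := I.inj
  stab x := by
    rw [← I.stab]
    refine forall_congr' fun v => ⟨fun h1 => ?_,
      fun h1 => congrArg (Units.map (r : R →* S)) h1⟩
    have h2 : I.lam (I.act x v * v⁻¹) = 1 := by
      apply h
      have h3 : (Units.map (r : R →* S)) (I.lam (I.act x v * v⁻¹)) = 1 := by
        rw [map_mul, map_mul, map_inv, map_inv]
        change (Units.map (r : R →* S)) (I.lam (I.act x v)) *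
          ((Units.map (r : R →* S)) (I.lam v))⁻¹ = 1
        change (Units.map (r : R →* S)) (I.lam (I.act x v)) =
          (Units.map (r : R →* S)) (I.lam v) at h1
        rw [h1, mul_inv_cancel]
      exact congrArg Units.val h3
    rw [map_mul, map_inv, mul_inv_eq_one] at h2
    exact h2

theorem red_el (x : X) : red r (el R x) = el S x := by
  change MonoidAlgebra.mapRingHom X r (MonoidAlgebra.single x 1) = _
  rw [MonoidAlgebra.mapRingHom_single, map_one]

variable [Fintype X]

theorem red_io (z : MonoidAlgebra R G) : red r (I.io z) = (I.map r h).io (red r z) := by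
  induction z using MonoidAlgebra.induction_linear with
  | zero => simp
  | add a b ha hb => rw [map_add, map_add, ha, hb, map_add, map_add]
  | single g c =>
    rw [io_single, MonoidAlgebra.mapRingHom_single, MonoidAlgebra.mapRingHom_single, io_single]
    rfl

variable [Fintype V] [IsDomain R] [IsDomain S]

theorem red_ep (u : R) : red r (I.ep u) = (I.map r h).ep (r u) := by
  unfold ep
  rw [map_sum]
  refine Finset.sum_congr rfl fun v _ => ?_
  rw [MonoidAlgebra.mapRingHom_single, map_mul]
  rfl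

theorem red_cen (u : R) (z : MonoidAlgebra R G) :
    red r (I.cen u z) = (I.map r h).cen (r u) (red r z) := by
  rw [cen_eq, cen_eq, map_sum]
  refine Finset.sum_congr rfl fun p _ => ?_
  rw [map_mul, map_mul, map_mul, I.red_io r h, I.red_ep r h, red_el, red_el]
  rfl

end Ind

section

open IsLocalRing

variable {L : Type} [CommRing L] [IsDomain L] [IsLocalRing L]

/-- `D` is a defect group of the block of `ΛG` with the idempotent `e`: a `p`-subgroup of `G`, which
has minimal order among the subgroups `D` such that the image of `e` in `kG` lies in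
`Tr_D^G((kG)^D)`. -/
def IsDefect {G : Type} [Group G] (p : ℕ) (e : MonoidAlgebra L G) (D : Subgroup G) : Prop :=
  IsPGroup p D ∧ IsMinTr D (red (rs L) e)

/-- `c` is the Brauer correspondent of `e`: the images of `e` and `c` in the group algebras over the
residue field satisfy `Br_D(e) = c`. -/
def IsCorr {G : Type} [Group G] (e : MonoidAlgebra L G) (D : Subgroup G)
    (c : MonoidAlgebra L (Subgroup.normalizer (D : Set G))) : Prop :=
  IsBr (red (rs L) e) D (red (rs L) c)

/-- an element which is a root of unity of order prime to the characteristic of the residue field,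
and congruent to `1` modulo the maximal ideal, is `1` -/
theorem root_one {p q : ℕ} [Fact p.Prime] [CharP (ResidueField L) p] (hpq : ¬ p ∣ q) {w : L}
    (hw : w ^ q = 1) (h : rs L w = 1) : w = 1 := by
  have hq : q ≠ 0 := fun h => hpq (h ▸ dvd_zero p)
  have hqu : IsUnit ((q : ℕ) : L) := by
    rw [← IsLocalRing.notMem_maximalIdeal, ← IsLocalRing.residue_eq_zero_iff, map_natCast,
      CharP.cast_eq_zero_iff (ResidueField L) p]
    exact hpq
  refine (IsLocalRing.eq_of_eval_eq_zero_of_not_isUnit_sub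
    (f := (Polynomial.X ^ q - 1 : Polynomial L)) (a := 1) (b := w) ?_ ?_ ?_ ?_).symm
  · simp
  · simp [hw]
  · intro h1
    have h2 : (1 - w) ∈ maximalIdeal L := by
      rw [← IsLocalRing.residue_eq_zero_iff, map_sub, map_one]
      change 1 - rs L w = 0
      rw [h, sub_self]
    exact (IsLocalRing.mem_maximalIdeal _).mp h2 h1
  · rw [Polynomial.derivative_sub, Polynomial.derivative_X_pow]
    simp [hqu]

end

section main

open IsLocalRing

variable {L : Type} [CommRing L] [IsDomain L] [IsDiscreteValuationRing L]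
  [IsAdicComplete (maximalIdeal L) L] {p : ℕ} [hp : Fact p.Prime] [CharP (ResidueField L) p]

theorem ind_step {X V G : Type} [Group X] [CommGroup V] [Group G] [Fintype X] [Fintype V]
    [Finite G] (I : Ind L X V G) (hV : ¬ p ∣ Nat.card V) {u : L}
    (hu : u * (Fintype.card V : L) = 1) (e : MonoidAlgebra L G) (he : IsBlock e) (D : Subgroup G)
    (hD : IsDefect p e D) (c : MonoidAlgebra L (Subgroup.normalizer (D : Set G)))
    (hc : IsBlock c) (hec : IsCorr e D c) :
    ∃ (e' : MonoidAlgebra L X) (he' : IsBlock e') (D' : Subgroup X)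
      (c' : MonoidAlgebra L (Subgroup.normalizer (D' : Set X))) (hc' : IsBlock c'),
      IsDefect p e' D' ∧ IsCorr e' D' c' ∧ Nonempty (D' ≃* D) ∧
      (∃ r : ℕ, 0 < r ∧ Nonempty (Matrix (Fin r) (Fin r) (BlockAlg he) ≃+* BlockAlg he')) ∧
      (∃ s : ℕ, 0 < s ∧ Nonempty (Matrix (Fin s) (Fin s) (BlockAlg hc) ≃+* BlockAlg hc')) ∧
      (DbEq (BlockAlg he') (BlockAlg hc') ↔ DbEq (BlockAlg he) (BlockAlg hc)) := by
  have hlam : ∀ v, rs L (I.lam v : L) = 1 → I.lam v = 1 := by
    intro v hv
    apply Units.ext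
    refine root_one (p := p) (q := Nat.card V) hV ?_ hv
    rw [← Units.val_pow_eq_pow_val, ← map_pow, pow_card_eq_one', map_one, Units.val_one]
  let I0 := I.nor D hD.1 hV
  have hlam0 : ∀ v, rs L (I0.lam v : L) = 1 → I0.lam v = 1 := fun v hv => hlam v.1 hv
  have hu1 : rs L u * (Fintype.card V : ResidueField L) = 1 := by
    rw [← map_natCast (rs L), ← map_mul, hu, map_one]
  have hVL : ∀ m : ℕ, ¬ p ∣ m → IsUnit ((m : ℕ) : L) := by
    intro m hm
    rw [← IsLocalRing.notMem_maximalIdeal, ← IsLocalRing.residue_eq_zero_iff, map_natCast,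
      CharP.cast_eq_zero_iff (ResidueField L) p]
    exact hm
  have hV0 : ¬ p ∣ Nat.card (I.V0 D) := fun h => hV (h.trans (Subgroup.card_subgroup_dvd_card _))
  obtain ⟨u0, hu0⟩ := (isUnit_iff_exists_inv'.mp (hVL _ hV0))
  have hu0' : u0 * (Fintype.card (I.V0 D) : L) = 1 := by
    rw [← Nat.card_eq_fintype_card, hu0]
  have hru : rs L u0 = rs L u := by
    have h1 : (Fintype.card V : ResidueField L) = (Nat.card (I.V0 D) : ResidueField L) :=
      (I.map (rs L) hlam).card_V0 D hD.1 hV
    have h2 : rs L u0 * (Nat.card (I.V0 D) : ResidueField L) = 1 := by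
      rw [← map_natCast (rs L), ← map_mul, hu0, map_one]
    have h3 : (Nat.card (I.V0 D) : ResidueField L) ≠ 0 := by
      intro h
      rw [h, mul_zero] at h2
      exact zero_ne_one h2
    apply mul_right_cancel₀ h3
    rw [h2, ← h1, hu1]
  have hred := red_isBlock he
  have hredc := red_isBlock hc
  refine ⟨I.cen u e, I.cen_isBlock hu he, D.map I.j, I0.cen u0 c, I0.cen_isBlock hu0' hc,
    ⟨hD.1.map I.j, ?_⟩, ?_, ⟨(D.equivMapOfInjective I.j I.j_inj).symm⟩, ?_, ?_, ?_⟩
  · rw [I.red_cen (rs L) hlam]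
    exact (I.map (rs L) hlam).cen_isMinTr hu1 hred hD.2
  · unfold IsCorr
    rw [I.red_cen (rs L) hlam, I0.red_cen (rs L) hlam0, hru]
    exact (I.map (rs L) hlam).cen_isBr D hD.1 hV hu1 hred.central hD.2.1 hredc.central hec
  · haveI : Nonempty I.Q := ⟨QuotientGroup.mk 1⟩
    refine ⟨Fintype.card I.Q, Fintype.card_pos, ⟨?_⟩⟩
    exact ((Matrix.reindexAlgEquiv ℤ (BlockAlg he) (Fintype.equivFin I.Q).symm).toRingEquiv).trans
      (I.blockEquiv hu he)
  · haveI : Nonempty I0.Q := ⟨QuotientGroup.mk 1⟩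
    refine ⟨Fintype.card I0.Q, Fintype.card_pos, ⟨?_⟩⟩
    exact ((Matrix.reindexAlgEquiv ℤ (BlockAlg hc)
      (Fintype.equivFin I0.Q).symm).toRingEquiv).trans (I0.blockEquiv hu0' hc)
  · obtain ⟨h1, h2⟩ := I.dbEq_block hu he
    obtain ⟨h3, h4⟩ := I0.dbEq_block hu0' hc
    exact ⟨fun h => (h1.trans h).trans h4, fun h => (h2.trans h).trans h3⟩

/-- block by block -/
theorem broue_step {q : ℕ} (hq : 1 < q) (hpq : ¬ p ∣ q) (hζ : ∃ ζ : L, IsPrimitiveRoot ζ q)
    (G : Type) [Group G] [Finite G] {n : ℕ} (hn : Nat.card G ^ 2 + 3 * Nat.card G ≤ n)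
    (e : MonoidAlgebra L G) (he : IsBlock e) (D : Subgroup G)
    (hD : IsDefect p e D) (c : MonoidAlgebra L (Subgroup.normalizer (D : Set G)))
    (hc : IsBlock c) (hec : IsCorr e D c) :
    ∃ (e' : MonoidAlgebra L (UG n q)) (he' : IsBlock e') (D' : Subgroup (UG n q))
      (c' : MonoidAlgebra L (Subgroup.normalizer (D' : Set (UG n q)))) (hc' : IsBlock c'),
      IsDefect p e' D' ∧ IsCorr e' D' c' ∧ Nonempty (D' ≃* D) ∧
      (∃ r : ℕ, 0 < r ∧ Nonempty (Matrix (Fin r) (Fin r) (BlockAlg he) ≃+* BlockAlg he')) ∧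
      (∃ s : ℕ, 0 < s ∧ Nonempty (Matrix (Fin s) (Fin s) (BlockAlg hc) ≃+* BlockAlg hc')) ∧
      (DbEq (BlockAlg he') (BlockAlg hc') ↔ DbEq (BlockAlg he) (BlockAlg hc)) := by
  haveI : NeZero q := ⟨by omega⟩
  haveI := Fintype.ofFinite G
  haveI := Fintype.ofFinite (UG n q)
  haveI : Finite (Mt n q) := inferInstanceAs (Finite (Matrix (Fin n) (Fin n) (ZMod q)))
  haveI := Fintype.ofFinite (Mt n q)
  obtain ⟨ζ, hζ⟩ := hζ
  have hζ' : IsPrimitiveRoot (hζ.isUnit (NeZero.ne q)).unit q := IsPrimitiveRoot.coe_units_iff.mp (by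
    rwa [IsUnit.unit_spec])
  obtain ⟨S, ι, hι, hs, hS⟩ := UM.exists_rel (H := G) (n := n) (by
    rwa [← Nat.card_eq_fintype_card])
  have hV : ¬ p ∣ Nat.card (Mt n q) := by
    rw [card_Mt]
    exact fun h => hpq (hp.out.dvd_of_dvd_pow h)
  have hVu : IsUnit ((Nat.card (Mt n q) : ℕ) : L) := by
    rw [← IsLocalRing.notMem_maximalIdeal, ← IsLocalRing.residue_eq_zero_iff, map_natCast,
      CharP.cast_eq_zero_iff (ResidueField L) p]
    exact hV
  obtain ⟨u, hu⟩ := (isUnit_iff_exists_inv'.mp hVu)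
  rw [Nat.card_eq_fintype_card] at hu
  exact ind_step (uInd hq hζ' S ι hι hs hS) hV hu e he D hD c hc hec

end main

end Pool.Agent.H373.BU
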