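import Pool.Agent.H373.BU.C4

/-!
# Broué's conjecture and the groups `M_n(Z/q) ⋊ A_n`: the main theorem
-/

set_option autoImplicit false
set_option linter.unusedSectionVars false
set_option linter.style.haveILetI false

open scoped BigOperators Classical

noncomputable section

namespace Pool.Agent.H373.BU

open MonoidAlgebra IsLocalRing

variable {L : Type} [CommRing L] [IsDomain L] [IsDiscreteValuationRing L]
  [IsAdicComplete (maximalIdeal L) L] {p : ℕ} [hp : Fact p.Prime] [CharP (ResidueField L) p]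

/-- roots of unity -/
theorem exists_root_L [IsAlgClosed (ResidueField L)] {q : ℕ} (hpq : ¬ p ∣ q) :
    ∃ ζ : L, IsPrimitiveRoot ζ q := by
  have hq0 : q ≠ 0 := fun h => hpq (h ▸ dvd_zero p)
  haveI : NeZero q := ⟨hq0⟩
  have hqk : ((q : ℕ) : ResidueField L) ≠ 0 := by
    rw [Ne, CharP.cast_eq_zero_iff (ResidueField L) p]
    exact hpq
  haveI : NeZero ((q : ℕ) : ResidueField L) := ⟨hqk⟩
  obtain ⟨z, hz⟩ := HasEnoughRootsOfUnity.exists_primitiveRoot (ResidueField L) q
  obtain ⟨a, ha⟩ := IsLocalRing.residue_surjective (R := L) z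
  obtain ⟨b, hb, hab⟩ := HenselianRing.is_henselian (I := maximalIdeal L)
    (Polynomial.X ^ q - 1 : Polynomial L) (Polynomial.monic_X_pow_sub_C (1 : L) hq0) a (by
      rw [← IsLocalRing.residue_eq_zero_iff]
      simp only [Polynomial.eval_sub, Polynomial.eval_pow, Polynomial.eval_X,
        Polynomial.eval_one, map_sub, map_pow, map_one]
      rw [ha, hz.pow_eq_one, sub_self]) (by
      have h1 : (Ideal.Quotient.mk (maximalIdeal L)) (Polynomial.eval a
          (Polynomial.derivative (Polynomial.X ^ q - 1 : Polynomial L))) =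
          ((q : ℕ) : ResidueField L) * z ^ (q - 1) := by
        change residue L _ = _
        rw [Polynomial.derivative_sub, Polynomial.derivative_X_pow, Polynomial.derivative_one,
          sub_zero]
        simp only [Polynomial.eval_mul, Polynomial.eval_pow, Polynomial.eval_X,
          Polynomial.eval_natCast, map_mul, map_pow, map_natCast]
        rw [ha]
      rw [h1]
      exact (IsUnit.mk0 _ hqk).mul ((hz.isUnit hq0).pow _))
  have hbz : residue L b = z := by
    rw [← IsLocalRing.residue_eq_zero_iff, map_sub, sub_eq_zero] at hab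
    rw [hab, ha]
  refine ⟨b, IsPrimitiveRoot.mk ?_ ?_⟩
  · rw [Polynomial.IsRoot.def, Polynomial.eval_sub, Polynomial.eval_pow, Polynomial.eval_X,
      Polynomial.eval_one, sub_eq_zero] at hb
    exact hb
  · intro m hm
    apply hz.dvd_of_pow_eq_one
    rw [← hbz, ← map_pow, hm, map_one]

/-- The group `M_n(Z/q) ⋊ A_n`; the alternating group acts on the additive group of the matrices by
conjugation with permutation matrices. -/
def XG (n q : ℕ) : Type := UG n q

instance (n q : ℕ) : Group (XG n q) := (inferInstance : Group (UG n q))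

instance (n q : ℕ) [NeZero q] : Finite (XG n q) := (inferInstance : Finite (UG n q))

/-- A block of `ΛG` together with a defect group and the Brauer correspondent. -/
structure BlockData (p : ℕ) (L G : Type) [CommRing L] [IsDomain L] [IsLocalRing L] [Group G] where
  /-- the block idempotent -/
  e : MonoidAlgebra L G
  he : IsBlock e
  /-- a defect group -/
  D : Subgroup G
  hD : IsDefect p e D
  /-- the block idempotent of the Brauer correspondent, a block of `ΛN_G(D)` -/
  c : MonoidAlgebra L (Subgroup.normalizer (D : Set G))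
  hc : IsBlock c
  hec : IsCorr e D c

namespace BlockData

variable {p : ℕ} {L G : Type} [CommRing L] [IsDomain L] [IsLocalRing L] [Group G]

/-- the block algebra `ΛGe` -/
def Alg (B : BlockData p L G) : Type := BlockAlg B.he

/-- the block algebra `ΛN_G(D)c` of the Brauer correspondent -/
def Cor (B : BlockData p L G) : Type := BlockAlg B.hc

instance (B : BlockData p L G) : Ring B.Alg := (inferInstance : Ring (BlockAlg B.he))

instance (B : BlockData p L G) : Ring B.Cor := (inferInstance : Ring (BlockAlg B.hc))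

end BlockData

/-- **Broué's conjecture** for the blocks of `ΛG` with abelian defect groups: the block algebra
and the block algebra of the Brauer correspondent are derived equivalent. -/
def Broue (p : ℕ) (L G : Type) [CommRing L] [IsDomain L] [IsLocalRing L] [Group G] : Prop :=
  ∀ B : BlockData p L G, (∀ x ∈ B.D, ∀ y ∈ B.D, x * y = y * x) → DbEq B.Alg B.Cor

end Pool.Agent.H373.BU

open Pool.Agent.H373.BU IsLocalRing in
theorem Pool.Agent.H373.BU.broue_main (p : ℕ) [Fact p.Prime] (L : Type) [CommRing L] [IsDomain L]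
    [IsDiscreteValuationRing L] [IsAdicComplete (maximalIdeal L) L] [CharP (ResidueField L) p]
    (q : ℕ) (hq : 1 < q) (hpq : q.Coprime p) :
    (IsAlgClosed (ResidueField L) → ∃ ζ : L, IsPrimitiveRoot ζ q) ∧
    ((∃ ζ : L, IsPrimitiveRoot ζ q) →
      (∀ (G : Type) [Group G] [Finite G] (n : ℕ), Nat.card G ^ 2 + 3 * Nat.card G ≤ n →
        ∀ B : BlockData p L G, ∃ B' : BlockData p L (XG n q), Nonempty (B'.D ≃* B.D) ∧
          (∃ r : ℕ, 0 < r ∧ Nonempty (Matrix (Fin r) (Fin r) B.Alg ≃+* B'.Alg)) ∧
          (∃ s : ℕ, 0 < s ∧ Nonempty (Matrix (Fin s) (Fin s) B.Cor ≃+* B'.Cor)) ∧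
          (DbEq B'.Alg B'.Cor ↔ DbEq B.Alg B.Cor)) ∧
      ∀ S : Set ℕ, S.Infinite →
        ((∀ (G : Type) [Group G] [Finite G], Broue p L G) ↔ ∀ n ∈ S, Broue p L (XG n q))) := by
  have hpp : p.Prime := Fact.out
  have hpq' : ¬ p ∣ q := fun h => hpp.one_lt.ne' (by
    have := Nat.dvd_gcd h (dvd_refl p)
    rw [hpq] at this
    exact Nat.dvd_one.mp this)
  haveI : NeZero q := ⟨by omega⟩
  refine ⟨fun _ => exists_root_L (p := p) hpq', fun hζ => ⟨?_, fun S hS => ⟨?_, ?_⟩⟩⟩
  · rintro G _ _ n hn ⟨e, he, D, hD, c, hc, hec⟩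
    obtain ⟨e', he', D', c', hc', hD', hec', h1, h2, h3, h4⟩ :=
      broue_step hq hpq' hζ G hn e he D hD c hc hec
    exact ⟨⟨e', he', D', hD', c', hc', hec'⟩, h1, h2, h3, h4⟩
  · exact fun h n _ => h (XG n q)
  · rintro h G _ _ ⟨e, he, D, hD, c, hc, hec⟩ hab
    obtain ⟨n, hnS, hn⟩ := hS.exists_gt (Nat.card G ^ 2 + 3 * Nat.card G)
    obtain ⟨e', he', D', c', hc', hD', hec', ⟨f⟩, -, -, hiff⟩ :=
      broue_step hq hpq' hζ G hn.le e he D hD c hc hec
    refine hiff.mp (h n hnS ⟨e', he', D', hD', c', hc', hec'⟩ ?_)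
    intro x hx y hy
    have h1 : (⟨x, hx⟩ : D') * ⟨y, hy⟩ = ⟨y, hy⟩ * ⟨x, hx⟩ := by
      apply f.injective
      rw [map_mul, map_mul]
      exact Subtype.ext (hab _ (f ⟨x, hx⟩).2 _ (f ⟨y, hy⟩).2)
    exact congrArg Subtype.val h1
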