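import Pool.Agent.H373.BU.C5

/-!
# The augmentation module of a permutation module
-/

set_option autoImplicit false
set_option linter.unusedSectionVars false
set_option linter.style.haveILetI false

open scoped BigOperators Classical

noncomputable section

namespace Pool.Agent.H373.BU

section aug

variable {H : Type} [Group H] [Finite H] (K : Subgroup H) (q : ℕ)

/-- the functions on `H / K` with values in `Z/q` and with the sum of the values zero -/
def Aug : AddSubgroup (H ⧸ K → ZMod q) where
  carrier := {f | ∑ᶠ c, f c = 0}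
  zero_mem' := finsum_zero
  add_mem' := fun {f g} hf hg => by
    change ∑ᶠ c, (f c + g c) = 0
    rw [finsum_add_distrib (Set.toFinite _) (Set.toFinite _), hf, hg, add_zero]
  neg_mem' := fun {f} hf => by
    change ∑ᶠ c, (- f c) = 0
    rw [finsum_neg_distrib, hf, neg_zero]

/-- the action of `h` -/
def augFun (h : H) (f : H ⧸ K → ZMod q) : H ⧸ K → ZMod q := fun c => f (h⁻¹ • c)

theorem augFun_mem (h : H) {f : H ⧸ K → ZMod q} (hf : f ∈ Aug K q) : augFun K q h f ∈ Aug K q := by
  change ∑ᶠ c, f (h⁻¹ • c) = 0
  rw [← hf]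
  exact finsum_comp_equiv (MulAction.toPerm h⁻¹)

/-- the action of `H` on the augmentation module -/
def augAct : H →* MulAut (Multiplicative (Aug K q)) where
  toFun h :=
    { toFun := fun f => Multiplicative.ofAdd ⟨augFun K q h f.toAdd.1, augFun_mem K q h f.toAdd.2⟩
      invFun := fun f =>
        Multiplicative.ofAdd ⟨augFun K q h⁻¹ f.toAdd.1, augFun_mem K q h⁻¹ f.toAdd.2⟩
      left_inv := fun f => by
        apply Multiplicative.toAdd.injective
        apply Subtype.ext
        funext c
        change f.toAdd.1 (h⁻¹ • h⁻¹⁻¹ • c) = f.toAdd.1 c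
        rw [inv_inv, inv_smul_smul]
      right_inv := fun f => by
        apply Multiplicative.toAdd.injective
        apply Subtype.ext
        funext c
        change f.toAdd.1 (h⁻¹⁻¹ • h⁻¹ • c) = f.toAdd.1 c
        rw [inv_inv, smul_inv_smul]
      map_mul' := fun f g => rfl }
  map_one' := by
    apply MulEquiv.ext
    intro f
    apply Multiplicative.toAdd.injective
    apply Subtype.ext
    funext c
    change f.toAdd.1 ((1 : H)⁻¹ • c) = f.toAdd.1 c
    rw [inv_one, one_smul]
  map_mul' g h := by
    apply MulEquiv.ext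
    intro f
    apply Multiplicative.toAdd.injective
    apply Subtype.ext
    funext c
    change f.toAdd.1 ((g * h)⁻¹ • c) = f.toAdd.1 (h⁻¹ • g⁻¹ • c)
    rw [mul_inv_rev, mul_smul]

/-- the semidirect product -/
abbrev AG : Type := Multiplicative (Aug K q) ⋊[augAct K q] H

theorem augAct_apply (h : H) (f : Multiplicative (Aug K q)) (c : H ⧸ K) :
    (augAct K q h f).toAdd.1 c = f.toAdd.1 (h⁻¹ • c) := rfl

/-- the value at the coset `K` -/
def ev : Multiplicative (Aug K q) →* Multiplicative (ZMod q) where
  toFun f := Multiplicative.ofAdd (f.toAdd.1 (QuotientGroup.mk 1))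
  map_one' := rfl
  map_mul' _ _ := rfl

variable {K q}

/-- the difference of two delta functions -/
def dl (K : Subgroup H) (q : ℕ) (a b : H ⧸ K) : Aug K q :=
  ⟨fun c => (if c = a then 1 else 0) - (if c = b then 1 else 0), by
    change ∑ᶠ c, ((if c = a then (1 : ZMod q) else 0) - (if c = b then 1 else 0)) = 0
    rw [finsum_sub_distrib (Set.toFinite _) (Set.toFinite _)]
    have h : ∀ a : H ⧸ K, ∑ᶠ c, (if c = a then (1 : ZMod q) else 0) = 1 := by
      intro a
      rw [finsum_eq_single _ a (fun b hb => if_neg hb), if_pos rfl]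
    rw [h, h, sub_self]⟩

theorem dl_apply (a b c : H ⧸ K) :
    (dl K q a b).1 c = (if c = a then 1 else 0) - (if c = b then 1 else 0) := rfl

theorem aug_stab (hq : 1 < q) (hK : 3 ≤ K.index) (h : H) :
    (∀ f : Multiplicative (Aug K q), ev K q (augAct K q h f) = ev K q f) ↔ h ∈ K := by
  haveI : Fact (1 < q) := ⟨hq⟩
  constructor
  · intro hf
    by_contra hh
    have hne : (QuotientGroup.mk 1 : H ⧸ K) ≠ QuotientGroup.mk h⁻¹ := by
      intro h1
      have := QuotientGroup.eq.mp h1
      rw [inv_one, one_mul] at this
      exact hh (by simpa using K.inv_mem this)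
    obtain ⟨c, hc1, hc2⟩ : ∃ c : H ⧸ K, c ≠ QuotientGroup.mk 1 ∧ c ≠ QuotientGroup.mk h⁻¹ := by
      by_contra hcon
      push Not at hcon
      haveI := Fintype.ofFinite (H ⧸ K)
      have h1 : (Finset.univ : Finset (H ⧸ K)) ⊆ {QuotientGroup.mk 1, QuotientGroup.mk h⁻¹} := by
        intro c _
        rw [Finset.mem_insert, Finset.mem_singleton]
        by_cases hc : c = QuotientGroup.mk 1
        · exact Or.inl hc
        · exact Or.inr (hcon c hc)
      have h2 := Finset.card_le_card h1
      have h3 : (Finset.univ : Finset (H ⧸ K)).card = K.index := by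
        rw [Finset.card_univ, Subgroup.index, Nat.card_eq_fintype_card]
      have h4 := Finset.card_le_two (a := (QuotientGroup.mk 1 : H ⧸ K))
        (b := QuotientGroup.mk h⁻¹)
      omega
    have h1 := congrArg Multiplicative.toAdd
      (hf (Multiplicative.ofAdd (dl K q (QuotientGroup.mk 1) c)))
    change (dl K q (QuotientGroup.mk 1) c).1 (h⁻¹ • (QuotientGroup.mk 1 : H ⧸ K)) =
      (dl K q (QuotientGroup.mk 1) c).1 (QuotientGroup.mk 1) at h1
    have h2 : h⁻¹ • (QuotientGroup.mk 1 : H ⧸ K) = QuotientGroup.mk h⁻¹ := by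
      change (QuotientGroup.mk (h⁻¹ * 1) : H ⧸ K) = _
      rw [mul_one]
    rw [h2, dl_apply, dl_apply, if_neg hne.symm, if_neg hc2.symm, if_pos rfl, if_neg hc1.symm,
      sub_zero, sub_zero] at h1
    exact zero_ne_one h1
  · intro hh f
    apply Multiplicative.toAdd.injective
    change f.toAdd.1 (h⁻¹ • (QuotientGroup.mk 1 : H ⧸ K)) = f.toAdd.1 (QuotientGroup.mk 1)
    have h1 : h⁻¹ • (QuotientGroup.mk 1 : H ⧸ K) = QuotientGroup.mk 1 := by
      change (QuotientGroup.mk (h⁻¹ * 1) : H ⧸ K) = _
      rw [QuotientGroup.eq]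
      simpa using hh
    rw [h1]

/-- the data -/
def augInd {R : Type} [CommRing R] (hq : 1 < q) {ζ : Rˣ} (hζ : IsPrimitiveRoot ζ q)
    {G : Type} [Group G] (ι : G →* H) (hι : Function.Injective ι) (hi : 3 ≤ ι.range.index) :
    Ind R (AG ι.range q) (Multiplicative (Aug ι.range q)) G where
  i := SemidirectProduct.inl
  j := SemidirectProduct.inr.comp ι
  act := (augAct ι.range q).comp SemidirectProduct.rightHom
  lam := (zp ζ hζ.pow_eq_one).comp (ev ι.range q)
  act_spec x v := by
    change SemidirectProduct.inl (augAct ι.range q x.right v) = _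
    have h1 : x = SemidirectProduct.inl x.left * SemidirectProduct.inr x.right :=
      (SemidirectProduct.inl_left_mul_inr_right x).symm
    conv_rhs => rw [h1]
    rw [mul_inv_rev, mul_assoc, mul_assoc, ← mul_assoc (SemidirectProduct.inl v),
      ← mul_assoc (SemidirectProduct.inr x.right), ← mul_assoc (SemidirectProduct.inr x.right),
      ← map_inv SemidirectProduct.inr, ← SemidirectProduct.inl_aut, ← map_inv, ← map_mul,
      ← map_mul]
    congr 1
    rw [mul_comm, mul_assoc, inv_mul_cancel, mul_one]
  inj v g h := by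
    have h1 := congrArg SemidirectProduct.left h
    have h2 := congrArg SemidirectProduct.right h
    simp only [MonoidHom.comp_apply, SemidirectProduct.mul_left, SemidirectProduct.left_inl,
      SemidirectProduct.right_inl, SemidirectProduct.left_inr, map_one, mul_one,
      SemidirectProduct.one_left] at h1
    simp only [MonoidHom.comp_apply, SemidirectProduct.mul_right, SemidirectProduct.right_inl,
      SemidirectProduct.right_inr, one_mul, SemidirectProduct.one_right] at h2
    refine ⟨h1, hι ?_⟩
    rw [map_one]
    exact h2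
  stab x := by
    have h1 : (∀ v, (zp ζ hζ.pow_eq_one).comp (ev ι.range q) ((augAct ι.range q).comp
        SemidirectProduct.rightHom x v) = (zp ζ hζ.pow_eq_one).comp (ev ι.range q) v) ↔
        ∀ v, ev ι.range q (augAct ι.range q x.right v) = ev ι.range q v :=
      forall_congr' fun v => ⟨fun h => zp_inj hζ h, fun h => congrArg (zp ζ hζ.pow_eq_one) h⟩
    rw [h1, aug_stab hq hi]
    constructor
    · rintro ⟨g, hg⟩
      refine ⟨x.left, g, ?_⟩
      rw [MonoidHom.comp_apply, hg, SemidirectProduct.inl_left_mul_inr_right]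
    · rintro ⟨v, g, rfl⟩
      refine ⟨g, ?_⟩
      rw [SemidirectProduct.mul_right, SemidirectProduct.right_inl, one_mul]
      rfl

instance finite_Aug [NeZero q] : Finite (Multiplicative (Aug K q)) := by
  haveI : Finite (H ⧸ K → ZMod q) := inferInstance
  exact (inferInstance : Finite (Aug K q))

instance finite_AG [NeZero q] : Finite (AG K q) :=
  Finite.of_equiv _ SemidirectProduct.equivProd.symm

theorem card_Aug {p : ℕ} [hp : Fact p.Prime] (hpq : ¬ p ∣ q) :
    ¬ p ∣ Nat.card (Multiplicative (Aug K q)) := by
  intro h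
  have h1 : Nat.card (Aug K q) ∣ Nat.card (H ⧸ K → ZMod q) :=
    AddSubgroup.card_addSubgroup_dvd_card (Aug K q)
  rw [Nat.card_fun, Nat.card_zmod] at h1
  exact hpq (hp.out.dvd_of_dvd_pow (h.trans h1))

/-- the semidirect product with a perfect group is perfect -/
theorem perfect_AG (hH : commutator H = ⊤) : commutator (AG K q) = ⊤ := by
  -- homomorphisms to commutative groups are trivial
  suffices h : ∀ x : AG K q, Abelianization.of x = 1 by
    rw [eq_top_iff]
    intro x _
    have := h x
    rwa [← MonoidHom.mem_ker, Abelianization.ker_of] at this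
  let A := Abelianization (AG K q)
  have hhom : ∀ τ : H →* A, ∀ h, τ h = 1 := by
    intro τ h
    have h1 : commutator H ≤ τ.ker := by
      rw [commutator_def, Subgroup.commutator_le]
      intro a _ b _
      rw [MonoidHom.mem_ker, map_commutatorElement, commutatorElement_eq_one_iff_mul_comm, mul_comm]
    rw [hH] at h1
    exact h1 (Subgroup.mem_top h)
  let F : Multiplicative (Aug K q) →* A := Abelianization.of.comp SemidirectProduct.inl
  have hF : ∀ (h : H) v, F (augAct K q h v) = F v := by
    intro h v
    change Abelianization.of (SemidirectProduct.inl (augAct K q h v)) = _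
    rw [SemidirectProduct.inl_aut, map_mul, map_mul, mul_comm, ← mul_assoc, ← map_mul,
      ← map_mul, ← map_mul (SemidirectProduct.inr (φ := augAct K q)), inv_mul_cancel, map_one,
      one_mul]
    rfl
  have hc : ∀ h : H, F (Multiplicative.ofAdd
      (dl K q (QuotientGroup.mk h) (QuotientGroup.mk 1))) = 1 := by
    refine hhom
      { toFun := fun h => F (Multiplicative.ofAdd (dl K q (QuotientGroup.mk h) (QuotientGroup.mk 1)))
        map_one' := ?_
        map_mul' := ?_ }
    · have : dl K q (QuotientGroup.mk 1) (QuotientGroup.mk 1) = 0 := by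
        apply Subtype.ext
        funext c
        rw [dl_apply, sub_self]
        rfl
      rw [this]
      exact map_one F
    · intro g h
      have : (Multiplicative.ofAdd (dl K q (QuotientGroup.mk (g * h)) (QuotientGroup.mk 1)) :
          Multiplicative (Aug K q)) =
          Multiplicative.ofAdd (dl K q (QuotientGroup.mk g) (QuotientGroup.mk 1)) *
          augAct K q g (Multiplicative.ofAdd (dl K q (QuotientGroup.mk h) (QuotientGroup.mk 1))) := by
        apply Multiplicative.toAdd.injective
        apply Subtype.ext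
        funext c
        change (dl K q (QuotientGroup.mk (g * h)) (QuotientGroup.mk 1)).1 c =
          (dl K q (QuotientGroup.mk g) (QuotientGroup.mk 1)).1 c +
            (dl K q (QuotientGroup.mk h) (QuotientGroup.mk 1)).1 (g⁻¹ • c)
        have e1 : (g⁻¹ • c = (QuotientGroup.mk h : H ⧸ K)) ↔ c = QuotientGroup.mk (g * h) := by
          rw [inv_smul_eq_iff]
          rfl
        have e2 : (g⁻¹ • c = (QuotientGroup.mk 1 : H ⧸ K)) ↔ c = QuotientGroup.mk g := by
          rw [inv_smul_eq_iff]
          change c = QuotientGroup.mk (g * 1) ↔ _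
          rw [mul_one]
        rw [dl_apply, dl_apply, dl_apply, if_congr e1 rfl rfl, if_congr e2 rfl rfl]
        abel
      rw [this, map_mul, hF]
  have hv : ∀ v, F v = 1 := by
    intro v
    haveI := Fintype.ofFinite (H ⧸ K)
    have h1 : v.toAdd = ∑ c : H ⧸ K, (v.toAdd.1 c).cast (R := ℤ) •
        dl K q (QuotientGroup.mk c.out) (QuotientGroup.mk 1) := by
      apply Subtype.ext
      funext d
      rw [AddSubgroup.val_finsetSum, Finset.sum_apply]
      have h2 : ∀ c ∈ (Finset.univ : Finset (H ⧸ K)), (((v.toAdd.1 c).cast (R := ℤ) •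
          dl K q (QuotientGroup.mk c.out) (QuotientGroup.mk 1) : Aug K q) : H ⧸ K → ZMod q) d =
          (if d = c then v.toAdd.1 c else 0) -
            v.toAdd.1 c * (if d = QuotientGroup.mk 1 then 1 else 0) := by
        intro c _
        rw [AddSubgroup.coe_zsmul, Pi.smul_apply, dl_apply, QuotientGroup.out_eq', zsmul_eq_mul,
          ZMod.intCast_cast, ZMod.cast_id', id_eq, mul_sub, mul_ite, mul_one, mul_zero]
      rw [Finset.sum_congr rfl h2, Finset.sum_sub_distrib, Finset.sum_ite_eq, ← Finset.sum_mul]
      have h3 : ∑ c : H ⧸ K, v.toAdd.1 c = 0 := by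
        rw [← finsum_eq_sum_of_fintype]
        exact v.toAdd.2
      rw [h3, zero_mul, sub_zero, if_pos (Finset.mem_univ _)]
    let F' : Aug K q →+ Additive A := MonoidHom.toAdditiveRight F
    have h2 : F' v.toAdd = 0 := by
      rw [h1, map_sum]
      refine Finset.sum_eq_zero fun c _ => ?_
      rw [map_zsmul]
      have : F' (dl K q (QuotientGroup.mk c.out) (QuotientGroup.mk 1)) = 0 := hc c.out
      rw [this, smul_zero]
    exact h2
  intro x
  rw [← SemidirectProduct.inl_left_mul_inr_right x, map_mul]
  have h1 := hv x.left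
  have h2 := hhom (Abelianization.of.comp SemidirectProduct.inr) x.right
  change Abelianization.of (SemidirectProduct.inl x.left) = 1 at h1
  change Abelianization.of (SemidirectProduct.inr x.right) = 1 at h2
  rw [h1, h2, one_mul]

end aug

end Pool.Agent.H373.BU
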