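import Pool.Agent.H373.BU.E1

/-!
# Broué's conjecture and perfect groups
-/

set_option autoImplicit false
set_option linter.unusedSectionVars false
set_option linter.style.haveILetI false

open scoped BigOperators Classical

noncomputable section

namespace Pool.Agent.H373.BU

open IsLocalRing

/-- Every finite group is isomorphic to a subgroup of index at least three of a finite group in the
class `C`. -/
def Cofinal (C : (H : Type) → [Group H] → Prop) : Prop :=
  ∀ (G : Type) [Group G] [Finite G], ∃ (H : Type) (_ : Group H) (_ : Finite H) (ι : G →* H),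
    C H ∧ Function.Injective ι ∧ 3 ≤ ι.range.index

/-- `Y` has an abelian normal subgroup `V` with `v ^ q = 1` for all `v` in `V`, whose quotient group
is isomorphic to a group in the class `C`. -/
def ExtOf (C : (H : Type) → [Group H] → Prop) (q : ℕ) (Y : Type) [Group Y] : Prop :=
  ∃ (V : Subgroup Y) (_ : V.Normal), (∀ v ∈ V, v ^ q = 1) ∧ (∀ v ∈ V, ∀ w ∈ V, v * w = w * v) ∧
    ∃ (H : Type) (_ : Group H), C H ∧ Nonempty (Y ⧸ V ≃* H)

/-- Every block of `ΛG` (with a defect group and the Brauer correspondent) is reproduced by a block of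
`ΛY`: the defect groups are isomorphic, the block algebras are matrix rings over the given ones, and
the two block algebras in question are derived equivalent for the new block if and only if they are
for the given one. -/
def Reproduces (p : ℕ) (L G Y : Type) [CommRing L] [IsDomain L] [IsLocalRing L] [Group G]
    [Group Y] : Prop :=
  ∀ B : BlockData p L G, ∃ B' : BlockData p L Y, Nonempty (B'.D ≃* B.D) ∧
    (∃ r : ℕ, 0 < r ∧ Nonempty (Matrix (Fin r) (Fin r) B.Alg ≃+* B'.Alg)) ∧
    (∃ s : ℕ, 0 < s ∧ Nonempty (Matrix (Fin s) (Fin s) B.Cor ≃+* B'.Cor)) ∧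
    (DbEq B'.Alg B'.Cor ↔ DbEq B.Alg B.Cor)

/-- the alternating groups of the degrees in `S` which are at least five -/
def AltIn (S : Set ℕ) (H : Type) [Group H] : Prop :=
  ∃ n ∈ S, 5 ≤ n ∧ Nonempty (H ≃* alternatingGroup (Fin n))

theorem extOf_AG {H : Type} [Group H] [Finite H] (K : Subgroup H) (q : ℕ) [NeZero q]
    {C : (H : Type) → [Group H] → Prop} (hC : C H) : ExtOf C q (AG K q) := by
  refine ⟨(SemidirectProduct.rightHom : AG K q →* H).ker, inferInstance, ?_, ?_, H, inferInstance,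
    hC, ⟨QuotientGroup.quotientKerEquivOfSurjective _ SemidirectProduct.rightHom_surjective⟩⟩
  · intro v hv
    rw [← SemidirectProduct.range_inl_eq_ker_rightHom] at hv
    obtain ⟨w, rfl⟩ := hv
    rw [← map_pow]
    have : w ^ q = 1 := by
      apply Multiplicative.toAdd.injective
      apply Subtype.ext
      funext c
      change q • (w.toAdd.1 c) = 0
      rw [nsmul_eq_mul, ZMod.natCast_self, zero_mul]
    rw [this, map_one]
  · intro v hv w hw
    rw [← SemidirectProduct.range_inl_eq_ker_rightHom] at hv hw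
    obtain ⟨v, rfl⟩ := hv
    obtain ⟨w, rfl⟩ := hw
    rw [← map_mul, ← map_mul, mul_comm]

theorem cofinal_alt {S : Set ℕ} (hS : S.Infinite) : Cofinal (AltIn S) := by
  intro G _ _
  haveI := Fintype.ofFinite G
  obtain ⟨n, hnS, hn⟩ := hS.exists_gt (Nat.card G ^ 2 + 3 * Nat.card G)
  have hG : 0 < Nat.card G := Nat.card_pos
  obtain ⟨S', ι, hι, hs, -⟩ := UM.exists_rel (H := G) (n := n) (by
    rw [← Nat.card_eq_fintype_card]
    exact hn.le)
  let ι' : G →* alternatingGroup (Fin n) := ι.codRestrict (alternatingGroup (Fin n)) fun g =>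
    Equiv.Perm.mem_alternatingGroup.mpr (hs g)
  have hι' : Function.Injective ι' := by
    intro a b h
    exact hι (congrArg Subtype.val h)
  have hn1 : Nat.card G ≤ n := by nlinarith
  have hn4 : 4 ≤ n := by nlinarith
  have hn5 : 5 ≤ n := by
    have h1 : 1 ≤ Nat.card G ^ 2 := Nat.one_le_pow _ _ hG
    omega
  refine ⟨alternatingGroup (Fin n), inferInstance, inferInstance, ι',
    ⟨n, hnS, hn5, ⟨MulEquiv.refl _⟩⟩, hι', ?_⟩
  have h1 := Subgroup.card_mul_index ι'.range
  have h2 : Nat.card ι'.range = Nat.card G :=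
    (Nat.card_congr (MonoidHom.ofInjective hι').toEquiv).symm
  haveI : Nontrivial (Fin n) := Fin.nontrivial_iff_two_le.mpr (by omega)
  have h3 : 2 * Nat.card (alternatingGroup (Fin n)) = n.factorial := by
    rw [Nat.card_eq_fintype_card, two_mul_card_alternatingGroup, Fintype.card_perm,
      Fintype.card_fin]
  have h4 : 6 * n ≤ n.factorial := by
    obtain ⟨m, rfl⟩ : ∃ m, n = m + 1 := ⟨n - 1, by omega⟩
    rw [Nat.factorial_succ, mul_comm]
    exact Nat.mul_le_mul_left _ (by
      exact Nat.factorial_le (show 3 ≤ m by omega))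
  by_contra hcon
  push Not at hcon
  rw [h2] at h1
  have h5 : Nat.card G * ι'.range.index ≤ Nat.card G * 2 := Nat.mul_le_mul_left _ (by omega)
  rw [h1] at h5
  omega

theorem perfect_alt {S : Set ℕ} (H : Type) [Group H] (h : AltIn S H) : commutator H = ⊤ := by
  obtain ⟨n, -, hn, ⟨e⟩⟩ := h
  have h1 : commutator (alternatingGroup (Fin n)) = ⊤ :=
    _root_.commutator_alternatingGroup_eq_top (by
      rw [Nat.card_eq_fintype_card, Fintype.card_fin]; exact hn)
  rw [eq_top_iff]
  intro x _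
  have h2 : e x ∈ commutator (alternatingGroup (Fin n)) := by
    rw [h1]
    exact Subgroup.mem_top _
  have h3 : (commutator H).map e.toMonoidHom = commutator (alternatingGroup (Fin n)) := by
    rw [commutator_def, commutator_def, Subgroup.map_commutator]
    congr 1 <;> exact Subgroup.map_top_of_surjective _ e.surjective
  rw [← h3] at h2
  obtain ⟨y, hy, hxy⟩ := h2
  rwa [← e.injective hxy]

variable {L : Type} [CommRing L] [IsDomain L] [IsDiscreteValuationRing L]
  [IsAdicComplete (maximalIdeal L) L] {p : ℕ} [hp : Fact p.Prime] [CharP (ResidueField L) p]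

theorem aug_step {q : ℕ} (hq : 1 < q) (hpq : ¬ p ∣ q) (hζ : ∃ ζ : L, IsPrimitiveRoot ζ q)
    (G H : Type) [Group G] [Finite G] [Group H] [Finite H] (ι : G →* H)
    (hι : Function.Injective ι) (hi : 3 ≤ ι.range.index) (B : BlockData p L G) :
    ∃ B' : BlockData p L (AG ι.range q), Nonempty (B'.D ≃* B.D) ∧
      (∃ r : ℕ, 0 < r ∧ Nonempty (Matrix (Fin r) (Fin r) B.Alg ≃+* B'.Alg)) ∧
      (∃ s : ℕ, 0 < s ∧ Nonempty (Matrix (Fin s) (Fin s) B.Cor ≃+* B'.Cor)) ∧
      (DbEq B'.Alg B'.Cor ↔ DbEq B.Alg B.Cor) := by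
  haveI : NeZero q := ⟨by omega⟩
  haveI := Fintype.ofFinite (AG ι.range q)
  haveI := Fintype.ofFinite (Multiplicative (Aug ι.range q))
  obtain ⟨ζ, hζ⟩ := hζ
  have hζ' : IsPrimitiveRoot (hζ.isUnit (NeZero.ne q)).unit q :=
    IsPrimitiveRoot.coe_units_iff.mp (by rwa [IsUnit.unit_spec])
  have hV : ¬ p ∣ Nat.card (Multiplicative (Aug ι.range q)) := card_Aug hpq
  have hVu : IsUnit ((Nat.card (Multiplicative (Aug ι.range q)) : ℕ) : L) := by
    rw [← IsLocalRing.notMem_maximalIdeal, ← IsLocalRing.residue_eq_zero_iff, map_natCast,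
      CharP.cast_eq_zero_iff (ResidueField L) p]
    exact hV
  obtain ⟨u, hu⟩ := (isUnit_iff_exists_inv'.mp hVu)
  rw [Nat.card_eq_fintype_card] at hu
  obtain ⟨e, he, D, hD, c, hc, hec⟩ := B
  obtain ⟨e', he', D', c', hc', hD', hec', h1, h2, h3, h4⟩ :=
    ind_step (augInd hq hζ' ι hι hi) hV hu e he D hD c hc hec
  exact ⟨⟨e', he', D', hD', c', hc', hec'⟩, h1, h2, h3, h4⟩

theorem broue_of_step {G Y : Type} [Group G] [Group Y] (hY : Broue p L Y)
    (h : ∀ B : BlockData p L G, ∃ B' : BlockData p L Y, Nonempty (B'.D ≃* B.D) ∧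
      (∃ r : ℕ, 0 < r ∧ Nonempty (Matrix (Fin r) (Fin r) B.Alg ≃+* B'.Alg)) ∧
      (∃ s : ℕ, 0 < s ∧ Nonempty (Matrix (Fin s) (Fin s) B.Cor ≃+* B'.Cor)) ∧
      (DbEq B'.Alg B'.Cor ↔ DbEq B.Alg B.Cor)) : Broue p L G := by
  intro B hab
  obtain ⟨B', ⟨f⟩, -, -, hiff⟩ := h B
  refine hiff.mp (hY B' ?_)
  intro x hx y hy
  have h1 : (⟨x, hx⟩ : B'.D) * ⟨y, hy⟩ = ⟨y, hy⟩ * ⟨x, hx⟩ := by
    apply f.injective
    rw [map_mul, map_mul]
    exact Subtype.ext (hab _ (f ⟨x, hx⟩).2 _ (f ⟨y, hy⟩).2)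
  exact congrArg Subtype.val h1

end Pool.Agent.H373.BU

open Pool.Agent.H373.BU IsLocalRing in
theorem Pool.Agent.H373.BU.perf_main (p : ℕ) [Fact p.Prime] (L : Type) [CommRing L] [IsDomain L]
    [IsDiscreteValuationRing L] [IsAdicComplete (maximalIdeal L) L] [CharP (ResidueField L) p]
    (q : ℕ) (hq : 1 < q) (hpq : q.Coprime p) (hζ : ∃ ζ : L, IsPrimitiveRoot ζ q) :
    (∀ (G H : Type) [Group G] [Finite G] [Group H] [Finite H] (ι : G →* H),
      Function.Injective ι → 3 ≤ ι.range.index → ∃ (Y : Type) (_ : Group Y) (_ : Finite Y),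
        ExtOf (fun H' _ => Nonempty (H' ≃* H)) q Y ∧ (commutator H = ⊤ → commutator Y = ⊤) ∧
          Reproduces p L G Y) ∧
    (∀ C : (H : Type) → [Group H] → Prop, Cofinal C →
      ((∀ (G : Type) [Group G] [Finite G], Broue p L G) ↔
        ∀ (Y : Type) [Group Y] [Finite Y], ExtOf C q Y → Broue p L Y) ∧
      ((∀ (H : Type) [Group H], C H → commutator H = ⊤) →
        ((∀ (G : Type) [Group G] [Finite G], Broue p L G) ↔
          ∀ (Y : Type) [Group Y] [Finite Y], ExtOf C q Y → commutator Y = ⊤ → Broue p L Y))) ∧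
    ∀ S : Set ℕ, S.Infinite →
      ((∀ (G : Type) [Group G] [Finite G], Broue p L G) ↔
        ∀ (Y : Type) [Group Y] [Finite Y], ExtOf (AltIn S) q Y → commutator Y = ⊤ →
          Broue p L Y) := by
  have hpp : p.Prime := Fact.out
  have hpq' : ¬ p ∣ q := fun h => hpp.one_lt.ne' (by
    have := Nat.dvd_gcd h (dvd_refl p)
    rw [hpq] at this
    exact Nat.dvd_one.mp this)
  haveI : NeZero q := ⟨by omega⟩
  have key : ∀ C : (H : Type) → [Group H] → Prop, Cofinal C →
      ((∀ (H : Type) [Group H], C H → commutator H = ⊤) →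
        ((∀ (G : Type) [Group G] [Finite G], Broue p L G) ↔
          ∀ (Y : Type) [Group Y] [Finite Y], ExtOf C q Y → commutator Y = ⊤ → Broue p L Y)) := by
    intro C hC hperf
    refine ⟨fun h Y _ _ _ _ => h Y, fun h G _ _ => ?_⟩
    obtain ⟨H, _, _, ι, hCH, hι, hi⟩ := hC G
    exact broue_of_step (h (AG ι.range q) (extOf_AG ι.range q hCH) (perfect_AG (hperf H hCH)))
      (aug_step hq hpq' hζ G H ι hι hi)
  refine ⟨fun G H _ _ _ _ ι hι hi => ⟨AG ι.range q, inferInstance, inferInstance,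
    extOf_AG (C := fun H' _ => Nonempty (H' ≃* H)) ι.range q ⟨MulEquiv.refl H⟩, perfect_AG,
    aug_step hq hpq' hζ G H ι hι hi⟩,
    fun C hC => ⟨⟨fun h Y _ _ _ => h Y, fun h G _ _ => ?_⟩, key C hC⟩, fun S hS => ?_⟩
  · obtain ⟨H, _, _, ι, hCH, hι, hi⟩ := hC G
    exact broue_of_step (h (AG ι.range q) (extOf_AG ι.range q hCH))
      (aug_step hq hpq' hζ G H ι hι hi)
  · exact key (AltIn S) (cofinal_alt hS) (fun H _ h => perfect_alt H h)
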